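import Pool.Agent.Lib.MP_be561b_pr.Front

/-! Persistence of infections on the torus. -/

namespace Pool.Agent.FA1f

open Function Finset

section Persist

variable {q : ℝ}

/-- Indicator that the front picture breaks down. -/
noncomputable def badF {m : ℕ} (e : ℕ → ZMod m) (K : ℕ) (η : ZMod m → Bool) : ℝ :=
  if η (e 0) = true ∧ 1 ≤ YF e K η ∧ YF e K η + 1 ≤ 2 * K then 0 else 1

lemma drift_line (h0 : 0 < q) (h1 : q < 1) {m : ℕ} [NeZero m] {e : ℕ → ZMod m} {K N : ℕ}
    {κ ε M T b : ℝ} (M0 : 0 < M) (T0 : 0 < T)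
    (H : ∀ ν : ((ℕ → Bool) → ℝ) →ₗ[ℝ] ℝ, Pos ν → ν 1 = 1 →
      (∀ φ, Dep N φ → (∀ σ, |φ σ| ≤ M) → -ε ≤ ν (LF q N φ)) → κ ≤ ν (vF q))
    (he : ∀ i ≤ 2 * K + N + 2, ∀ j ≤ 2 * K + N + 2, e i = e j → i = j)
    (hn : ∀ i η, cT (e (i + 1)) η = if η (e i) = false ∨ η (e (i + 2)) = false then 1 else 0)
    {η0 : ZMod m → Bool} (hb : ∀ s ∈ Set.Icc 0 T, sg (LT q m) s (badF e K) η0 ≤ b)
    (n1 : 2 * M / T + (2 * K + 2 * N + 4) * (2 * M) * b ≤ ε)
    (n2 : ((2 * K + 2) * (4 * K) + 1) * b ≤ κ / 2) (n3 : 2 ≤ κ * T) :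
    sg (LT q m) T (fun η => (YF e K η : ℝ)) η0 ≤ YF e K η0 - 1 := by
  have hA := LT_pos (m := m) h0 h1
  set mm := tavg (LT q m) T η0 with hmm
  have mP : Pos mm := fun f hf => tavg_nonneg hA T0 η0 hf
  have mb : mm (badF e K) ≤ b := tavg_le T0 η0 _ hb
  set ν : ((ℕ → Bool) → ℝ) →ₗ[ℝ] ℝ := mm.comp (LinearMap.funLeft ℝ ℝ (sF e K)) with hν
  have νa : ∀ φ, ν φ = mm (fun η => φ (sF e K η)) := fun φ => rfl
  have s1 := H ν (fun f hf => mP _ fun η => hf _) (tavg_one LT_one T0 η0) fun φ dφ bφ => by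
    have a1 : mm (LT q m (fun η => φ (sF e K η)) -
        ((2 * K + 2 * N + 4) * (2 * M) : ℝ) • badF e K) ≤ ν (LF q N φ) := by
      rw [νa]
      refine mP.mono fun η => ?_
      simp only [Pi.sub_apply, Pi.smul_apply, smul_eq_mul, badF]
      split_ifs with hg
      · obtain ⟨y, hy⟩ : ∃ y, YF e K η = y + 1 := ⟨YF e K η - 1, by omega⟩
        rw [LT_good he hn (Φ := fun _ => φ) (fun _ => dφ) hy hg.1 (by omega)]
        simp [LF, Finset.sum_apply]
      · have b1 := (abs_le.1 (LT_bad (e := e) (K := K) h0 h1 (Φ := fun _ => φ) (fun _ => dφ)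
          (fun _ _ => bφ) η)).2
        have b2 := (abs_le.1 (LF_abs_le h0 h1 N bφ (sF e K η))).1
        linarith
    rw [map_sub, lin_smul, hmm, tavg_gen, ← hmm] at a1
    have a2 := (abs_le.1 (sg_abs_le hA (by rw [LT_one]) (f := fun η => φ (sF e K η))
      (fun η => bφ _) T0.le η0)).1
    have a3 := (abs_le.1 (bφ (sF e K η0))).2
    have a4 : -(2 * M / T) ≤ T⁻¹ * (sg (LT q m) T (fun η => φ (sF e K η)) η0 - φ (sF e K η0)) := by
      rw [le_inv_mul_iff₀ T0, mul_neg, mul_div_cancel₀ _ T0.ne']; linarith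
    have a5 := mul_le_mul_of_nonneg_left mb
      (show (0 : ℝ) ≤ (2 * K + 2 * N + 4) * (2 * M) by positivity)
    linarith
  have s2 : mm (LT q m (fun η => (YF e K η : ℝ))) ≤
      mm (((2 * K + 2) * (4 * K) + 1 : ℝ) • badF e K - fun η => vF q (sF e K η)) := by
    refine mP.mono fun η => ?_
    simp only [Pi.sub_apply, Pi.smul_apply, smul_eq_mul, badF, vF, Pi.one_apply]
    split_ifs with hg
    · obtain ⟨y, hy⟩ : ∃ y, YF e K η = y + 1 := ⟨YF e K η - 1, by omega⟩
      rw [LT_good (N := 0) (fun i hi j hj => he i (by omega) j (by omega)) hn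
        (Φ := fun y _ => (y : ℝ)) (fun _ _ _ _ => rfl) hy hg.1 (by omega)]
      simp only [range_zero, sum_empty]
      push_cast
      linarith
    · have b1 := (abs_le.1 (LT_bad (e := e) (K := K) (N := 0) h0 h1 (Φ := fun y _ => (y : ℝ))
        (fun _ _ _ _ => rfl) (M := 2 * K) (fun y hy _ => by
          rw [abs_of_nonneg (Nat.cast_nonneg y)]; exact_mod_cast hy) η)).2
      have b2 := mul_nonneg (show 0 ≤ 1 - q by linarith) (zr_nonneg 0 (sF e K η))
      push_cast at b1
      linarith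
  rw [map_sub, lin_smul, ← νa, hmm, tavg_gen, ← hmm, inv_mul_le_iff₀ T0] at s2
  have s3 := mul_le_mul_of_nonneg_left mb
    (show (0 : ℝ) ≤ (2 * K + 2) * (4 * K) + 1 by positivity)
  have s4 : ((2 * K + 2) * (4 * K) + 1) * mm (badF e K) - ν (vF q) ≤ -(κ / 2) := by linarith
  nlinarith [mul_le_mul_of_nonneg_left s4 T0.le]

theorem contraction (h0 : 0 < q) (h1 : q < 1) : ∃ θ T γ C : ℝ, ∃ m0 : ℕ, 1 < θ ∧ θ ≤ 2 ∧
    0 < T ∧ 0 < γ ∧ γ < 1 ∧ 0 ≤ C ∧ 2 ≤ m0 ∧ ∀ (m : ℕ) [NeZero m], m0 ≤ m → ∀ x η,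
      sg (LT q m) T (WL θ x) η ≤ γ * WL θ x η + C := by
  obtain ⟨κ, κ0, ε, ε0, N, M, M0, H⟩ := drift_main h0 h1
  set T := max (4 * M / ε) (2 / κ) with hT
  have T0 : 0 < T := lt_max_of_lt_right (by positivity)
  have T1 : 2 * M / T ≤ ε / 2 := by
    have : 4 * M / ε ≤ T := le_max_left _ _
    rw [div_le_iff₀ ε0] at this
    rw [div_le_iff₀ T0]; linarith
  have T2 : 2 ≤ κ * T := by
    have : 2 / κ ≤ T := le_max_right _ _
    rw [div_le_iff₀ κ0] at this; linarith
  set X := Real.exp (2 * T) with hX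
  have X0 : 0 < X := Real.exp_pos _
  obtain ⟨K, hK1, hK2⟩ : ∃ K : ℕ, N + 1 ≤ K ∧ (K : ℝ) ^ 2 / 2 ^ K <
      min (min (ε / (48 * M * X)) (κ / (68 * X))) (1 / (16 * X)) := by
    have := (tendsto_pow_const_div_const_pow_of_one_lt 2 (one_lt_two (α := ℝ))).eventually
      (gt_mem_nhds (show 0 < min (min (ε / (48 * M * X)) (κ / (68 * X))) (1 / (16 * X)) from
        lt_min (lt_min (by positivity) (by positivity)) (by positivity)))
    exact ((Filter.eventually_ge_atTop (N + 1)).and this).exists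
  have K1 : (1 : ℝ) ≤ K := by exact_mod_cast (show 1 ≤ K by omega)
  have KN : (N : ℝ) + 1 ≤ K := by exact_mod_cast hK1
  set r : ℝ := 1 / 2 ^ K with hr
  have r0 : 0 < r := by positivity
  rw [show (K : ℝ) ^ 2 / 2 ^ K = K ^ 2 * r by rw [hr]; ring, lt_min_iff, lt_min_iff,
    lt_div_iff₀ (by positivity), lt_div_iff₀ (by positivity), lt_div_iff₀ (by positivity)] at hK2
  obtain ⟨⟨k1, k2⟩, k3⟩ := hK2
  set a : ℝ := 1 / (2 * K ^ 2) with ha
  have a0 : 0 < a := by positivity
  have aK : a * K ≤ 1 / 2 := by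
    rw [ha, div_mul_eq_mul_div, div_le_div_iff₀ (by positivity) (by norm_num)]; nlinarith
  have a1 : a ≤ 1 / 2 := by nlinarith
  have aK2 : a * K ^ 2 = 1 / 2 := by rw [ha]; field_simp
  have eh : Real.exp (1 / 2) ≤ 2 := by
    have := Real.exp_one_lt_d9
    have e2 : Real.exp (1 / 2) * Real.exp (1 / 2) = Real.exp 1 := by
      rw [← Real.exp_add]; norm_num
    nlinarith [Real.exp_pos (1 / 2)]
  set θ := Real.exp a with hθ
  have t1 : 1 < θ := Real.one_lt_exp_iff.2 a0
  have t2 : θ ≤ 2 := (Real.exp_le_exp.2 a1).trans eh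
  have tK : θ ^ K ≤ 2 := by
    rw [hθ, ← Real.exp_nat_mul, mul_comm]; exact (Real.exp_le_exp.2 aK).trans eh
  refine ⟨θ, T, 1 - a / 4, X * 2 ^ K, 2 * K + N + 4, t1, t2, T0, by linarith, by linarith,
    by positivity, by omega, fun m _ hm x η0 => ?_⟩
  have hA := LT_pos (m := m) h0 h1
  have m2 : 2 ≤ m := by omega
  have W0 := WL_nonneg (by linarith : 0 ≤ θ) x η0
  by_cases hz : ¬ (∃ y, η0 y = false) ∨ xi x η0 ≤ K
  · have b1 := sg_le_exp hA (LT_WL h0 h1 m2 t1.le t2 x) T0.le η0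
    have b2 : WL θ x η0 ≤ 2 ^ K := by
      rcases hz with hz | hz
      · rw [WL, if_neg hz]; positivity
      · exact (WL_le (by linarith) x η0).trans ((pow_le_pow_right₀ t1.le hz).trans
          (pow_le_pow_left₀ (by linarith) t2 K))
    have := mul_le_mul_of_nonneg_left b2 X0.le
    nlinarith [mul_nonneg (show 0 ≤ 1 - a / 4 by linarith) W0]
  push Not at hz
  obtain ⟨⟨y0, hy0⟩, hK⟩ := hz
  have eW : WL θ x η0 = θ ^ xi x η0 := if_pos ⟨y0, hy0⟩
  obtain ⟨i0, hi0, hz0⟩ := xi_spec (xi_lt_of_zero x hy0)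
  obtain ⟨s0, hs0⟩ : ∃ s0, xi x η0 = s0 + (K + 1) := ⟨xi x η0 - (K + 1), by omega⟩
  obtain ⟨d, hd, hid⟩ : ∃ d : ℤ, (d = 1 ∨ d = -1) ∧ i0 = d * ((s0 + (K + 1) : ℕ) : ℤ) := by
    rcases Int.natAbs_eq i0 with h | h
    · exact ⟨1, Or.inl rfl, by omega⟩
    · exact ⟨-1, Or.inr rfl, by omega⟩
  have dabs : ∀ n : ℕ, (d * n).natAbs = n := fun n => by rcases hd with rfl | rfl <;> simp
  set e : ℕ → ZMod m := fun i => x + ((d * ((s0 + i : ℕ) : ℤ) : ℤ) : ZMod m) with he'
  have he : ∀ i ≤ 2 * K + N + 2, ∀ j ≤ 2 * K + N + 2, e i = e j → i = j := by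
    intro i hi j hj h
    simp only [he', add_right_inj] at h
    rw [ZMod.intCast_eq_intCast_iff_dvd_sub] at h
    have := Int.eq_zero_of_abs_lt_dvd h (by
      rw [abs_lt]; rcases hd with rfl | rfl <;> constructor <;> push_cast <;> omega)
    rcases hd with rfl | rfl <;> omega
  have hn : ∀ i η, cT (e (i + 1)) η =
      if η (e i) = false ∨ η (e (i + 2)) = false then 1 else 0 := by
    intro i η
    rcases hd with rfl | rfl
    · have u1 : e (i + 1) - 1 = e i := by simp only [he']; push_cast; ring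
      have u2 : e (i + 1) + 1 = e (i + 2) := by simp only [he']; push_cast; ring
      rw [cT, u1, u2]
    · have u1 : e (i + 1) - 1 = e (i + 2) := by simp only [he']; push_cast; ring
      have u2 : e (i + 1) + 1 = e i := by simp only [he']; push_cast; ring
      rw [cT, u1, u2]; exact if_congr or_comm rfl rfl
  have xle : ∀ i η, η (e i) = false → xi x η ≤ s0 + i := fun i η h => by
    have := xi_le_of h; rwa [dabs] at this
  have ez : η0 (e (K + 1)) = false := by rw [← hz0, hid]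
  have Y0 : YF e K η0 = K := YF_eq (fun i hi => by
    by_contra hc
    have := xle (i + 1) η0 (by simpa using hc); omega) (Or.inl ez) (by omega)
  have tri : ∀ i η, xi x η ≤ s0 + i + xi (e i) η := fun i η => by
    have := xi_triangle x (d * ((s0 + i : ℕ) : ℤ)) η; rwa [dabs] at this
  have x0 : K + 1 ≤ xi (e 0) η0 := by have := tri 0 η0; omega
  have xz : xi (e (K + 1)) η0 = 0 := by
    have : xi (e (K + 1)) η0 ≤ (0 : ℤ).natAbs := xi_le_of (by simpa using ez)
    simpa using this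
  have far : ∀ η, YF e K η = 2 * K → K ≤ xi (e (K + 1)) η := fun η hY => by
    by_contra hc
    push Not at hc
    obtain ⟨i, hi, h2⟩ := xi_spec (z := e (K + 1)) (η := η) (by omega)
    obtain ⟨j, hj, hj2⟩ : ∃ j : ℕ, j < 2 * K ∧ (j : ℤ) = K + d * i :=
      ⟨(K + d * i).toNat, by rcases hd with rfl | rfl <;> omega,
        by rcases hd with rfl | rfl <;> omega⟩
    have : e (K + 1) + (i : ZMod m) = e (j + 1) := by
      simp only [he', add_assoc, ← Int.cast_add]
      congr 2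
      rcases hd with rfl | rfl <;> push_cast <;> omega
    rw [this, YF_lt (e := e) (η := η) (K := K) (i := j) (by omega)] at h2
    exact absurd h2 (by simp)
  have up2 : ∀ s ∈ Set.Icc 0 T, sg (LT q m) s (fun η => (2 : ℝ) ^ xi (e (K + 1)) η) η0 ≤ X := by
    intro s hs
    have := sg_le_exp hA (LT_pow_xi h0 h1 m2 one_le_two le_rfl (e (K + 1))) hs.1 η0
    rw [xz, pow_zero, mul_one] at this
    exact this.trans (Real.exp_le_exp.2 (by linarith [hs.2]))
  have hb : ∀ s ∈ Set.Icc 0 T, sg (LT q m) s (badF e K) η0 ≤ 2 * X * r := by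
    intro s hs
    have b1 := sg_mono hA hs.1 (f := badF e K) (g := (2 : ℝ) • (fun η => (1 / 2 : ℝ) ^ xi (e 0) η) +
      r • fun η => (2 : ℝ) ^ xi (e (K + 1)) η) (fun η => by
        simp only [Pi.add_apply, Pi.smul_apply, smul_eq_mul, badF]
        have p1 : 0 < 2 * (1 / 2 : ℝ) ^ xi (e 0) η := by positivity
        have p2 : 0 < r * (2 : ℝ) ^ xi (e (K + 1)) η := by positivity
        split_ifs with hg
        · positivity
        · by_cases c1 : xi (e 0) η ≤ 1
          · have := pow_le_pow_of_le_one (show (0 : ℝ) ≤ 1 / 2 by norm_num) (by norm_num) c1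
            linarith
          · have c2 : η (e 0) = true := by
              by_contra hc
              have : xi (e 0) η ≤ (0 : ℤ).natAbs := xi_le_of (by simpa using hc)
              simp at this; omega
            have c3 : 1 ≤ YF e K η := by
              by_contra hc
              have h2 := YF_zero (e := e) (K := K) (η := η) (by omega)
              rw [show YF e K η = 0 by omega] at h2
              have : xi (e 0) η ≤ d.natAbs := xi_le_of (by
                rw [← h2]; simp only [he']; congr 1; push_cast; ring)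
              rcases hd with rfl | rfl <;> simp at this <;> omega
            have c4 := far η (by
              have := YF_le (e := e) (K := K) η
              by_contra hc
              exact hg ⟨c2, c3, by omega⟩)
            have := pow_le_pow_right₀ (one_le_two (α := ℝ)) c4
            have : 1 ≤ r * (2 : ℝ) ^ xi (e (K + 1)) η := by
              rw [hr, div_mul_eq_mul_div, one_mul, one_le_div (by positivity)]; exact this
            linarith) η0
    rw [map_add, map_smul, map_smul] at b1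
    simp only [Pi.add_apply, Pi.smul_apply, smul_eq_mul] at b1
    have b2 := sg_le_exp hA (LT_half_xi h0 h1 (e 0)) hs.1 η0
    have b3 := pow_le_pow_of_le_one (show (0 : ℝ) ≤ 1 / 2 by norm_num) (by norm_num) x0
    have b4 : Real.exp (2 * s) ≤ X := Real.exp_le_exp.2 (by linarith [hs.2])
    have b5 : Real.exp (2 * s) * (1 / 2 : ℝ) ^ xi (e 0) η0 ≤ X * (1 / 2) ^ (K + 1) := by gcongr
    have b6 : (1 / 2 : ℝ) ^ (K + 1) = r / 2 := by rw [hr, pow_succ, one_div_pow]; ring
    rw [b6] at b5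
    have := mul_le_mul_of_nonneg_left (up2 s hs) r0.le
    linarith
  have dr := drift_line h0 h1 M0 T0 H he hn hb
    (by
      have : (2 * K + 2 * N + 4 : ℝ) ≤ 6 * K ^ 2 := by nlinarith
      have := mul_le_mul_of_nonneg_right this (show 0 ≤ M * X * r by positivity)
      linarith)
    (by
      have : ((2 * K + 2) * (4 * K) + 1 : ℝ) ≤ 17 * K ^ 2 := by nlinarith
      have := mul_le_mul_of_nonneg_right this (show 0 ≤ X * r by positivity)
      linarith) T2
  rw [Y0] at dr
  have c1 := sg_mono hA T0.le (f := WL θ x) (g := θ ^ xi x η0 • ((1 - a * K + a / 2) • 1 +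
    a • (fun η => (YF e K η : ℝ)) + (2 * r) • fun η => (2 : ℝ) ^ xi (e (K + 1)) η)) (fun η => by
      refine (WL_le (by linarith) x η).trans ?_
      simp only [Pi.add_apply, Pi.smul_apply, smul_eq_mul, Pi.one_apply, mul_one]
      have yl := YF_le (e := e) (K := K) η
      have yl' : (YF e K η : ℝ) ≤ 2 * K := by exact_mod_cast yl
      have y0' : (0 : ℝ) ≤ YF e K η := Nat.cast_nonneg _
      have u1 : |a * (YF e K η - K)| ≤ a * K := by
        rw [abs_mul, abs_of_pos a0]
        exact mul_le_mul_of_nonneg_left (abs_le.2 ⟨by linarith, by linarith⟩) a0.le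
      have u2 := (abs_le.1 (Real.abs_exp_sub_one_sub_id_le (u1.trans (by linarith)))).2
      have u3 : (a * (YF e K η - K)) ^ 2 ≤ a / 2 := by
        have := sq_le_sq' (abs_le.1 u1).1 (abs_le.1 u1).2
        nlinarith
      have u4 : Real.exp (a * (YF e K η - K)) ≤ 1 - a * K + a / 2 + a * YF e K η := by linarith
      have p0 : 0 < θ ^ xi x η0 := by positivity
      have p2 : 0 < 2 * r * (2 : ℝ) ^ xi (e (K + 1)) η := by positivity
      rcases yl.lt_or_eq with h | h
      · have v1 := pow_le_pow_right₀ t1.le (xle _ η (YF_zero h))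
        have v2 : θ ^ (s0 + (YF e K η + 1)) = θ ^ xi x η0 * Real.exp (a * (YF e K η - K)) := by
          rw [hs0, hθ, ← Real.exp_nat_mul, ← Real.exp_nat_mul, ← Real.exp_add]
          congr 1; push_cast; ring
        rw [v2] at v1
        refine v1.trans (mul_le_mul_of_nonneg_left (by linarith) p0.le)
      · obtain ⟨j, hj⟩ : ∃ j, xi (e (K + 1)) η = K + j :=
          ⟨xi (e (K + 1)) η - K, by have := far η h; omega⟩
        have v1 := pow_le_pow_right₀ t1.le (tri (K + 1) η)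
        rw [← hs0, pow_add] at v1
        have v2 : θ ^ xi (e (K + 1)) η ≤ 2 * r * 2 ^ xi (e (K + 1)) η := by
          rw [hj, pow_add, pow_add, hr]
          have : θ ^ K * θ ^ j ≤ 2 * 2 ^ j := by gcongr
          refine this.trans (le_of_eq ?_)
          field_simp
        have := Real.exp_pos (a * (YF e K η - K))
        refine v1.trans (mul_le_mul_of_nonneg_left (by linarith) p0.le)) η0
  rw [map_smul, map_add, map_add, map_smul, map_smul, map_smul, sg_fixed LT_one] at c1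
  simp only [Pi.add_apply, Pi.smul_apply, smul_eq_mul, Pi.one_apply, mul_one] at c1
  have c2 := mul_le_mul_of_nonneg_left dr a0.le
  have c3 := mul_le_mul_of_nonneg_left (up2 T ⟨T0.le, le_rfl⟩) (show 0 ≤ 2 * r by positivity)
  have c4 : 2 * r * X ≤ a / 4 := by
    rw [ha, div_div, le_div_iff₀ (by positivity)]; linarith
  rw [eW]
  refine c1.trans ?_
  have p0 : 0 < θ ^ xi x η0 := by positivity
  have : 0 < X * 2 ^ K := by positivity
  nlinarith [mul_le_mul_of_nonneg_left (show 1 - a * K + a / 2 +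
    a * sg (LT q m) T (fun η => (YF e K η : ℝ)) η0 +
    2 * r * sg (LT q m) T (fun η => (2 : ℝ) ^ xi (e (K + 1)) η) η0 ≤ 1 - a / 4 by linarith) p0.le]

theorem persistence (h0 : 0 < q) (h1 : q < 1) : ∃ θ c C : ℝ, ∃ m0 : ℕ, 1 < θ ∧ θ ≤ 2 ∧
    0 < c ∧ 0 < C ∧ 2 ≤ m0 ∧ ∀ (m : ℕ) [NeZero m], m0 ≤ m → ∀ x η t, 0 ≤ t →
      sg (LT q m) t (WL θ x) η ≤ C * (Real.exp (-c * t) * WL θ x η + 1) := by
  obtain ⟨θ, T, γ, C, m0, t1, t2, T0, g0, g1, C0, hm0, H⟩ := contraction h0 h1
  have g2 : 0 < 1 - γ := by linarith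
  refine ⟨θ, -(Real.log γ / T), Real.exp (2 * T) * (γ⁻¹ + C / (1 - γ)), m0, t1, t2,
    neg_pos.2 (div_neg_of_neg_of_pos (Real.log_neg g0 g1) T0), by positivity, hm0,
    fun m _ hm x η t ht => ?_⟩
  refine (skeleton (LT_pos h0 h1) LT_one (WL_nonneg (by linarith) x)
    (LT_WL h0 h1 (hm0.trans hm) t1.le t2 x) T0 g0 g1 C0 (H m hm x) ht η).trans ?_
  rw [neg_neg, mul_assoc (Real.exp (2 * T))]
  refine mul_le_mul_of_nonneg_left ?_ (Real.exp_pos _).le
  have a1 : 0 ≤ Real.exp (Real.log γ / T * t) * WL θ x η :=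
    mul_nonneg (Real.exp_pos _).le (WL_nonneg (by linarith) x η)
  have a2 : 0 ≤ C / (1 - γ) := by positivity
  have a3 : 0 < γ⁻¹ := by positivity
  nlinarith [mul_nonneg a1 a2]

end Persist

end Pool.Agent.FA1f
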