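import Pool.Agent.Lib.MP_be561b_pr.Law
import Pool.Agent.Lib.MP_be561b_pr.Persist

/-! Persistence on the line and the main estimate. -/

namespace Pool.Agent.FA1f

open Function Finset MeasureTheory ProbabilityTheory Filter Topology

open Classical in
/-- Indicator that an interval is healthy. -/
noncomputable def fH (X : ℤ) (r : ℕ) (η : ℤ → Bool) : ℝ :=
  if ∀ i : ℤ, i.natAbs ≤ r → η (X + i) = true then 1 else 0

lemma locR_fH (X : ℤ) (r : ℕ) : LocR (X.natAbs + r) (fH X r) := fun η η' hs => by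
  classical
  exact if_congr (forall₂_congr fun i hi => by rw [hs _ (by omega)]) rfl rfl

lemma fH_cases (X : ℤ) (r : ℕ) (η : ℤ → Bool) :
    (fH X r η = 1 ∧ ∀ i : ℤ, i.natAbs ≤ r → η (X + i) = true) ∨
      (fH X r η = 0 ∧ ∃ i : ℤ, i.natAbs ≤ r ∧ η (X + i) = false) := by
  unfold fH
  split_ifs with h
  · exact Or.inl ⟨rfl, h⟩
  · push Not at h
    exact Or.inr ⟨rfl, h.imp fun i hi => ⟨hi.1, by simpa using hi.2⟩⟩

lemma fH_abs_le (X : ℤ) (r : ℕ) (η : ℤ → Bool) : |fH X r η| ≤ 1 := by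
  rcases fH_cases X r η with h | h <;> simp [h.1]

lemma fH_nonneg (X : ℤ) (r : ℕ) (η : ℤ → Bool) : 0 ≤ fH X r η := by
  rcases fH_cases X r η with h | h <;> simp [h.1]

lemma mu_persist {q : ℝ} (h0 : 0 < q) (h1 : q < 1) {θ c C : ℝ} {m0 : ℕ} (t1 : 1 ≤ θ) (C0 : 0 ≤ C)
    (H : ∀ (m : ℕ) [NeZero m], m0 ≤ m → ∀ x η t, 0 ≤ t →
      sg (LT q m) t (WL θ x) η ≤ C * (Real.exp (-c * t) * WL θ x η + 1))
    {ν : Measure (ℤ → Bool)} [IsProbabilityMeasure ν] {μ : ℝ → Measure (ℤ → Bool)}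
    (hμ : IsLaw q ν μ) {t : ℝ} (ht : 0 ≤ t) (X : ℤ) (r k : ℕ) :
    ∫ η, fH X r η ∂μ t ≤ ∫ η, fH 0 k η ∂ν +
      (θ ^ (r + 1))⁻¹ * (C * (Real.exp (-c * t) * θ ^ (X.natAbs + k) + 1)) := by
  refine le_of_tendsto (law_tendsto h0 h1 hμ (locR_fH X r).isLocal ht) ?_
  filter_upwards [eventually_ge_atTop (m0 + r + k)] with D hD
  set b := (θ ^ (r + 1))⁻¹ * (C * (Real.exp (-c * t) * θ ^ (X.natAbs + k) + 1)) with hb
  have b0 : 0 ≤ b := by positivity
  have e : ∫ η, fH 0 k η ∂ν + b = ∫ η, (fH 0 k η + b) ∂ν := by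
    rw [integral_add ((locR_fH 0 k).isLocal.integrable ν) (integrable_const b)]; simp
  rw [e]
  refine integral_mono ((locR_wrap _).isLocal.integrable ν)
    (((locR_fH 0 k).isLocal.integrable ν).add (integrable_const b)) fun η => ?_
  rcases fH_cases 0 k η with h | ⟨h, i, hi, hz⟩
  · have := (abs_le.1 (sg_abs_le (LT_pos (m := 2 * (D + 1)) h0 h1) (by rw [LT_one])
      (f := fun ζ => fH X r (lift ζ)) (fun _ => fH_abs_le _ _ _) ht (wrap _ η))).2
    simp only [h.1]; linarith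
  · have z : wrap (2 * (D + 1)) η (i : ZMod (2 * (D + 1))) = false := by
      rw [wrap_cast η (by omega), ← hz, zero_add]
    simp only [h, zero_add]
    refine (sg_far h0 h1 (by omega) (θ := θ) (X : ZMod (2 * (D + 1))) (j := r + 1)
      (fun ζ => ?_) ⟨_, z⟩ ht).trans (mul_le_mul_of_nonneg_left ?_ (by positivity))
    · rcases fH_cases X r (lift ζ) with h' | h'
      · rw [h'.1]
        refine far_le t1 _ ζ ?_
        by_contra hc
        obtain ⟨j, hj, h2⟩ := xi_spec (z := (X : ZMod (2 * (D + 1)))) (η := ζ) (by omega)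
        have := h'.2 j (by omega)
        rw [lift, Int.cast_add, h2] at this
        exact absurd this (by simp)
      · rw [h'.1]
        have : Zf ζ ≤ 1 := by unfold Zf; split_ifs <;> norm_num
        have := WL_nonneg (by linarith : 0 ≤ θ) (X : ZMod (2 * (D + 1))) ζ
        have : 0 ≤ (θ ^ (r + 1))⁻¹ * WL θ (X : ZMod (2 * (D + 1))) ζ := by positivity
        linarith
    · refine (H _ (by omega) _ _ t ht).trans ?_
      have x1 : xi (X : ZMod (2 * (D + 1))) (wrap _ η) ≤ (i - X).natAbs :=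
        xi_le_of (by rw [← z]; congr 1; push_cast; ring)
      have x2 := (WL_le (by linarith : 0 ≤ θ) (X : ZMod (2 * (D + 1))) (wrap _ η)).trans
        (pow_le_pow_right₀ t1 (x1.trans (show (i - X).natAbs ≤ X.natAbs + k by omega)))
      gcongr

lemma main_est (q : unitInterval) (h0 : (0 : ℝ) < q) (h1 : (q : ℝ) < 1) {k : ℕ} (hk1 : 1 ≤ k)
    (hk : 2 * (k + 1) * (1 - q : ℝ) ^ k ≤ 1 / 2) {θ cp C : ℝ} {m0 : ℕ} (t1 : 1 ≤ θ) (t2 : θ ≤ 2)
    (cp0 : 0 < cp) (C0 : 0 ≤ C)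
    (H : ∀ (m : ℕ) [NeZero m], m0 ≤ m → ∀ x η t, 0 ≤ t →
      sg (LT q m) t (WL θ x) η ≤ C * (Real.exp (-cp * t) * WL θ x η + 1))
    {ν : Measure (ℤ → Bool)} [IsProbabilityMeasure ν] {μ : ℝ → Measure (ℤ → Bool)}
    (hμ : IsLaw q ν μ) {f : (ℤ → Bool) → ℝ} {ρ : ℕ} {B : ℝ} (hρ : LocR ρ f) (hB : ∀ η, |f η| ≤ B)
    {J A r u n : ℕ} (hn : 4 * r + 1 + n = A * r) (hu : u = J * (A * r)) (hJ : 1 ≤ J)
    (hm0 : m0 ≤ u) (hρu : ρ ≤ u) (c : ℕ) {t : ℝ} (ht : u / 6 + 3 * u / cp ≤ t) :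
    |∫ η, f η ∂μ t -
      ∫ η, f η ∂(Measure.infinitePi fun _ : ℤ => bernoulliMeasure false true q)| ≤
      (4 * u : ℕ) * (Real.exp (4 * (u / 12 + u / 12)) * (2 * (2 * B) * 2 ^ ρ / 2 ^ (2 * u - 1))) *
        (u / 12 + u / 12) +
      (√((Real.exp (-(2 * (c / Gam q k)) * (u / 12)) / ps q ^ (4 * u) +
        4 ^ (4 * J) / ps q ^ (2 * c * n + 4 * J * (4 * r + 1))) *
        (Real.exp (-(2 / Gam q k) * (u / 12)) * (2 * B) ^ 2 +
          ((u * (Real.exp (4 * (u / 12)) * (2 * (2 * B) * 2 ^ ρ / 2 ^ u))) ^ 2 +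
            4 * (2 * B) ^ 2 * (1 - q) ^ u))) +
        c / Gam q k * (2 * B) * ((4 * J : ℕ) * (2 * C / θ ^ r)) * (u / 12)) +
      2 * B * ((4 * J : ℕ) * (∫ η, fH 0 r η ∂ν + (θ ^ (r + 1))⁻¹ * (C * 2))) := by
  have l1 : 1 ≤ A * r := by omega
  have lu : A * r ≤ u := by rw [hu]; exact Nat.le_mul_of_pos_left _ hJ
  have : NeZero (4 * u) := ⟨by omega⟩
  obtain ⟨N, hN⟩ : ∃ N, A * r = N + 1 := ⟨A * r - 1, by omega⟩
  have B0 : 0 ≤ B := (abs_nonneg _).trans (hB fun _ => true)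
  have hA := LT_pos (m := 4 * u) h0 h1
  have u0 : (0 : ℝ) ≤ u := Nat.cast_nonneg u
  have T0 : (0 : ℝ) ≤ u / 12 := by positivity
  set a := t - (u / 12 + u / 12) with ha
  have a1 : 3 * u / cp ≤ a := by linarith
  have a0 : 0 ≤ a := le_trans (by positivity) a1
  have := hμ.1 t (by linarith)
  have := hμ.1 a a0
  set e := ExT q (4 * u) (fun ζ => f (lift ζ)) with he
  have eb : |e| ≤ B := by
    have := (ExT_pos (m := 4 * u) h0 h1).abs_le (f := fun ζ => f (lift ζ)) (g := B • 1)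
      fun ζ => by simpa using hB _
    rwa [lin_smul, ExT_one, mul_one] at this
  set F : (ZMod (4 * u) → Bool) → ℝ := (fun ζ => f (lift ζ)) - e • 1 with hF
  have Fa : ∀ ζ, F ζ = f (lift ζ) - e := fun ζ => by simp [hF]
  have Fb : ∀ ζ, |F ζ| ≤ 2 * B := fun ζ => by
    rw [Fa]; exact (abs_sub _ _).trans (by linarith [hB (lift ζ)])
  have Fd : ∀ η η', (∀ y, dz y ≤ ρ → η y = η' y) → F η = F η' := fun η η' h => by
    rw [Fa, Fa, hρ.lift_dep η η' h]
  have Fm : ExT q (4 * u) F = 0 := by rw [hF, map_sub, lin_smul, ExT_one, mul_one, sub_self]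
  set x0 : ZMod (4 * u) := ((1 - 2 * u : ℤ) : ZMod (4 * u)) with hx0
  have lnc : ∀ b i : ℕ, ln x0 b i = ((1 - 2 * u + b + i : ℤ) : ZMod (4 * u)) := fun b i => by
    simp only [ln, hx0]; push_cast; ring
  have s1 := finite_speed h0 h1 hμ Fb Fd (D := 2 * u - 1) (by omega) a0 (add_nonneg T0 T0)
  rw [show a + (u / 12 + u / 12) = t by rw [ha]; ring] at s1
  have s2 := l2_decay h0 h1 hk1 hk (m := 4 * u) (by omega) (b := u) (n := 3 * u) (by omega) x0
    Fb Fd Fm (D := u) (fun i hi => by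
      rw [lnc, dz, valMinAbs_cast (by omega)]; omega) T0
  set X : ℕ → ℤ := fun j => 1 - 2 * u + (j * (N + 1) : ℕ) + (2 * r : ℕ) with hX
  have Xb : ∀ j < 4 * J, 2 * ((X j).natAbs + r) < 4 * u := fun j hj => by
    have : j * (N + 1) + (N + 1) ≤ 4 * u := by rw [hu, hN]; nlinarith
    have l2 : 4 * r + 1 ≤ N + 1 := by omega
    have l3 : 1 ≤ r := Nat.pos_of_ne_zero (by rintro rfl; simp at l1)
    simp only [hX]
    generalize j * (N + 1) = w at this ⊢
    clear hu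
    omega
  set R := √((Real.exp (-(2 * (c / Gam q k)) * (u / 12)) / ps q ^ (4 * u) +
        4 ^ (4 * J) / ps q ^ (2 * c * n + 4 * J * (4 * r + 1))) *
        (Real.exp (-(2 / Gam q k) * (u / 12)) * (2 * B) ^ 2 +
          ((u * (Real.exp (4 * (u / 12)) * (2 * (2 * B) * 2 ^ ρ / 2 ^ u))) ^ 2 +
            4 * (2 * B) ^ 2 * (1 - q) ^ u))) +
        c / Gam q k * (2 * B) * ((4 * J : ℕ) * (2 * C / θ ^ r)) * (u / 12) with hR
  have R0 : 0 ≤ R := by have := Gam_pos h0 h1 hk1; positivity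
  have s3 : ∀ η, |sg (LT q (4 * u)) (u / 12 + u / 12) F (wrap _ η)| ≤
      R + 2 * B * ∑ j ∈ range (4 * J), fH (X j) r η := fun η => by
    have n0 : 0 ≤ ∑ j ∈ range (4 * J), fH (X j) r η := sum_nonneg fun _ _ => fH_nonneg _ _ _
    by_cases hg : ∀ j < 4 * J, xi (ln x0 (j * (N + 1)) (2 * r)) (wrap (4 * u) η) ≤ r
    · have := relax_point h0 h1 hk1 hk (m := 4 * u) (by omega) (J := 4 * J) (r := r) (n := n)
        (N := N) (by omega) (by rw [hu, hN]; ring) x0 c T0 t1 C0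
        (fun x η t ht => (H _ (by omega) x η t ht).trans (by
          have := WL_nonneg (by linarith : 0 ≤ θ) x η
          have : Real.exp (-cp * t) ≤ 1 := Real.exp_le_one_iff.2 (by nlinarith)
          gcongr
          exact mul_le_of_le_one_left ‹_› ‹_›)) hg Fb s2
      nlinarith [mul_nonneg B0 n0]
    · push Not at hg
      obtain ⟨j, hj, hg⟩ := hg
      have b1 := sg_abs_le hA (by rw [LT_one]) Fb (add_nonneg T0 T0) (wrap _ η)
      have b2 : fH (X j) r η = 1 := by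
        rcases fH_cases (X j) r η with h | ⟨-, i, hi, hz⟩
        · exact h.1
        · have := Xb j hj
          have : xi (ln x0 (j * (N + 1)) (2 * r)) (wrap (4 * u) η) ≤ i.natAbs := xi_le_of (by
            rw [lnc, ← Int.cast_add, wrap_cast η (by simp only [hX] at this; omega)]; exact hz)
          omega
      have b3 := single_le_sum (f := fun j => fH (X j) r η) (fun _ _ => fH_nonneg _ _ _)
        (mem_range.2 hj)
      simp only [b2] at b3
      nlinarith [mul_le_mul_of_nonneg_left b3 B0]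
  have s4 : ∀ j ∈ range (4 * J), ∫ η, fH (X j) r η ∂μ a ≤
      ∫ η, fH 0 r η ∂ν + (θ ^ (r + 1))⁻¹ * (C * 2) := fun j hj => by
    refine (mu_persist h0 h1 t1 C0 H hμ a0 (X j) r r).trans ?_
    have x1 := Xb j (mem_range.1 hj)
    have x2 : θ ^ ((X j).natAbs + r) ≤ Real.exp (cp * a) := by
      have y1 : θ ≤ Real.exp 1 := by linarith [Real.add_one_le_exp 1]
      refine (pow_le_pow_left₀ (by linarith) y1 _).trans ?_
      rw [← Real.exp_nat_mul, mul_one, Real.exp_le_exp]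
      rw [div_le_iff₀' cp0] at a1
      have : (((X j).natAbs + r : ℕ) : ℝ) ≤ (3 * u : ℕ) := by exact_mod_cast (by omega)
      push_cast at this ⊢
      linarith
    have x3 : Real.exp (-cp * a) * θ ^ ((X j).natAbs + r) ≤ 1 := by
      refine (mul_le_mul_of_nonneg_left x2 (Real.exp_pos _).le).trans (le_of_eq ?_)
      rw [← Real.exp_add]; simp
    have : Real.exp (-cp * a) * θ ^ ((X j).natAbs + r) + 1 ≤ 2 := by linarith
    gcongr
  have s5 := sum_le_card_nsmul _ _ _ s4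
  rw [card_range, nsmul_eq_mul] at s5
  have i1 : ∀ j ∈ range (4 * J), Integrable (fH (X j) r) (μ a) := fun j _ =>
    (locR_fH _ _).isLocal.integrable _
  have s6 : |∫ η, sg (LT q (4 * u)) (u / 12 + u / 12) F (wrap _ η) ∂μ a| ≤
      R + 2 * B * ∑ j ∈ range (4 * J), ∫ η, fH (X j) r η ∂μ a := by
    refine abs_integral_le_integral_abs.trans ((integral_mono
      ((locR_wrap _).isLocal.integrable _).abs
      ((integrable_const R).add ((integrable_finsetSum _ i1).const_mul (2 * B))) s3).trans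
      (le_of_eq ?_))
    rw [integral_add' (integrable_const R) ((integrable_finsetSum _ i1).const_mul (2 * B)),
      integral_const_mul, integral_finsetSum _ i1]
    simp
  have s7 : ∫ η, F (wrap (4 * u) η) ∂μ t = ∫ η, f η ∂μ t - e := by
    simp only [Fa, hρ.lift_wrap (m := 4 * u) (by omega)]
    rw [integral_sub (hρ.isLocal.integrable _) (integrable_const e)]; simp
  rw [integral_pi_eq q hρ (m := 4 * u) (by omega), ← he, ← s7]
  have s8 := abs_sub_abs_le_abs_sub (∫ η, F (wrap (4 * u) η) ∂μ t)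
    (∫ η, sg (LT q (4 * u)) (u / 12 + u / 12) F (wrap _ η) ∂μ a)
  nlinarith [mul_le_mul_of_nonneg_left s5 B0]

end Pool.Agent.FA1f
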