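import Mathlib

/-! Resampling operators on Boolean configurations. -/

namespace Pool.Agent.FA1f

open Function Finset

section Cube

variable {I : Type*} [DecidableEq I]

/-- Resampling of one site. -/
def E (q : ℝ) (j : I) : Module.End ℝ ((I → Bool) → ℝ) where
  toFun f η := q * f (update η j false) + (1 - q) * f (update η j true)
  map_add' f g := by ext η; simp only [Pi.add_apply]; ring
  map_smul' c f := by ext η; simp only [Pi.smul_apply, smul_eq_mul, RingHom.id_apply]; ring

lemma E_apply (q : ℝ) (j : I) (f : (I → Bool) → ℝ) (η : I → Bool) :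
    E q j f η = q * f (update η j false) + (1 - q) * f (update η j true) := rfl

/-- Discrete gradient. -/
def grad (j : I) (f : (I → Bool) → ℝ) (η : I → Bool) : ℝ :=
  f (update η j true) - f (update η j false)

/-- Independence of a site. -/
def Ind (j : I) (f : (I → Bool) → ℝ) : Prop := ∀ η b, f (update η j b) = f η

/-- Indicator of an infected site. -/
def zr (j : I) (η : I → Bool) : ℝ := if η j then 0 else 1

omit [DecidableEq I] in
lemma zr_nonneg (j : I) (η : I → Bool) : 0 ≤ zr j η := by unfold zr; split_ifs <;> norm_num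

omit [DecidableEq I] in
lemma zr_le_one (j : I) (η : I → Bool) : zr j η ≤ 1 := by unfold zr; split_ifs <;> norm_num

omit [DecidableEq I] in
lemma zr_mul_self (j : I) (η : I → Bool) : zr j η * zr j η = zr j η := by
  unfold zr; split_ifs <;> norm_num

lemma Ind_zr {a j : I} (h : a ≠ j) : Ind a (zr j) := fun η b => by
  simp [zr, update_of_ne h.symm]

lemma Ind.mul {j : I} {f g : (I → Bool) → ℝ} (hf : Ind j f) (hg : Ind j g) : Ind j (f * g) :=
  fun η b => by simp [hf η b, hg η b]

lemma Ind.sub {j : I} {f g : (I → Bool) → ℝ} (hf : Ind j f) (hg : Ind j g) : Ind j (f - g) :=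
  fun η b => by simp [hf η b, hg η b]

lemma Ind_one (j : I) : Ind j (1 : (I → Bool) → ℝ) := fun _ _ => rfl

lemma Ind_E (q : ℝ) (j : I) (f : (I → Bool) → ℝ) : Ind j (E q j f) := fun η b => by
  simp [E_apply]

lemma Ind.E {a : I} {f : (I → Bool) → ℝ} (hf : Ind a f) (q : ℝ) (j : I) : Ind a (E q j f) := by
  by_cases h : a = j
  · subst h; exact Ind_E q a f
  · intro η b
    simp only [E_apply, update_comm h, hf _ b]

lemma Ind_grad (j : I) (f : (I → Bool) → ℝ) : Ind j (grad j f) := fun η b => by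
  simp [grad]

lemma Ind.grad {a : I} {f : (I → Bool) → ℝ} (hf : Ind a f) (j : I) : Ind a (grad j f) := by
  by_cases h : a = j
  · subst h; exact Ind_grad a f
  · intro η b
    simp only [FA1f.grad, update_comm h, hf _ b]

lemma Ind.grad_eq {a : I} {f : (I → Bool) → ℝ} (hf : Ind a f) : FA1f.grad a f = 0 := by
  ext η; simp [FA1f.grad, hf η]

lemma Ind.E_mul {j : I} {w : (I → Bool) → ℝ} (hw : Ind j w) (q : ℝ) (f : (I → Bool) → ℝ) :
    FA1f.E q j (w * f) = w * FA1f.E q j f := by
  ext η; simp only [E_apply, Pi.mul_apply, hw η]; ring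

lemma Ind.E_eq {j : I} {w : (I → Bool) → ℝ} (hw : Ind j w) (q : ℝ) : FA1f.E q j w = w := by
  ext η; simp only [E_apply, hw η]; ring

lemma E_comm (q : ℝ) (a b : I) : Commute (E q a) (E q b) := by
  by_cases h : a = b
  · subst h; exact Commute.refl _
  · refine LinearMap.ext fun f => funext fun η => ?_
    simp only [Module.End.mul_apply, E_apply, update_comm h]; ring

lemma E_idem (q : ℝ) (a : I) : E q a * E q a = E q a :=
  LinearMap.ext fun f => (Ind_E q a f).E_eq q

lemma grad_E {a b : I} (h : a ≠ b) (q : ℝ) (f : (I → Bool) → ℝ) :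
    grad a (E q b f) = E q b (grad a f) := by
  ext η; simp only [grad, E_apply, update_comm h]; ring

lemma grad_sub (a : I) (f g : (I → Bool) → ℝ) : grad a (f - g) = grad a f - grad a g := by
  ext η; simp only [grad, Pi.sub_apply]; ring

/-- The smaller of the two one-site weights. -/
noncomputable def ps (q : ℝ) : ℝ := min q (1 - q)

variable {q : ℝ}

lemma ps_pos (h0 : 0 < q) (h1 : q < 1) : 0 < ps q := lt_min h0 (by linarith)
lemma ps_le (q : ℝ) : ps q ≤ q := min_le_left _ _
lemma ps_le' (q : ℝ) : ps q ≤ 1 - q := min_le_right _ _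
lemma ps_le_one (q : ℝ) : ps q ≤ 1 := by have := ps_le q; have := ps_le' q; linarith

lemma E_nonneg (h0 : 0 < q) (h1 : q < 1) (j : I) {f : (I → Bool) → ℝ} (hf : 0 ≤ f) :
    0 ≤ E q j f := fun η => by
  have := hf (update η j false)
  have := hf (update η j true)
  have : 0 < 1 - q := by linarith
  simp only [E_apply, Pi.zero_apply] at *
  positivity

lemma E_lower (h0 : 0 < q) (h1 : q < 1) (j : I) {f : (I → Bool) → ℝ} (hf : 0 ≤ f)
    (η : I → Bool) : ps q * f η ≤ E q j f η := by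
  have a0 : 0 ≤ f (update η j false) := hf _
  have a1 : 0 ≤ f (update η j true) := hf _
  have b0 := ps_le q
  have b1 := ps_le' q
  rw [E_apply]
  cases hη : η j
  · have : update η j false = η := by rw [← hη]; exact update_eq_self j η
    rw [this] at a0 ⊢; nlinarith
  · have : update η j true = η := by rw [← hη]; exact update_eq_self j η
    rw [this] at a1 ⊢; nlinarith

/-- Resampling of a list of sites. -/
def EL (q : ℝ) (l : List I) : Module.End ℝ ((I → Bool) → ℝ) := (l.map (E q)).prod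

@[simp] lemma EL_nil : EL q ([] : List I) = 1 := rfl
lemma EL_cons (a : I) (l : List I) : EL q (a :: l) = E q a * EL q l := by simp [EL]
lemma EL_append (l l' : List I) : EL q (l ++ l') = EL q l * EL q l' := by simp [EL]
lemma EL_single (a : I) : EL q [a] = E q a := by simp [EL]

lemma E_comm_EL (a : I) (l : List I) : Commute (E q a) (EL q l) :=
  Commute.list_prod_right _ _ fun x hx => by
    obtain ⟨b, -, rfl⟩ := List.mem_map.1 hx; exact E_comm q a b

lemma EL_comm (l l' : List I) : Commute (EL q l) (EL q l') :=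
  Commute.list_prod_left _ _ fun x hx => by
    obtain ⟨b, -, rfl⟩ := List.mem_map.1 hx; exact E_comm_EL b l'

lemma Ind.EL {a : I} {f : (I → Bool) → ℝ} (hf : Ind a f) (l : List I) : Ind a (EL q l f) := by
  induction l with
  | nil => exact hf
  | cons b l ih => rw [EL_cons]; exact ih.E q b

lemma Ind_EL {a : I} {l : List I} (ha : a ∈ l) (f : (I → Bool) → ℝ) : Ind a (EL q l f) := by
  induction l with
  | nil => simp at ha
  | cons b l ih =>
    rw [EL_cons]
    rcases List.mem_cons.1 ha with rfl | h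
    · exact Ind_E q a _
    · exact (ih h).E q b

lemma EL_mul {l : List I} {w : (I → Bool) → ℝ} (hw : ∀ a ∈ l, Ind a w) (f : (I → Bool) → ℝ) :
    EL q l (w * f) = w * EL q l f := by
  induction l with
  | nil => rfl
  | cons b l ih =>
    rw [EL_cons, Module.End.mul_apply, Module.End.mul_apply,
      ih fun a ha => hw a (List.mem_cons_of_mem _ ha), (hw b List.mem_cons_self).E_mul]

lemma EL_one (l : List I) : EL q l (1 : (I → Bool) → ℝ) = 1 := by
  induction l with
  | nil => rfl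
  | cons b l ih => rw [EL_cons, Module.End.mul_apply, ih, (Ind_one b).E_eq]

lemma EL_eq {l : List I} {w : (I → Bool) → ℝ} (hw : ∀ a ∈ l, Ind a w) : EL q l w = w := by
  have := EL_mul (q := q) hw 1
  rwa [mul_one, EL_one, mul_one] at this

lemma EL_absorb {l l' : List I} (h : ∀ a ∈ l, a ∈ l') : EL q l * EL q l' = EL q l' :=
  LinearMap.ext fun f => EL_eq fun a ha => Ind_EL (h a ha) f

lemma EL_absorb' {l l' : List I} (h : ∀ a ∈ l, a ∈ l') : EL q l' * EL q l = EL q l' := by
  rw [(EL_comm l' l).eq, EL_absorb h]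

lemma grad_EL {a : I} {l : List I} (h : a ∉ l) (f : (I → Bool) → ℝ) :
    grad a (EL q l f) = EL q l (grad a f) := by
  induction l with
  | nil => rfl
  | cons b l ih =>
    rw [List.mem_cons, not_or] at h
    rw [EL_cons, Module.End.mul_apply, Module.End.mul_apply, grad_E h.1, ih h.2]

lemma EL_nonneg (h0 : 0 < q) (h1 : q < 1) (l : List I) {f : (I → Bool) → ℝ} (hf : 0 ≤ f) :
    0 ≤ EL q l f := by
  induction l with
  | nil => exact hf
  | cons b l ih => rw [EL_cons]; exact E_nonneg h0 h1 b ih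

lemma EL_mono (h0 : 0 < q) (h1 : q < 1) (l : List I) {f g : (I → Bool) → ℝ} (h : f ≤ g) :
    EL q l f ≤ EL q l g := by
  have := EL_nonneg h0 h1 l (sub_nonneg.2 h)
  rw [map_sub] at this
  exact sub_nonneg.1 this

lemma EL_lower (h0 : 0 < q) (h1 : q < 1) (l : List I) {f : (I → Bool) → ℝ} (hf : 0 ≤ f)
    (η : I → Bool) : ps q ^ l.length * f η ≤ EL q l f η := by
  induction l with
  | nil => simp
  | cons b l ih =>
    rw [EL_cons, List.length_cons, pow_succ', mul_assoc]
    exact (mul_le_mul_of_nonneg_left ih (ps_pos h0 h1).le).trans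
      (E_lower h0 h1 b (EL_nonneg h0 h1 l hf) η)

lemma EL_abs_le (h0 : 0 < q) (h1 : q < 1) (l : List I) {f : (I → Bool) → ℝ} {b : ℝ}
    (hf : ∀ η, |f η| ≤ b) (η : I → Bool) : |EL q l f η| ≤ b := by
  have u1 := EL_mono h0 h1 l (f := f) (g := b • 1) (fun y => by simpa using (abs_le.1 (hf y)).2) η
  have u2 := EL_mono h0 h1 l (f := -f) (g := b • 1)
    (fun y => by have := (abs_le.1 (hf y)).1; simp; linarith) η
  rw [map_smul, EL_one] at u1 u2
  rw [map_neg] at u2
  simp only [Pi.smul_apply, Pi.one_apply, smul_eq_mul, mul_one, Pi.neg_apply] at u1 u2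
  rw [abs_le]; constructor <;> linarith

lemma EL_osc (h0 : 0 < q) (h1 : q < 1) (l : List I) {u : (I → Bool) → ℝ} {ε : ℝ}
    (hu : ∀ a ∈ l, ∀ η b, |u (update η a b) - u η| ≤ ε) (η : I → Bool) :
    |EL q l u η - u η| ≤ l.length * ε := by
  induction l generalizing η with
  | nil => simp
  | cons a l ih =>
    have i0 := ih (fun b hb => hu b (List.mem_cons_of_mem _ hb)) (update η a false)
    have i1 := ih (fun b hb => hu b (List.mem_cons_of_mem _ hb)) (update η a true)
    have j0 := hu a List.mem_cons_self η false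
    have j1 := hu a List.mem_cons_self η true
    rw [EL_cons, Module.End.mul_apply, E_apply, List.length_cons]
    push_cast
    rw [abs_le] at *
    constructor <;> nlinarith [i0.1, i0.2, i1.1, i1.2, j0.1, j0.2, j1.1, j1.2]

lemma Ind_agree {f : (I → Bool) → ℝ} (s : Finset I) (hf : ∀ a ∈ s, Ind a f) :
    ∀ η η' : I → Bool, (∀ i ∉ s, η i = η' i) → f η = f η' := by
  induction s using Finset.induction_on with
  | empty => intro η η' h; rw [funext fun i => h i (by simp)]
  | insert a s ha ih =>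
    intro η η' h
    rw [← hf a (mem_insert_self _ _) η (η' a)]
    refine ih (fun b hb => hf b (mem_insert_of_mem hb)) _ _ fun i hi => ?_
    by_cases hia : i = a
    · subst hia; simp
    · rw [update_of_ne hia]; exact h i (by simp [hia, hi])

/-! ### Positive functionals -/

lemma lin_smul {X : Type*} (Ex : (X → ℝ) →ₗ[ℝ] ℝ) (c : ℝ) (f : X → ℝ) :
    Ex (c • f) = c * Ex f := by rw [map_smul, smul_eq_mul]

/-- A positive functional. -/
def Pos {X : Type*} (Ex : (X → ℝ) →ₗ[ℝ] ℝ) : Prop := ∀ f, 0 ≤ f → 0 ≤ Ex f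

lemma Pos.mono {X : Type*} {Ex : (X → ℝ) →ₗ[ℝ] ℝ} (h : Pos Ex) {f g : X → ℝ}
    (hfg : ∀ x, f x ≤ g x) : Ex f ≤ Ex g := by
  have := h (g - f) (sub_nonneg.2 hfg)
  rw [map_sub] at this; linarith

lemma Pos.sq_nonneg {X : Type*} {Ex : (X → ℝ) →ₗ[ℝ] ℝ} (h : Pos Ex) (f : X → ℝ) :
    0 ≤ Ex (f * f) := h _ fun x => mul_self_nonneg (f x)

lemma Pos.cs {X : Type*} {Ex : (X → ℝ) →ₗ[ℝ] ℝ} (h : Pos Ex) (f g : X → ℝ) :
    Ex (f * g) ^ 2 ≤ Ex (f * f) * Ex (g * g) := by
  have := discrim_le_zero (a := Ex (f * f)) (b := 2 * Ex (f * g)) (c := Ex (g * g)) fun t => by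
    have h2 := h.sq_nonneg (t • f + g)
    have e : (t • f + g) * (t • f + g) = (t * t) • (f * f) + (2 * t) • (f * g) + g * g := by
      ext x; simp only [Pi.mul_apply, Pi.add_apply, Pi.smul_apply, smul_eq_mul]; ring
    rw [e, map_add, map_add, map_smul, map_smul, smul_eq_mul, smul_eq_mul] at h2
    linarith
  unfold discrim at this
  nlinarith

lemma Pos.abs_le {X : Type*} {Ex : (X → ℝ) →ₗ[ℝ] ℝ} (h : Pos Ex) {f g : X → ℝ}
    (hfg : ∀ x, |f x| ≤ g x) : |Ex f| ≤ Ex g := by
  have u1 := h.mono (f := f) (g := g) fun x => (_root_.abs_le.1 (hfg x)).2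
  have u2 := h.mono (f := -f) (g := g) fun x => by
    have := (_root_.abs_le.1 (hfg x)).1; simp; linarith
  rw [map_neg] at u2
  rw [_root_.abs_le]; constructor <;> linarith

lemma EL_cs (h0 : 0 < q) (h1 : q < 1) (l : List I) (f g : (I → Bool) → ℝ) (η : I → Bool) :
    EL q l (f * g) η ^ 2 ≤ EL q l (f * f) η * EL q l (g * g) η :=
  Pos.cs (Ex := (LinearMap.proj η).comp (EL q l)) (fun _ hf => EL_nonneg h0 h1 l hf η) f g

/-- Invariance of a functional under resampling a site. -/
def Inv (q : ℝ) (Ex : ((I → Bool) → ℝ) →ₗ[ℝ] ℝ) (j : I) : Prop := ∀ f, Ex (E q j f) = Ex f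

variable {Ex : ((I → Bool) → ℝ) →ₗ[ℝ] ℝ}

lemma Ex_EL {l : List I} (h : ∀ a ∈ l, Inv q Ex a) (f : (I → Bool) → ℝ) :
    Ex (EL q l f) = Ex f := by
  induction l with
  | nil => rfl
  | cons b l ih =>
    rw [EL_cons, Module.End.mul_apply, h b List.mem_cons_self,
      ih fun a ha => h a (List.mem_cons_of_mem _ ha)]

lemma EL_selfadj {l : List I} (h : ∀ a ∈ l, Inv q Ex a) (f g : (I → Bool) → ℝ) :
    Ex (EL q l f * g) = Ex (f * EL q l g) := by
  rw [← Ex_EL h (EL q l f * g), EL_mul fun a ha => Ind_EL ha f, ← Ex_EL h (f * EL q l g),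
    mul_comm f, EL_mul fun a ha => Ind_EL ha g, mul_comm]

lemma Inv.selfadj {j : I} (h : Inv q Ex j) (f g : (I → Bool) → ℝ) :
    Ex (E q j f * g) = Ex (f * E q j g) := by
  have := EL_selfadj (q := q) (Ex := Ex) (l := [j]) (by simpa using h) f g
  rwa [EL_single] at this

lemma Inv.zr {j : I} (h : Inv q Ex j) (f : (I → Bool) → ℝ) :
    Ex (zr j * f) = q * Ex (fun η => f (update η j false)) := by
  rw [← h, ← lin_smul]
  congr 1; ext η; simp [E_apply, FA1f.zr]

lemma Inv.nzr {j : I} (h : Inv q Ex j) (f : (I → Bool) → ℝ) :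
    Ex ((1 - FA1f.zr j) * f) = (1 - q) * Ex (fun η => f (update η j true)) := by
  rw [← h, ← lin_smul]
  congr 1; ext η; simp [E_apply, FA1f.zr]

lemma Inv.dirichlet {j : I} (h : Inv q Ex j) {c : (I → Bool) → ℝ} (hc : Ind j c)
    (f g : (I → Bool) → ℝ) :
    Ex (g * (c * (E q j f - f))) = -(q * (1 - q)) * Ex (c * (grad j f * grad j g)) := by
  rw [← h, ← lin_smul]
  congr 1; ext η
  simp only [E_apply, Pi.mul_apply, Pi.sub_apply, hc η, update_idem, Pi.smul_apply, grad,
    smul_eq_mul]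
  ring

lemma Inv.var {j : I} (h : Inv q Ex j) (f : (I → Bool) → ℝ) :
    Ex ((f - E q j f) * (f - E q j f)) = (q * (1 - q)) * Ex (grad j f * grad j f) := by
  rw [← h, ← lin_smul]
  congr 1; ext η
  simp only [E_apply, Pi.mul_apply, Pi.sub_apply, update_idem, Pi.smul_apply, grad,
    smul_eq_mul]
  ring

/-- A self-adjoint idempotent. -/
def Proj {X : Type*} (Ex : (X → ℝ) →ₗ[ℝ] ℝ) (Q : Module.End ℝ (X → ℝ)) : Prop :=
  Q * Q = Q ∧ ∀ f g, Ex (Q f * g) = Ex (f * Q g)

lemma Proj_EL {l : List I} (h : ∀ a ∈ l, Inv q Ex a) : Proj Ex (EL q l) :=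
  ⟨EL_absorb fun _ ha => ha, EL_selfadj h⟩

lemma Proj.orth {X : Type*} {Ex : (X → ℝ) →ₗ[ℝ] ℝ} {Q : Module.End ℝ (X → ℝ)} (h : Proj Ex Q)
    (f : X → ℝ) : Ex (Q f * (f - Q f)) = 0 := by
  rw [h.2, map_sub, ← Module.End.mul_apply Q Q, h.1, sub_self, mul_zero, map_zero]

lemma Proj.pyth {X : Type*} {Ex : (X → ℝ) →ₗ[ℝ] ℝ} {Q : Module.End ℝ (X → ℝ)} (h : Proj Ex Q)
    (f : X → ℝ) (θ : ℝ) : Ex ((Q f + θ • (f - Q f)) * (Q f + θ • (f - Q f))) =
      Ex (Q f * Q f) + θ ^ 2 * Ex ((f - Q f) * (f - Q f)) := by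
  have e : (Q f + θ • (f - Q f)) * (Q f + θ • (f - Q f)) =
      Q f * Q f + (2 * θ) • (Q f * (f - Q f)) + θ ^ 2 • ((f - Q f) * (f - Q f)) := by
    ext x; simp only [Pi.mul_apply, Pi.add_apply, Pi.smul_apply, smul_eq_mul]; ring
  rw [e, map_add, map_add, map_smul, map_smul, h.orth]; simp

lemma Proj.sub_sq {X : Type*} {Ex : (X → ℝ) →ₗ[ℝ] ℝ} {Q : Module.End ℝ (X → ℝ)} (h : Proj Ex Q)
    (f : X → ℝ) : Ex ((f - Q f) * (f - Q f)) = Ex (f * f) - Ex (Q f * Q f) := by
  have := h.pyth f 1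
  simp only [one_smul, add_sub_cancel, one_pow, one_mul] at this
  linarith

end Cube

end Pool.Agent.FA1f
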