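import Mathlib

/-! The FA-1f model on the integers: `true` is healthy (1), `false` is infected (0). -/

namespace Pool.Agent.FA1f

open MeasureTheory

/-- The generator: a site with an infected neighbour flips from healthy to infected at rate `q`
and from infected to healthy at rate `1 - q`. -/
noncomputable def gen (q : ℝ) (f : (ℤ → Bool) → ℝ) (η : ℤ → Bool) : ℝ :=
  ∑ᶠ x : ℤ, if η (x - 1) = false ∨ η (x + 1) = false then
    (if η x = true then q else 1 - q) * (f (Function.update η x (!η x)) - f η) else 0

/-- A function of finitely many coordinates. -/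
def IsLocal (f : (ℤ → Bool) → ℝ) : Prop := ∃ s : Finset ℤ, DependsOn f (s : Set ℤ)

/-- `μ t`, `t ≥ 0`, are the laws at time `t` of the process started from `ν`: probability measures
with `μ 0 = ν` that solve the forward equation for every local function. -/
def IsLaw (q : ℝ) (ν : Measure (ℤ → Bool)) (μ : ℝ → Measure (ℤ → Bool)) : Prop :=
  (∀ t, 0 ≤ t → IsProbabilityMeasure (μ t)) ∧ μ 0 = ν ∧
    ∀ f, IsLocal f → ∀ t, 0 ≤ t →
      HasDerivWithinAt (fun s => ∫ η, f η ∂μ s) (∫ η, gen q f η ∂μ t) (Set.Ici 0) t

end Pool.Agent.FA1f
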