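import Pool.Agent.Lib.MP_be561b_pr.Entropy

/-! Positive drift of the front under approximately stationary laws. -/

namespace Pool.Agent.FA1f

open Function Finset Real

section Drift

variable {q : ℝ} {N : ℕ} {g : (ℕ → Bool) → ℝ}

lemma top_bound (h0 : 0 < q) (h1 : q < 1) {l : ℕ} {g : (ℕ → Bool) → ℝ} (hd : Dep (l + 1 + 1) g)
    (hg : ∀ σ, 0 < g σ) (hone : ExN q (l + 1 + 1) g = 1)
    (hs : -1 ≤ ExN q (l + 1 + 1) (g * LF q (l + 1) (fun σ => log (gL q (l + 1 + 1) g (l + 1) σ)))) :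
    q * (1 - q) * ∑ j ∈ range l, DD q (l + 1) g (cF j) j (l + 1) ≤
      2 + 4 / ps q + -log (1 - q) + 2 / q := by
  have hp : 0 < 1 - q := by linarith
  have hP : Pos (ExN q (l + 1 + 1)) := ExN_pos h0 h1
  have lb : 0 ≤ -log (1 - q) := neg_nonneg.2 (log_nonpos hp.le (by linarith))
  have s1 := level h0 h1 hd hg hone (l := l) le_rfl one_pos
  have s2 : ∑ j ∈ range l, DD q (l + 1) g (cF j) j (l + 1) ≤
      ∑ j ∈ range l, ExN q (l + 1 + 1) (cF j * (grad j (fun σ => log (gL q (l + 1 + 1) g (l + 1) σ)) *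
        grad j (gL q (l + 1 + 1) g (l + 1)))) :=
    sum_le_sum fun j _ => hP.mono fun σ => mul_le_mul_of_nonneg_left
      (prod_ge (gL_pos h0 h1 hg _ _) (gL_pos h0 h1 hg _ _)) (cF_nonneg j σ)
  have s3 := DD_le h0 h1 hg hone (cF_le_one l) (j := l) (by omega) (l + 2)
  have ea : ExN q (l + 1 + 1) (gL q (l + 1 + 1) g l) = 1 := by
    have := ExN_gL (q := q) (n := l + 1 + 1) g (Dep_one l)
    rw [mul_one, mul_one] at this; rw [← this, hone]
  have eb : q * ExN q (l + 1 + 1) (fun σ => gL q (l + 1 + 1) g (l + 1) (cns false σ)) ≤ 1 := by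
    rw [← ExN_zr ((gL_dep hd (L := l + 1) (by omega)).mono (by omega)), mul_comm,
      ← ExN_gL g (Dep_zr (by omega)), ← hone]
    exact hP.mono fun σ => mul_le_of_le_one_right (hg σ).le (zr_le_one _ _)
  have s4 : ExN q (l + 1 + 1) (TmF q (l + 1) g l) ≤
      -log (1 - q) * ExN q (l + 1 + 1) (gL q (l + 1 + 1) g l) +
      2 * ExN q (l + 1 + 1) (fun σ => gL q (l + 1 + 1) g (l + 1) (cns false σ)) := by
    rw [← lin_smul, ← lin_smul, ← map_add]
    refine hP.mono fun σ => ?_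
    have a0 := gL_pos (n := l + 1 + 1) h0 h1 hg (l + 1) (update σ l false)
    have a1 := gL_pos (n := l + 1 + 1) h0 h1 hg (l + 1) (update σ l true)
    have c0 := gL_pos (n := l + 1 + 1) h0 h1 hg (l + 2) (cns false (update σ l false))
    have c1 := gL_pos (n := l + 1 + 1) h0 h1 hg (l + 2) (cns false (update σ l true))
    refine (Tm_le_one h0 h1 a0 a1 c0 c1).trans ?_
    simp only [Pi.add_apply, Pi.smul_apply, smul_eq_mul, gL_a le_rfl σ, gL_b le_rfl σ]
    have t := mul_le_mul_of_nonneg_left (sqrt_sub_sq_le c1.le c0.le) (mul_pos h0 hp).le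
    nlinarith [mul_pos (mul_pos h0 h0) c0, mul_pos (mul_pos hp hp) c1,
      mul_nonneg (mul_nonneg lb hp.le) (add_pos (mul_pos h0 a0) (mul_pos hp a1)).le,
      mul_nonneg (mul_nonneg lb (mul_pos h0 hp).le) (add_pos (mul_pos h0 c0) (mul_pos hp c1)).le]
  have s5 : ExN q (l + 1 + 1) (fun σ => gL q (l + 1 + 1) g (l + 1) (cns false σ)) ≤ 1 / q := by
    rw [le_div_iff₀ h0, mul_comm]; exact eb
  have s6 : 0 < 4 / (1 * ps q) := by have := ps_pos h0 h1; positivity
  have s7 := mul_le_mul_of_nonneg_left s3 s6.le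
  have s8 := mul_le_mul_of_nonneg_left s2 (mul_pos h0 hp).le
  rw [ea] at s4
  rw [one_mul] at s1 s7
  have : 2 / q = 2 * (1 / q) := by ring
  linarith

lemma combine_zero {q β G0 G1 ψ χ : ℝ} (h0 : 0 < q) (h1 : q < 1) (a0 : 0 < G0) (a1 : 0 < G1)
    (lb : 0 ≤ β) (t1 : β * q ^ 3 / 2 * (q * G0 + (1 - q) * G1) ≤
      (1 - q / 2) * (q * (1 - q) * ψ) + β * (q * (q * G0 + (1 - q) * G1) - (1 - q) * (q * G0)))
    (t2 : 0 ≤ ψ) (hχ : χ = 1 ∨ χ = 0) :
    β * q ^ 4 / 4 * (q * G0 + (1 - q) * G1) ≤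
      β * (q * (G0 * (q * 1 - (1 - q) * 1)) + (1 - q) * (G1 * (q * 1 - (1 - q) * 0))) +
      (1 - q / 2) * (q * (1 - q) * ψ - β * ((1 - χ) *
        (q * (G0 * (q * 1 - (1 - q) * 1)) + (1 - q) * (G1 * (q * 1 - (1 - q) * 0))))) := by
  have hp : 0 < 1 - q := by linarith
  have hl2 : 0 ≤ 1 - q / 2 := by linarith
  have hm : 0 ≤ (1 - q / 2) * (β * q ^ 3 / 2 * (q * G0 + (1 - q) * G1)) := by positivity
  have t3 : 0 ≤ (1 - q / 2) * (1 - q / 2) * (q * (1 - q) * ψ) := by positivity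
  rcases hχ with rfl | rfl
  · linarith
  · linarith [mul_le_mul_of_nonneg_left t1 h0.le]

lemma local_bound (h0 : 0 < q) (h1 : q < 1) (hd : Dep (N + 1) g) (hg : ∀ σ, 0 < g σ)
    (hone : ExN q (N + 1) g = 1) {a k k0 : ℕ} (ha : 1 ≤ a) (hk : k ≤ k0) (hN : a + k + 2 ≤ N)
    {δ ε W : ℝ} (d0 : 0 < δ) (d1 : δ ≤ 1) (e0 : 0 ≤ ε)
    (hs : -ε ≤ ExN q (N + 1) (g * LF q N (fun σ => log (gL q (N + 1) g (a + k + 1) σ))))
    (hW : ∀ j, a ≤ j → j ≤ a + k + 1 → DD q N g (cF j) j N ≤ W) :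
    -log (1 - q) * q ^ 4 / 4 - (ε + 2 * δ + (4 / (δ * ps q) + 2 * k0 ^ 2 * (3 / ps q) ^ k0) * W +
      (-log (1 - q) - log δ - log q) *
        ((ExN q (N + 1) (g * allH id a k) - ExN q (N + 1) (g * allH id a (k + 1))) +
        (ExN q (N + 1) (g * allH id (a + 1) k) - ExN q (N + 1) (g * allH id (a + 1) (k + 1)))) +
      -log (1 - q) * (ExN q (N + 1) (g * allH id (a + 1) k) -
        ExN q (N + 1) (g * allH id a (k + 1)))) ≤ -log (1 - q) * ExN q (N + 1) (g * vF q) := by
  set l := a + k with hl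
  set Ex := ExN q (N + 1) with hEx
  set β := -log (1 - q) with hβ
  set C' := β - log δ - log q with hC'
  set χ := allH id a k with hχ
  set χs := allH id (a + 1) k with hχs
  have hp : 0 < 1 - q := by linarith
  have hP : Pos Ex := ExN_pos h0 h1
  have lb : 0 ≤ β := neg_nonneg.2 (log_nonpos hp.le (by linarith))
  have lC : 0 ≤ C' := by
    have := log_nonpos d0.le d1
    have := log_nonpos h0.le h1.le
    linarith
  have pp := ps_pos h0 h1
  have hC := one_le_C h0 h1
  have dχ : Dep l χ := Dep_allH le_rfl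
  have dχs : Dep (l + 1) χs := Dep_allH (by omega)
  have dG : ∀ L ≤ N + 1, Dep L (gL q (N + 1) g L) := fun L hL => gL_dep hd hL
  have W0 : 0 ≤ W := (DD_nonneg h0 h1 (cF_nonneg a) _ _).trans (hW a le_rfl (by omega))
  have qp1 : q * (1 - q) ≤ 1 := by nlinarith
  -- the level inequality
  have s1 := level h0 h1 hd hg hone (l := l) (by omega) d0
  set Ψ := Ex (grad 0 (fun σ => log (gL q (N + 1) g (l + 1) σ)) * grad 0 (gL q (N + 1) g (l + 1)))
    with hΨ
  have s2 : Ψ ≤ ∑ j ∈ range l, Ex (cF j *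
      (grad j (fun σ => log (gL q (N + 1) g (l + 1) σ)) * grad j (gL q (N + 1) g (l + 1)))) := by
    have := single_le_sum (s := range l) (f := fun j => Ex (cF j *
      (grad j (fun σ => log (gL q (N + 1) g (l + 1) σ)) * grad j (gL q (N + 1) g (l + 1)))))
      (fun j _ => hP _ fun σ => mul_nonneg (cF_nonneg j σ) ((mul_self_nonneg _).trans
        (prod_ge (gL_pos h0 h1 hg _ _) (gL_pos h0 h1 hg _ _)))) (mem_range.2 (show 0 < l by omega))
    simpa [cF_zero] using this
  have s3 : 4 / (δ * ps q) * (q * (1 - q) * DD q N g (cF l) l (l + 2)) ≤ 4 / (δ * ps q) * W := by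
    refine mul_le_mul_of_nonneg_left ?_ (by positivity)
    have := (DD_mono h0 h1 hg (cF_nonneg l) (Dep_cF l) (by omega) (M := N) (by omega)
      (by omega)).trans (hW l (by omega) (by omega))
    nlinarith [DD_nonneg (N := N) (g := g) h0 h1 (cF_nonneg l) l (l + 2)]
  -- the front term
  set Cs : (ℕ → Bool) → ℝ := grad (l + 1) (fun σ => √(gL q (N + 1) g (l + 2) σ)) *
    grad (l + 1) (fun σ => √(gL q (N + 1) g (l + 2) σ)) with hCs
  have dCs : Dep (l + 2) Cs :=
    (((dG (l + 2) (by omega)).comp sqrt).grad _).mul (((dG (l + 2) (by omega)).comp sqrt).grad _)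
  have s4 : Ex (TmF q N g l) ≤ δ * Ex (gL q (N + 1) g l * χ) +
      C' * (q * Ex (fun σ => (χ * gL q (N + 1) g (l + 1) : (ℕ → Bool) → ℝ) (update σ l false)) +
        q * (q * Ex (fun σ => (χ * fun τ => gL q (N + 1) g (l + 2) (cns false τ) :
          (ℕ → Bool) → ℝ) (update σ l false)))) +
      β * q * Ex (gL q (N + 1) g l * (1 - χ)) -
      β * (1 - q) * (q * Ex (fun σ => (gL q (N + 1) g (l + 1) * (1 - χs) :
          (ℕ → Bool) → ℝ) (cns false σ))) +
      2 * (1 - q) * (q * Ex (fun σ => ((1 - χs) * Cs : (ℕ → Bool) → ℝ) (cns false σ))) := by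
    simp only [← lin_smul, ← map_add, ← map_sub]
    refine hP.mono fun σ => ?_
    have a0 := gL_pos (n := N + 1) h0 h1 hg (l + 1) (update σ l false)
    have a1 := gL_pos (n := N + 1) h0 h1 hg (l + 1) (update σ l true)
    have c0 := gL_pos (n := N + 1) h0 h1 hg (l + 2) (cns false (update σ l false))
    have c1 := gL_pos (n := N + 1) h0 h1 hg (l + 2) (cns false (update σ l true))
    have t1 := Tm_le_one h0 h1 a0 a1 c0 c1
    have t2 := Tm_le_two h0 h1 a0 a1 c0 c1 d0 d1
    simp only [Pi.add_apply, Pi.sub_apply, Pi.mul_apply, Pi.smul_apply, smul_eq_mul, Pi.one_apply,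
      gL_a (show l + 1 ≤ N by omega) σ, gL_b (show l + 1 ≤ N by omega) σ, hχs, allH_cns,
      dχ.ind le_rfl σ, hCs, grad, update_cns, TmF]
    rcases allH_cases id a k σ with h | h
    · rw [hχ, h.1]; linarith
    · rw [hχ, h.1]; linarith
  have u1 : Ex (gL q (N + 1) g l * χ) ≤ 1 := by
    rw [← ExN_gL g dχ, ← hone]
    exact hP.mono fun σ => mul_le_of_le_one_right (hg σ).le (allH_le_one _ _ _ _)
  have hIl : Inv q Ex l := ExN_inv (by omega)
  have u2 : q * Ex (fun σ => (χ * gL q (N + 1) g (l + 1) : (ℕ → Bool) → ℝ) (update σ l false)) =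
      Ex (g * χ) - Ex (g * allH id a (k + 1)) := by
    rw [← hIl.zr, ← map_sub, ← mul_sub, ExN_gL g (L := l + 1)
      ((dχ.mono (by omega)).sub (Dep_allH (by omega))), allH_succ]
    congr 1; simp only [id]; ring
  have u3 : q * (q * Ex (fun σ => (χ * fun τ => gL q (N + 1) g (l + 2) (cns false τ) :
      (ℕ → Bool) → ℝ) (update σ l false))) ≤
      Ex (g * χs) - Ex (g * allH id (a + 1) (k + 1)) := by
    have dd : Dep (l + 2) (χs * zr (l + 1)) := (dχs.mono (by omega)).mul (Dep_zr (by omega))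
    have e1 := ExN_zr (q := q) (((dG (l + 2) (by omega)).mul dd).mono (show l + 2 ≤ N + 1 by omega))
    have e2 : zr l * (χ * fun τ => gL q (N + 1) g (l + 2) (cns false τ)) =
        fun τ => (gL q (N + 1) g (l + 2) * (χs * zr (l + 1)) : (ℕ → Bool) → ℝ) (cns false τ) := by
      ext τ
      have : zr (l + 1) (cns false τ) = zr l τ := rfl
      simp only [Pi.mul_apply, hχs, allH_cns, this, hχ]; ring
    rw [← hIl.zr, e2, ← e1, ← map_sub, ← mul_sub, allH_succ,
      show χs - χs * (1 - zr (id (a + 1 + k))) = χs * zr (l + 1) by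
        rw [show id (a + 1 + k) = l + 1 by simp [hl]; omega]; ring, ExN_gL g dd]
    refine hP.mono fun σ => mul_le_of_le_one_left ?_ (zr_le_one _ _)
    exact mul_nonneg (gL_pos h0 h1 hg _ _).le (mul_nonneg (allH_nonneg _ _ _ _) (zr_nonneg _ _))
  have u4 : Ex (gL q (N + 1) g l * (1 - χ)) = Ex (g * (1 - χ)) :=
    (ExN_gL g ((Dep_one l).sub dχ)).symm
  have u5 : Ex (g * (zr 0 * (1 - χ))) - (Ex (g * χs) - Ex (g * allH id a (k + 1))) ≤
      q * Ex (fun σ => (gL q (N + 1) g (l + 1) * (1 - χs) : (ℕ → Bool) → ℝ) (cns false σ)) := by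
    have dd : Dep (l + 1) (1 - χs) := (Dep_one _).sub dχs
    rw [← ExN_zr (((dG (l + 1) (by omega)).mul dd).mono (by omega)), mul_left_comm (zr 0) (gL q (N + 1) g (l + 1)),
      ← ExN_gL g ((Dep_zr (by omega)).mul dd), ← map_sub, ← map_sub]
    refine hP.mono fun σ => ?_
    have z0 := zr_nonneg 0 σ
    have z1 := zr_le_one 0 σ
    have y1 : allH id a (k + 1) σ ≤ χ σ := by
      rw [allH_succ]
      exact mul_le_of_le_one_right (allH_nonneg _ _ _ _) (sub_le_self _ (zr_nonneg _ _))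
    have y2 : allH id a (k + 1) σ ≤ χs σ := by
      rw [allH_succ']
      exact mul_le_of_le_one_right (allH_nonneg _ _ _ _) (sub_le_self _ (zr_nonneg _ _))
    have y3 : zr 0 σ * (1 - χ σ) - (χs σ - allH id a (k + 1) σ) ≤ zr 0 σ * (1 - χs σ) := by
      nlinarith [mul_nonneg z0 (sub_nonneg.2 y1), mul_nonneg (sub_nonneg.2 z1) (sub_nonneg.2 y2)]
    simp only [Pi.sub_apply, Pi.mul_apply, Pi.one_apply]
    nlinarith [mul_le_mul_of_nonneg_left y3 (hg σ).le]
  have u6 : q * Ex (fun σ => ((1 - χs) * Cs : (ℕ → Bool) → ℝ) (cns false σ)) ≤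
      k0 ^ 2 * (3 / ps q) ^ k0 * W := by
    rw [← ExN_zr ((((Dep_one _).sub (dχs.mono (by omega))).mul dCs).mono (by omega))]
    have v1 : Ex (zr 0 * ((1 - χs) * Cs)) ≤ Ex (∑ s ∈ range k, zr (a + 1 + s) * Cs) := by
      refine hP.mono fun σ => ?_
      have b1 := one_sub_allH_le id (a + 1) k σ
      have b2 : 0 ≤ Cs σ := mul_self_nonneg _
      have b3 := allH_le_one id (a + 1) k σ
      simp only [Pi.mul_apply, Pi.sub_apply, Pi.one_apply, Finset.sum_apply, id] at *
      rw [← sum_mul]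
      exact (mul_le_of_le_one_left (mul_nonneg (sub_nonneg.2 b3) b2) (zr_le_one _ _)).trans
        (mul_le_mul_of_nonneg_right b1 b2)
    rw [map_sum] at v1
    have v2 : ∀ s ∈ range k, Ex (zr (a + 1 + s) * Cs) ≤ (3 / ps q) ^ k0 * (k0 * W) := by
      intro s hs
      rw [mem_range] at hs
      have w1 := path' h0 h1 hP (e := id) (N := N) (fun i _ j _ h => h)
        (fun l _ hl => ExN_inv (by simp; omega)) (fun σ => √(gL q (N + 1) g (l + 2) σ))
        (j := l + 1) (by omega) (i := k - s) (k := k0) (M := k) (by omega) (by omega) (by omega)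
        (by omega)
      have w2 : ∀ i ∈ range k, TT Ex id (fun σ => √(gL q (N + 1) g (l + 2) σ)) 1 (l + 1 - i) ≤ W := by
        intro i hi
        rw [mem_range] at hi
        have x1 := DD_mono (N := N) h0 h1 hg (c := zr (l - i)) (zr_nonneg _) (j := l - i + 1)
          (L := l + 2) (M := N) (Dep_zr (by omega)) (by omega) (by omega) (by omega)
        have x2 : DD q N g (zr (l - i)) (l - i + 1) N ≤ DD q N g (cF (l - i + 1)) (l - i + 1) N :=
          hP.mono fun σ => mul_le_mul_of_nonneg_right (zr_le_cF _ _) (mul_self_nonneg _)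
        rw [show l + 1 - i = l - i + 1 by omega]
        exact x1.trans (x2.trans (hW _ (by omega) (by omega)))
      have w3 := sum_le_card_nsmul _ _ _ w2
      rw [card_range, nsmul_eq_mul] at w3
      have w4 : (k : ℝ) * W ≤ k0 * W := mul_le_mul_of_nonneg_right (by exact_mod_cast hk) W0
      unfold TT at w1
      simp only [id, show l + 1 - (k - s) = a + 1 + s by omega] at w1
      exact w1.trans (mul_le_mul_of_nonneg_left (w3.trans w4) (by positivity))
    have v3 := sum_le_card_nsmul _ _ _ v2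
    rw [card_range, nsmul_eq_mul] at v3
    have v4 : (k : ℝ) * ((3 / ps q) ^ k0 * (k0 * W)) ≤ k0 * ((3 / ps q) ^ k0 * (k0 * W)) :=
      mul_le_mul_of_nonneg_right (by exact_mod_cast hk) (by positivity)
    linarith
  -- the site next to the front
  have hI0 : Inv q Ex 0 := ExN_inv (by omega)
  have iχ : Ind 0 χ := Ind_allH fun i _ => by simp; omega
  have s5 : β * q ^ 4 / 4 ≤ β * Ex (g * vF q) + (1 - q / 2) * (q * (1 - q) * Ψ -
      β * Ex (g * ((1 - χ) * vF q))) := by
    have dv : Dep (l + 1) (vF q) := (Dep_vF q).mono (by omega)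
    have e0 := ExN_gL (q := q) (n := N + 1) g (Dep_one (l + 1))
    rw [mul_one, mul_one, hone, ← hI0] at e0
    rw [ExN_gL g dv, ExN_gL g (((Dep_one _).sub (dχ.mono (by omega))).mul dv),
      ← hI0 (gL q (N + 1) g (l + 1) * vF q), ← hI0 (gL q (N + 1) g (l + 1) * (_ * vF q)),
      mul_left_comm (gL q (N + 1) g (l + 1)), ((Ind_one 0).sub iχ).E_mul, hΨ]
    refine le_of_eq_of_le (show β * q ^ 4 / 4 =
      β * q ^ 4 / 4 * Ex (E q 0 (gL q (N + 1) g (l + 1))) by rw [← e0, mul_one]) ?_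
    simp only [← lin_smul, ← map_add, ← map_sub]
    refine hP.mono fun σ => ?_
    have a0 := gL_pos (n := N + 1) h0 h1 hg (l + 1) (update σ 0 false)
    have a1 := gL_pos (n := N + 1) h0 h1 hg (l + 1) (update σ 0 true)
    have t1 := site_zero h0 h1 a0 a1
    have t2 := (mul_self_nonneg _).trans (prod_ge a0 a1)
    simp only [Pi.add_apply, Pi.sub_apply, Pi.mul_apply, Pi.smul_apply, smul_eq_mul, Pi.one_apply,
      E_apply, grad, vF, zr, update_self, Bool.false_eq_true, if_false, if_true]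
    exact combine_zero h0 h1 a0 a1 lb t1 t2 ((allH_cases id a k σ).imp And.left And.left)
  have e6 : Ex (g * ((1 - χ) * vF q)) =
      q * Ex (g * (1 - χ)) - (1 - q) * Ex (g * (zr 0 * (1 - χ))) := by
    simp only [← lin_smul, ← map_sub]
    congr 1; ext σ
    simp only [Pi.sub_apply, Pi.mul_apply, Pi.smul_apply, smul_eq_mul, Pi.one_apply, vF]; ring
  have m1 : ∀ a k, Ex (g * allH id a (k + 1)) ≤ Ex (g * allH id a k) := fun a k =>
    hP.mono fun σ => mul_le_mul_of_nonneg_left (by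
      rw [allH_succ]
      exact mul_le_of_le_one_right (allH_nonneg _ _ _ _) (sub_le_self _ (zr_nonneg _ _)))
      (hg σ).le
  have m2 : Ex (g * allH id a (k + 1)) ≤ Ex (g * χs) :=
    hP.mono fun σ => mul_le_mul_of_nonneg_left (by
      rw [allH_succ']
      exact mul_le_of_le_one_right (allH_nonneg _ _ _ _) (sub_le_self _ (zr_nonneg _ _)))
      (hg σ).le
  set err := ε + 2 * δ + (4 / (δ * ps q) + 2 * k0 ^ 2 * (3 / ps q) ^ k0) * W +
      C' * ((Ex (g * χ) - Ex (g * allH id a (k + 1))) +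
        (Ex (g * χs) - Ex (g * allH id (a + 1) (k + 1)))) +
      β * (Ex (g * χs) - Ex (g * allH id a (k + 1))) with herr
  have err0 : 0 ≤ err := by
    have := sub_nonneg.2 (m1 a k)
    have := sub_nonneg.2 (m1 (a + 1) k)
    have := sub_nonneg.2 m2
    positivity
  have s6 : q * (1 - q) * Ψ - β * Ex (g * ((1 - χ) * vF q)) ≤ err := by
    rw [e6, herr]
    rw [u2, u4] at s4
    have f1 := mul_le_mul_of_nonneg_left s2 (mul_pos h0 hp).le
    have f2 := mul_le_mul_of_nonneg_left u1 d0.le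
    have f3 := mul_le_mul_of_nonneg_left u3 lC
    have f4 := mul_le_mul_of_nonneg_left u5 (mul_nonneg lb hp.le)
    have f5 := mul_le_mul_of_nonneg_left u6 (mul_nonneg zero_le_two hp.le)
    have f6 : 0 ≤ β * q * (Ex (g * χs) - Ex (g * allH id a (k + 1))) :=
      mul_nonneg (mul_nonneg lb h0.le) (sub_nonneg.2 m2)
    have f7 : 0 ≤ q * (k0 ^ 2 * (3 / ps q) ^ k0 * W) := by positivity
    linarith
  have s7 := mul_le_mul_of_nonneg_left s6 (show 0 ≤ 1 - q / 2 by linarith)
  nlinarith [mul_nonneg h0.le err0]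

end Drift

end Pool.Agent.FA1f
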