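import Pool.Agent.Lib.MP_be561b_pr.Drift

/-! Positive drift of the front under approximately stationary laws: conclusion. -/

namespace Pool.Agent.FA1f

open Function Finset Real

lemma avg_bound {R k0 : ℕ} (H : ℕ → ℕ → ℝ) (hH0 : ∀ a k, 0 ≤ H a k) (hH1 : ∀ a k, H a k ≤ 1)
    (W : ℕ → ℝ) {A K C β : ℝ} (hC : 0 ≤ C) (hβ : 0 ≤ β)
    (h : ∀ r < R, ∀ k < k0, A ≤ K * W r + C * ((H (r + 1) k - H (r + 1) (k + 1)) +
      (H (r + 1 + 1) k - H (r + 1 + 1) (k + 1))) + β * (H (r + 1 + 1) k - H (r + 1) (k + 1))) :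
    R * (k0 * A) ≤ k0 * K * ∑ r ∈ range R, W r + 2 * C * R + β * (R + k0) := by
  have t1 : ∀ a, ∑ k ∈ range k0, (H a k - H a (k + 1)) ≤ 1 := fun a => by
    rw [sum_range_sub']; linarith [hH0 a k0, hH1 a 0]
  have t2 : ∀ k, ∑ r ∈ range R, (H (r + 1 + 1) k - H (r + 1) k) ≤ 1 := fun k => by
    rw [sum_range_sub (fun r => H (r + 1) k)]; linarith [hH0 (0 + 1) k, hH1 (R + 1) k]
  have s1 : ∀ r ∈ range R, k0 * A ≤ k0 * K * W r + 2 * C + β +
      β * ∑ k ∈ range k0, (H (r + 1 + 1) k - H (r + 1) k) := by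
    intro r hr
    have := sum_le_sum fun k (hk : k ∈ range k0) => h r (mem_range.1 hr) k (mem_range.1 hk)
    have e : ∀ k ∈ range k0, K * W r + C * ((H (r + 1) k - H (r + 1) (k + 1)) +
      (H (r + 1 + 1) k - H (r + 1 + 1) (k + 1))) + β * (H (r + 1 + 1) k - H (r + 1) (k + 1)) =
        K * W r + (C + β) * (H (r + 1) k - H (r + 1) (k + 1)) +
        C * (H (r + 1 + 1) k - H (r + 1 + 1) (k + 1)) + β * (H (r + 1 + 1) k - H (r + 1) k) :=
      fun k _ => by ring
    rw [sum_congr rfl e] at this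
    simp only [sum_add_distrib, ← mul_sum, sum_const, card_range, nsmul_eq_mul] at this
    nlinarith [mul_le_mul_of_nonneg_left (t1 (r + 1)) (add_nonneg hC hβ),
      mul_le_mul_of_nonneg_left (t1 (r + 1 + 1)) hC]
  have s2 := sum_le_sum s1
  simp only [sum_add_distrib, ← mul_sum, sum_const, card_range, nsmul_eq_mul] at s2
  rw [sum_comm] at s2
  have s3 := sum_le_card_nsmul _ _ _ fun k (_ : k ∈ range k0) => t2 k
  simp only [card_range, nsmul_eq_mul, mul_one] at s3
  nlinarith [mul_le_mul_of_nonneg_left s3 hβ]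

theorem drift_density {q : ℝ} (h0 : 0 < q) (h1 : q < 1) : ∃ κ > 0, ∃ ε > 0, ∃ N : ℕ,
    ∀ g : (ℕ → Bool) → ℝ, Dep (N + 1) g → (∀ σ, 0 < g σ) → ExN q (N + 1) g = 1 →
      (∀ L ≤ N, -ε ≤ ExN q (N + 1) (g * LF q N (fun σ => log (gL q (N + 1) g L σ)))) →
      κ ≤ ExN q (N + 1) (g * vF q) := by
  have hp : 0 < 1 - q := by linarith
  have pp := ps_pos h0 h1
  set β := -log (1 - q) with hβ
  have lb : 0 < β := neg_pos.2 (log_neg hp (by linarith))
  set μ := β * q ^ 4 / 4 with hμ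
  have μ0 : 0 < μ := by positivity
  set δ := min (μ / 10) 1 with hδ
  have d0 : 0 < δ := lt_min (by positivity) one_pos
  have d1 : δ ≤ 1 := min_le_right _ _
  have d2 : δ ≤ μ / 10 := min_le_left _ _
  set C' := β - log δ - log q with hC'
  have lC : 0 ≤ C' := by
    have := log_nonpos d0.le d1
    have := log_nonpos h0.le h1.le
    linarith
  obtain ⟨k0, hk0⟩ := exists_nat_gt (10 * (2 * C' + β) / μ)
  have k0p : (0 : ℝ) < k0 := lt_of_le_of_lt (by positivity) hk0
  set K := 4 / (δ * ps q) + 2 * k0 ^ 2 * (3 / ps q) ^ k0 with hK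
  have K0 : 0 ≤ K := by positivity
  set Dm := (2 + 4 / ps q + β + 2 / q) / (q * (1 - q)) with hDm
  have Dm0 : 0 ≤ Dm := by positivity
  obtain ⟨R, hR⟩ := exists_nat_gt (10 * (K * ((k0 + 2) * Dm) + β) / μ)
  have Rp : (0 : ℝ) < R := lt_of_le_of_lt (by positivity) hR
  refine ⟨μ / 2 / β, by positivity, δ, d0, R + k0 + 2 + 1, fun g hd hg hone hs => ?_⟩
  set l := R + k0 + 2 with hl
  have hP : Pos (ExN q (l + 1 + 1)) := ExN_pos h0 h1
  set d : ℕ → ℝ := fun j => DD q (l + 1) g (cF j) j (l + 1) with hdd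
  have d_nn : ∀ j, 0 ≤ d j := fun j => DD_nonneg h0 h1 (cF_nonneg j) _ _
  have s1 : ∑ j ∈ range l, d j ≤ Dm := by
    rw [hDm, le_div_iff₀ (mul_pos h0 hp), mul_comm]
    exact top_bound h0 h1 hd hg hone ((neg_le_neg d1).trans (hs _ le_rfl))
  have s2 : ∑ r ∈ range R, ∑ i ∈ range (k0 + 2), d (r + 1 + i) ≤ (k0 + 2) * Dm := by
    rw [sum_comm]
    have : ∀ i ∈ range (k0 + 2), ∑ r ∈ range R, d (r + 1 + i) ≤ Dm := by
      intro i hi
      rw [mem_range] at hi
      refine le_trans ?_ s1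
      have := sum_Ico_eq_sum_range d (1 + i) (1 + i + R)
      rw [add_tsub_cancel_left] at this
      rw [sum_congr rfl fun r _ => by rw [show r + 1 + i = 1 + i + r by omega], ← this]
      exact sum_le_sum_of_subset_of_nonneg (fun j hj => by
        simp only [mem_Ico, mem_range] at *; omega) fun j _ _ => d_nn j
    have := sum_le_card_nsmul _ _ _ this
    simpa using this
  have s3 := avg_bound (R := R) (k0 := k0) (fun a k => ExN q (l + 1 + 1) (g * allH id a k))
    (fun a k => hP _ fun σ => mul_nonneg (hg σ).le (allH_nonneg _ _ _ _))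
    (fun a k => by
      rw [← hone]; exact hP.mono fun σ => mul_le_of_le_one_right (hg σ).le (allH_le_one _ _ _ _))
    (fun r => ∑ i ∈ range (k0 + 2), d (r + 1 + i))
    (A := μ - 3 * δ - β * ExN q (l + 1 + 1) (g * vF q)) (K := K) lC lb.le
    (fun r hr k hk => by
      have := local_bound h0 h1 hd hg hone (a := r + 1) (k := k) (k0 := k0) (by omega) hk.le
        (by omega) d0 d1 d0.le (hs _ (by omega)) (W := ∑ i ∈ range (k0 + 2), d (r + 1 + i))
        (fun j j1 j2 => by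
          have := single_le_sum (s := range (k0 + 2)) (f := fun i => d (r + 1 + i))
            (fun i _ => d_nn _) (mem_range.2 (show j - (r + 1) < k0 + 2 by omega))
          simp only [show r + 1 + (j - (r + 1)) = j by omega] at this
          exact this)
      linarith)
  rw [div_lt_iff₀ μ0] at hk0 hR
  rw [div_le_iff₀ lb]
  have s4 := mul_le_mul_of_nonneg_left s2 (mul_nonneg k0p.le K0)
  have s5 := mul_le_mul_of_nonneg_left hR.le k0p.le
  have s6 := mul_le_mul_of_nonneg_left hk0.le Rp.le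
  have s7 : R * (k0 * (μ - 3 * δ - β * ExN q (l + 1 + 1) (g * vF q))) ≤ R * (k0 * (μ / 5)) := by
    linarith
  have s8 := le_of_mul_le_mul_left (le_of_mul_le_mul_left s7 Rp) k0p
  linarith

lemma LF_abs_le {q : ℝ} (h0 : 0 < q) (h1 : q < 1) (N : ℕ) {φ : (ℕ → Bool) → ℝ} {M : ℝ}
    (hφ : ∀ σ, |φ σ| ≤ M) (σ : ℕ → Bool) : |LF q N φ σ| ≤ (N + 2) * (2 * M) := by
  have d : ∀ a b, |φ a - φ b| ≤ 2 * M := fun a b =>
    (abs_sub _ _).trans (by linarith [hφ a, hφ b])
  have M0 : 0 ≤ M := (abs_nonneg _).trans (hφ σ)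
  have s1 : |∑ j ∈ range N, cF j σ * (E q j φ σ - φ σ)| ≤ N * (2 * M) := by
    refine (abs_sum_le_sum_abs _ _).trans ?_
    have : ∀ j ∈ range N, |cF j σ * (E q j φ σ - φ σ)| ≤ 2 * M := by
      intro j _
      rw [abs_mul, abs_of_nonneg (cF_nonneg j σ)]
      have e := EL_abs_le h0 h1 [j] hφ σ
      rw [EL_single] at e
      have := (abs_sub (E q j φ σ) (φ σ)).trans (add_le_add e (hφ σ))
      nlinarith [cF_nonneg j σ, cF_le_one j σ, abs_nonneg (E q j φ σ - φ σ)]
    simpa using sum_le_card_nsmul _ _ _ this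
  have s2 : |q * (φ (cns false σ) - φ σ)| ≤ 2 * M := by
    rw [abs_mul, abs_of_pos h0]
    nlinarith [d (cns false σ) σ, abs_nonneg (φ (cns false σ) - φ σ)]
  have s3 : |(1 - q) * (zr 0 σ * (φ (shf σ) - φ σ))| ≤ 2 * M := by
    rw [abs_mul, abs_mul, abs_of_pos (by linarith : 0 < 1 - q), abs_of_nonneg (zr_nonneg 0 σ)]
    have := mul_le_mul (zr_le_one 0 σ) (d (shf σ) σ) (abs_nonneg _) zero_le_one
    nlinarith [mul_nonneg (zr_nonneg 0 σ) (abs_nonneg (φ (shf σ) - φ σ))]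
  simp only [LF, Pi.add_apply, Finset.sum_apply, Pi.mul_apply, Pi.sub_apply, Pi.smul_apply,
    smul_eq_mul]
  refine (abs_add_three _ _ _).trans ?_
  linarith

theorem drift_main {q : ℝ} (h0 : 0 < q) (h1 : q < 1) : ∃ κ > 0, ∃ ε > 0, ∃ N : ℕ, ∃ M > 0,
    ∀ ν : ((ℕ → Bool) → ℝ) →ₗ[ℝ] ℝ, Pos ν → ν 1 = 1 →
      (∀ φ, Dep N φ → (∀ σ, |φ σ| ≤ M) → -ε ≤ ν (LF q N φ)) → κ ≤ ν (vF q) := by
  obtain ⟨κ, κ0, ε, ε0, N, H⟩ := drift_density h0 h1
  have pp := ps_pos h0 h1
  set B := -log (ps q ^ (N + 1)) with hB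
  have B0 : 0 ≤ B := neg_nonneg.2 (log_nonpos (by positivity) (pow_le_one₀ pp.le (ps_le_one q)))
  set s := min (min (1 / 2) (κ / 2)) (ε / 2 / ((N + 2) * (2 * (2 + B)))) with hs
  have s0 : 0 < s := lt_min (lt_min (by norm_num) (by positivity)) (by positivity)
  have s1 : s ≤ 1 / 2 := (min_le_left _ _).trans (min_le_left _ _)
  have s2 : s ≤ κ / 2 := (min_le_left _ _).trans (min_le_right _ _)
  have s3 : s * ((N + 2) * (2 * (2 + B))) ≤ ε / 2 := by
    rw [← le_div_iff₀ (by positivity)]; exact min_le_right _ _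
  refine ⟨κ / 2, by positivity, ε / 2, by positivity, N, 2 / s + B, by positivity,
    fun ν hν hν1 hst => ?_⟩
  obtain ⟨g0, a0, b0, c0⟩ := exists_density h0 h1 (N + 1) ν hν
  have hP : Pos (ExN q (N + 1)) := ExN_pos h0 h1
  set g : (ℕ → Bool) → ℝ := (1 - s ^ 2) • g0 + s ^ 2 • 1 with hg
  have t0 : 0 < s ^ 2 := by positivity
  have t1 : s ^ 2 ≤ s := by nlinarith
  have eg : ∀ F, Dep (N + 1) F → ExN q (N + 1) (g * F) =
      (1 - s ^ 2) * ν F + s ^ 2 * ExN q (N + 1) F := fun F hF => by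
    rw [hg, add_mul, smul_mul_assoc, smul_mul_assoc, one_mul, map_add, lin_smul, lin_smul, c0 F hF]
  have gd : Dep (N + 1) g := (b0.smul _).add ((Dep_one _).smul _)
  have gl : ∀ σ, s ^ 2 ≤ g σ := fun σ => by
    have := mul_nonneg (show 0 ≤ 1 - s ^ 2 by linarith) (a0 σ)
    simp only [hg, Pi.add_apply, Pi.smul_apply, smul_eq_mul, Pi.one_apply, mul_one]
    linarith
  have gp : ∀ σ, 0 < g σ := fun σ => t0.trans_le (gl σ)
  have g1 : ExN q (N + 1) g = 1 := by
    have := eg 1 (Dep_one _)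
    rw [mul_one, hν1, ExN_one] at this
    linarith
  have key := H g gd gp g1 fun L hL => by
    have dL : Dep N (gL q (N + 1) g L) := (gL_dep gd (by omega)).mono hL
    have bd : ∀ σ, |log (gL q (N + 1) g L σ)| ≤ 2 / s + B := by
      intro σ
      have x0 := gL_pos (n := N + 1) h0 h1 gp L σ
      have x1 : s ^ 2 ≤ gL q (N + 1) g L σ := by
        have := EL_mono h0 h1 (seg id L (N + 1 - L)) (f := s ^ 2 • 1) (g := g)
          (fun τ => by simpa using gl τ) σ
        rw [map_smul, EL_one] at this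
        simpa [gL] using this
      have x2 := gL_upper h0 h1 (dL.mono (Nat.le_succ N)) (fun τ => (gL_pos h0 h1 gp L τ).le) σ
      have x3 := ExN_gL (q := q) (n := N + 1) g (Dep_one L)
      rw [mul_one, mul_one, g1] at x3
      rw [← x3] at x2
      have y1 := log_le_log t0 x1
      rw [log_pow] at y1
      have y2 := log_nonpos (mul_pos (pow_pos pp (N + 1)) x0).le x2
      rw [log_mul (pow_pos pp _).ne' x0.ne'] at y2
      have y3 := one_sub_inv_le_log_of_pos s0
      have y4 : 2 / s = 2 * s⁻¹ := by ring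
      have y5 : 0 < s⁻¹ := by positivity
      rw [abs_le]; push_cast at y1; constructor <;> linarith
    rw [eg _ (Dep_LF (dL.comp log))]
    have z1 := hst _ (dL.comp log) bd
    have z2 : |ExN q (N + 1) (LF q N fun σ => log (gL q (N + 1) g L σ))| ≤
        (N + 2) * (2 * (2 / s + B)) := by
      have := hP.abs_le (g := ((N + 2) * (2 * (2 / s + B)) : ℝ) • 1)
        (fun σ => by simpa using LF_abs_le h0 h1 N bd σ)
      rwa [lin_smul, ExN_one, mul_one] at this
    have z3 : s ^ 2 * ((N + 2) * (2 * (2 / s + B))) ≤ ε / 2 := by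
      have : s ^ 2 * ((N + 2) * (2 * (2 / s + B))) = s * ((N + 2) * (2 * (2 + s * B))) := by
        field_simp
      rw [this]
      refine le_trans ?_ s3
      have : s * B ≤ B := by nlinarith
      gcongr
    have z4 := mul_le_mul_of_nonneg_left (abs_le.1 z2).1 t0.le
    have z5 := mul_le_mul_of_nonneg_left z1 (show 0 ≤ 1 - s ^ 2 by linarith)
    nlinarith [mul_pos t0 ε0]
  rw [eg _ ((Dep_vF q).mono (by omega))] at key
  have w1 : ExN q (N + 1) (vF q) ≤ 1 := by
    rw [← ExN_one (q := q) (n := N + 1)]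
    refine hP.mono fun σ => ?_
    have := mul_nonneg (show 0 ≤ 1 - q by linarith) (zr_nonneg 0 σ)
    simp only [vF, Pi.sub_apply, Pi.smul_apply, smul_eq_mul, Pi.one_apply]
    linarith
  have w2 : κ / 2 ≤ (1 - s ^ 2) * ν (vF q) := by nlinarith
  by_contra hc
  push Not at hc
  rcases le_total 0 (ν (vF q)) with h | h
  · nlinarith
  · nlinarith

end Pool.Agent.FA1f
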