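import Mathlib

/-! Real-variable inequalities for the entropy computation in the frame of the front. -/

namespace Pool.Agent.FA1f

open Real

lemma log_sub_le {x y : ℝ} (hx : 0 < x) (hy : 0 < y) : y * (log x - log y) ≤ x - y := by
  rw [← log_div hx.ne' hy.ne']
  have := log_le_sub_one_of_pos (div_pos hx hy)
  calc y * log (x / y) ≤ y * (x / y - 1) := by gcongr
    _ = x - y := by field_simp

lemma log_mono_mul {x y : ℝ} (hx : 0 < x) (hy : 0 < y) : 0 ≤ (x - y) * (log x - log y) := by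
  rcases le_total x y with h | h
  · exact mul_nonneg_of_nonpos_of_nonpos (by linarith) (by linarith [log_le_log hx h])
  · exact mul_nonneg (by linarith) (by linarith [log_le_log hy h])

/-- The contribution of the moves of the front to the entropy balance. -/
noncomputable def Tm (q A0 A1 C0 C1 : ℝ) : ℝ :=
  q * ((q * A0 + (1 - q) * A1) * log (q * C0 + (1 - q) * C1) - (q * (A0 * log A0) +
    (1 - q) * (A1 * log A1))) + (1 - q) * (q * (q * (C0 * log A0) + (1 - q) * (C1 * log A1)) -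
    q * ((q * C0 + (1 - q) * C1) * log (q * C0 + (1 - q) * C1)))

lemma Tm_aux {q A0 A1 C0 C1 : ℝ} (h0 : 0 < q) (h1 : q < 1) (a0 : 0 < A0) (a1 : 0 < A1)
    (c0 : 0 < C0) (c1 : 0 < C1) :
    Tm q A0 A1 C0 C1 ≤ -log (1 - q) * q * ((q * A0 + (1 - q) * A1) -
      (1 - q) * (q * C0 + (1 - q) * C1)) -
      q * (q * A0 * (log A0 - log (q * A0 + (1 - q) * A1)) +
        (1 - q) * A1 * (log A1 - log (q * A0 + (1 - q) * A1))) +
      q * (1 - q) * (q * C0 * (log A0 - log (q * A0 + (1 - q) * A1)) +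
        (1 - q) * C1 * (log A1 - log (q * A0 + (1 - q) * A1))) := by
  have hp : 0 < 1 - q := by linarith
  have ha : 0 < q * A0 + (1 - q) * A1 := by positivity
  have hb : 0 < q * C0 + (1 - q) * C1 := by positivity
  have := log_mono_mul ha (mul_pos hp hb)
  rw [log_mul hp.ne' hb.ne'] at this
  unfold Tm
  nlinarith [mul_nonneg h0.le this]

lemma Tm_le_one {q A0 A1 C0 C1 : ℝ} (h0 : 0 < q) (h1 : q < 1) (a0 : 0 < A0) (a1 : 0 < A1)
    (c0 : 0 < C0) (c1 : 0 < C1) :
    Tm q A0 A1 C0 C1 ≤ -log (1 - q) * q * ((q * A0 + (1 - q) * A1) -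
      (1 - q) * (q * C0 + (1 - q) * C1)) + 2 * q * (1 - q) * ((√C1 - √C0) * (√C1 - √C0)) := by
  have hp : 0 < 1 - q := by linarith
  refine (Tm_aux h0 h1 a0 a1 c0 c1).trans ?_
  set a := q * A0 + (1 - q) * A1 with hadef
  set b := q * C0 + (1 - q) * C1 with hbdef
  have ha : 0 < a := by positivity
  have hb : 0 < b := by positivity
  have e1 : 0 ≤ q * A0 * (log A0 - log a) + (1 - q) * A1 * (log A1 - log a) := by
    have s0 := mul_le_mul_of_nonneg_left (log_sub_le ha a0) h0.le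
    have s1 := mul_le_mul_of_nonneg_left (log_sub_le ha a1) hp.le
    nlinarith
  have g : ∀ A C : ℝ, 0 < A → 0 < C →
      C * (log A - log a) ≤ (A * b / a - C) + (C * C / b - C) := by
    intro A C hA hC
    have s0 := log_sub_le (div_pos (mul_pos hA hb) ha) hC
    rw [log_div (mul_pos hA hb).ne' ha.ne', log_mul hA.ne' hb.ne'] at s0
    have s1 := log_sub_le (div_pos (mul_pos hC hC) hb) hC
    rw [log_div (mul_pos hC hC).ne' hb.ne', log_mul hC.ne' hC.ne'] at s1
    linarith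
  have e2 : q * C0 * (log A0 - log a) + (1 - q) * C1 * (log A1 - log a) ≤
      2 * ((√C1 - √C0) * (√C1 - √C0)) := by
    have s0 := mul_le_mul_of_nonneg_left (g A0 C0 a0 c0) h0.le
    have s1 := mul_le_mul_of_nonneg_left (g A1 C1 a1 c1) hp.le
    have s2 : q * (A0 * b / a) + (1 - q) * (A1 * b / a) = b := by
      field_simp; rw [hadef]
    have s3 : q * (C0 * C0 / b) + (1 - q) * (C1 * C1 / b) - b ≤
        2 * ((√C1 - √C0) * (√C1 - √C0)) := by
      have x0 := sqrt_pos.2 c0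
      have x1 := sqrt_pos.2 c1
      have y0 := mul_self_sqrt c0.le
      have y1 := mul_self_sqrt c1.le
      set x := √C0
      set y := √C1
      have : q * (C0 * C0 / b) + (1 - q) * (C1 * C1 / b) - b =
          q * (1 - q) * ((C1 - C0) * (C1 - C0)) / b := by
        field_simp; rw [hbdef]; ring
      rw [this, div_le_iff₀ hb]
      have z : q * (1 - q) * ((x + y) * (x + y)) ≤ 2 * b := by
        rw [hbdef, ← y0, ← y1]
        nlinarith [mul_nonneg (mul_pos h0 hp).le (mul_self_nonneg (x - y)),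
          mul_nonneg (mul_pos h0 h0).le (mul_self_nonneg x),
          mul_nonneg (mul_pos hp hp).le (mul_self_nonneg y)]
      have w : (C1 - C0) * (C1 - C0) = (x + y) * (x + y) * ((y - x) * (y - x)) := by
        rw [← y0, ← y1]; ring
      rw [w]
      nlinarith [mul_le_mul_of_nonneg_right z (mul_self_nonneg (y - x))]
    nlinarith
  nlinarith [mul_nonneg h0.le e1, mul_le_mul_of_nonneg_left e2 (mul_pos h0 hp).le]

lemma Tm_le_two {q A0 A1 C0 C1 δ : ℝ} (h0 : 0 < q) (h1 : q < 1) (a0 : 0 < A0) (a1 : 0 < A1)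
    (c0 : 0 < C0) (c1 : 0 < C1) (d0 : 0 < δ) (d1 : δ ≤ 1) :
    Tm q A0 A1 C0 C1 ≤ δ * (q * A0 + (1 - q) * A1) +
      (-log (1 - q) - log δ - log q) * (q * A0 + q * (q * C0)) := by
  have hp : 0 < 1 - q := by linarith
  refine (Tm_aux h0 h1 a0 a1 c0 c1).trans ?_
  set a := q * A0 + (1 - q) * A1 with hadef
  have ha : 0 < a := by positivity
  have lb : log (1 - q) ≤ 0 := log_nonpos hp.le (by linarith)
  have lq : log q ≤ 0 := log_nonpos h0.le h1.le
  have ld : log δ ≤ 0 := log_nonpos d0.le d1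
  have u0 : log A0 - log a ≤ -log q := by
    have := log_le_log (mul_pos h0 a0) (show q * A0 ≤ a by rw [hadef]; nlinarith [mul_pos hp a1])
    rw [log_mul h0.ne' a0.ne'] at this; linarith
  have u1 : log A1 - log a ≤ -log (1 - q) := by
    have := log_le_log (mul_pos hp a1)
      (show (1 - q) * A1 ≤ a by rw [hadef]; nlinarith [mul_pos h0 a0])
    rw [log_mul hp.ne' a1.ne'] at this; linarith
  have v0 := log_sub_le (mul_pos d0 ha) a0
  rw [log_mul d0.ne' ha.ne'] at v0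
  have v1 := log_sub_le ha (mul_pos hp a1)
  rw [log_mul hp.ne' a1.ne'] at v1
  have w1 : -log (1 - q) * a - (q * A0 * (log A0 - log a) + (1 - q) * A1 * (log A1 - log a)) ≤
      q * δ * a + q * A0 * (-log (1 - q) - log δ) := by
    have := mul_le_mul_of_nonneg_left v0 h0.le
    have e : -log (1 - q) * a = -log (1 - q) * (q * A0) + -log (1 - q) * ((1 - q) * A1) := by
      rw [hadef]; ring
    have e2 : a - (1 - q) * A1 = q * A0 := by rw [hadef]; ring
    nlinarith
  have w2 : q * C0 * (log A0 - log a) + (1 - q) * C1 * (log A1 - log a) +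
      log (1 - q) * (q * C0 + (1 - q) * C1) ≤ q * C0 * (-log q) := by
    have s0 := mul_le_mul_of_nonneg_left u0 (mul_pos h0 c0).le
    have s1 := mul_le_mul_of_nonneg_left u1 (mul_pos hp c1).le
    nlinarith [mul_nonneg (mul_pos h0 c0).le (neg_nonneg.2 lb)]
  have w3 := mul_le_mul_of_nonneg_left w1 h0.le
  have w4 := mul_le_mul_of_nonneg_left w2 (mul_pos h0 hp).le
  have x1 : q * (q * δ * a) ≤ δ * a := by
    have : q * q ≤ 1 := by nlinarith
    nlinarith [mul_pos d0 ha]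
  have x2 : q * (q * A0 * (-log (1 - q) - log δ)) ≤ (-log (1 - q) - log δ - log q) * (q * A0) := by
    have : 0 ≤ q * A0 * (-log (1 - q) - log δ) := mul_nonneg (mul_pos h0 a0).le (by linarith)
    nlinarith [mul_nonneg (mul_pos h0 a0).le (neg_nonneg.2 lq)]
  have x3 : q * (1 - q) * (q * C0 * (-log q)) ≤
      (-log (1 - q) - log δ - log q) * (q * (q * C0)) := by
    have z : 0 < q * (q * C0) := by positivity
    nlinarith [mul_nonneg z.le (neg_nonneg.2 lq), mul_nonneg z.le (neg_nonneg.2 lb),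
      mul_nonneg z.le (neg_nonneg.2 ld), mul_nonneg (mul_nonneg z.le (neg_nonneg.2 lq)) h0.le]
  nlinarith

lemma bdry_aux {G0 G1 g0 g1 δ r : ℝ} (a0 : 0 < G0) (a1 : 0 < G1) (b0 : 0 < g0) (b1 : 0 < g1)
    (d0 : 0 < δ) (r0 : 0 < r) (c1 : r * G1 ≤ g1) (hG : G0 ≤ G1) :
    (G1 - G0) * (log g0 - log g1) ≤ δ * g0 + 4 / (δ * r) * ((√G1 - √G0) * (√G1 - √G0)) := by
  have x0 := sqrt_pos.2 a0
  have x1 := sqrt_pos.2 a1
  have y0 := mul_self_sqrt a0.le
  have y1 := mul_self_sqrt a1.le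
  have z0 := sqrt_pos.2 b0
  have z1 := sqrt_pos.2 b1
  have w0 := mul_self_sqrt b0.le
  have w1 := mul_self_sqrt b1.le
  have s0 := sqrt_pos.2 r0
  have s1 := mul_self_sqrt r0.le
  have hxy : √G0 ≤ √G1 := sqrt_le_sqrt hG
  have l1 : √g1 * (log g0 - log g1) ≤ 2 * √g0 := by
    have := log_sub_le z0 z1
    rw [log_sqrt b0.le, log_sqrt b1.le] at this
    linarith
  have l2 : √r * √G1 ≤ √g1 := by
    rw [← sqrt_mul r0.le]; exact sqrt_le_sqrt c1
  set x := √G0
  set y := √G1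
  set u := √g0
  set v := √g1
  set s := √r
  have l3 : (G1 - G0) * (log g0 - log g1) ≤ 4 * (y - x) * u / s := by
    rcases le_total (log g0 - log g1) 0 with h | h
    · have : 0 ≤ 4 * (y - x) * u / s := by
        have : 0 ≤ y - x := by linarith
        positivity
      nlinarith [mul_nonneg (sub_nonneg.2 hG) (neg_nonneg.2 h)]
    · rw [le_div_iff₀ s0, ← y0, ← y1]
      have t1 : s * y * (log g0 - log g1) ≤ 2 * u :=
        (mul_le_mul_of_nonneg_right l2 h).trans l1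
      have t2 : s * x * (log g0 - log g1) ≤ s * y * (log g0 - log g1) := by gcongr
      nlinarith [mul_le_mul_of_nonneg_left t1 (sub_nonneg.2 hxy),
        mul_le_mul_of_nonneg_left t2 (sub_nonneg.2 hxy)]
  refine l3.trans ?_
  rw [← w0, ← s1]
  have : δ * (u * u) + 4 / (δ * (s * s)) * ((y - x) * (y - x)) - 4 * (y - x) * u / s =
      (δ * s * u - 2 * (y - x)) ^ 2 / (δ * (s * s)) := by
    field_simp; ring
  have h2 : 0 ≤ (δ * s * u - 2 * (y - x)) ^ 2 / (δ * (s * s)) := by positivity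
  linarith

lemma bdry_le {G0 G1 g0 g1 δ r : ℝ} (a0 : 0 < G0) (a1 : 0 < G1) (b0 : 0 < g0) (b1 : 0 < g1)
    (d0 : 0 < δ) (r0 : 0 < r) (c0 : r * G0 ≤ g0) (c1 : r * G1 ≤ g1) :
    -((log g1 - log g0) * (G1 - G0)) ≤
      δ * (g0 + g1) + 4 / (δ * r) * ((√G1 - √G0) * (√G1 - √G0)) := by
  rcases le_total G0 G1 with h | h
  · have := bdry_aux a0 a1 b0 b1 d0 r0 c1 h
    nlinarith [mul_pos d0 b1]
  · have := bdry_aux a1 a0 b1 b0 d0 r0 c0 h
    nlinarith [mul_pos d0 b0]

lemma prod_ge_aux {G0 G1 : ℝ} (a0 : 0 < G0) (a1 : 0 < G1) (h : G0 ≤ G1) :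
    (√G1 - √G0) * (√G1 - √G0) ≤ (log G1 - log G0) * (G1 - G0) := by
  have x0 := sqrt_pos.2 a0
  have x1 := sqrt_pos.2 a1
  have y0 := mul_self_sqrt a0.le
  have y1 := mul_self_sqrt a1.le
  have hxy : √G0 ≤ √G1 := sqrt_le_sqrt h
  have l1 := log_sub_le x0 x1
  rw [log_sqrt a0.le, log_sqrt a1.le] at l1
  have l2 := log_le_log a0 h
  set x := √G0
  set y := √G1
  have e : G1 - G0 = (y - x) * (y + x) := by rw [← y0, ← y1]; ring
  rw [e]
  nlinarith [mul_le_mul_of_nonneg_left l1 (sub_nonneg.2 hxy),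
    mul_nonneg (mul_nonneg (sub_nonneg.2 hxy) x0.le) (sub_nonneg.2 l2),
    mul_self_nonneg (y - x)]

lemma prod_ge {G0 G1 : ℝ} (a0 : 0 < G0) (a1 : 0 < G1) :
    (√G1 - √G0) * (√G1 - √G0) ≤ (log G1 - log G0) * (G1 - G0) := by
  rcases le_total G0 G1 with h | h
  · exact prod_ge_aux a0 a1 h
  · have := prod_ge_aux a1 a0 h; nlinarith

lemma site_zero {q G0 G1 : ℝ} (h0 : 0 < q) (h1 : q < 1) (a0 : 0 < G0) (a1 : 0 < G1) :
    -log (1 - q) * q ^ 3 / 2 * (q * G0 + (1 - q) * G1) ≤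
      (1 - q / 2) * (q * (1 - q) * ((log G1 - log G0) * (G1 - G0))) +
      -log (1 - q) * (q * (q * G0 + (1 - q) * G1) - (1 - q) * (q * G0)) := by
  have hp : 0 < 1 - q := by linarith
  have lb : 0 ≤ -log (1 - q) := neg_nonneg.2 (log_nonpos hp.le (by linarith))
  have hm : 0 < q * G0 + (1 - q) * G1 := by positivity
  have hl : 0 < 1 - q / 2 := by linarith
  set β := -log (1 - q) with hβ
  rcases le_total G1 ((1 - q) * G0) with h | h
  · have l1 := log_le_log a1 h
    rw [log_mul hp.ne' a0.ne'] at l1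
    have l2 : 0 ≤ G0 - G1 := by nlinarith [mul_pos h0 a0]
    have l3 : β * (G0 - G1) ≤ (log G1 - log G0) * (G1 - G0) := by nlinarith
    have l4 := mul_le_mul_of_nonneg_left (mul_le_mul_of_nonneg_left l3 (mul_pos h0 hp).le) hl.le
    have l5 : q ^ 3 / 2 * (q * G0 + (1 - q) * G1) ≤ (1 - q / 2) * (q * (1 - q) * (G0 - G1)) +
        (q * (q * G0 + (1 - q) * G1) - (1 - q) * (q * G0)) := by
      have : 0 ≤ q ^ 2 * (1 - q) * (q * G0 + (1 - q) * G1) := by positivity
      have : 0 ≤ q ^ 2 * G0 := by positivity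
      nlinarith
    nlinarith [mul_le_mul_of_nonneg_left l5 lb]
  · have l1 := log_mono_mul a1 a0
    have l2 : 0 ≤ (1 - q / 2) * (q * (1 - q) * ((log G1 - log G0) * (G1 - G0))) := by
      rw [mul_comm (log G1 - log G0)]; positivity
    have l5 : q ^ 3 / 2 * (q * G0 + (1 - q) * G1) ≤
        q * (q * G0 + (1 - q) * G1) - (1 - q) * (q * G0) := by
      have s1 : 0 ≤ q * (1 - q) * (1 - q ^ 2) * (G1 - (1 - q) * G0) := by
        have : 0 ≤ 1 - q ^ 2 := by nlinarith
        have : 0 ≤ G1 - (1 - q) * G0 := by linarith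
        positivity
      have s2 : 0 ≤ q ^ 4 * (1 - q) * G0 := by positivity
      have s3 : 0 ≤ q ^ 3 * (q * G0 + (1 - q) * G1) := by positivity
      nlinarith
    nlinarith [mul_le_mul_of_nonneg_left l5 lb]

lemma sqrt_convex {q a0 a1 b0 b1 : ℝ} (h0 : 0 < q) (h1 : q < 1) (x0 : 0 ≤ a0) (x1 : 0 ≤ a1)
    (y0 : 0 ≤ b0) (y1 : 0 ≤ b1) :
    (√(q * a0 + (1 - q) * a1) - √(q * b0 + (1 - q) * b1)) *
      (√(q * a0 + (1 - q) * a1) - √(q * b0 + (1 - q) * b1)) ≤
      q * ((√a0 - √b0) * (√a0 - √b0)) + (1 - q) * ((√a1 - √b1) * (√a1 - √b1)) := by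
  have hp : 0 < 1 - q := by linarith
  have ha : 0 ≤ q * a0 + (1 - q) * a1 := by positivity
  have hb : 0 ≤ q * b0 + (1 - q) * b1 := by positivity
  have e1 := mul_self_sqrt ha
  have e2 := mul_self_sqrt hb
  have f0 := mul_self_sqrt x0
  have f1 := mul_self_sqrt x1
  have g0 := mul_self_sqrt y0
  have g1 := mul_self_sqrt y1
  have key : q * (√a0 * √b0) + (1 - q) * (√a1 * √b1) ≤
      √(q * a0 + (1 - q) * a1) * √(q * b0 + (1 - q) * b1) := by
    rw [← sqrt_mul ha]
    apply le_sqrt_of_sq_le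
    set s := √a0
    set t := √a1
    set u := √b0
    set v := √b1
    rw [← f0, ← f1, ← g0, ← g1]
    nlinarith [mul_nonneg (mul_pos h0 hp).le (mul_self_nonneg (s * v - t * u))]
  nlinarith

lemma sqrt_sub_sq_le {a b : ℝ} (ha : 0 ≤ a) (hb : 0 ≤ b) : (√a - √b) * (√a - √b) ≤ a + b := by
  nlinarith [mul_self_sqrt ha, mul_self_sqrt hb, mul_nonneg (sqrt_nonneg a) (sqrt_nonneg b)]

end Pool.Agent.FA1f
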