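import Pool.Agent.Lib.MP_be561b_pr.Frame

/-! The entropy balance in the frame of the front. -/

namespace Pool.Agent.FA1f

open Function Finset Real

/-- The constraint behind the front. -/
def cF (j : ℕ) (σ : ℕ → Bool) : ℝ := if cns false σ j = false ∨ σ (j + 1) = false then 1 else 0

/-- The generator seen from the front. -/
def LF (q : ℝ) (N : ℕ) (φ : (ℕ → Bool) → ℝ) : (ℕ → Bool) → ℝ :=
  ∑ j ∈ range N, cF j * (E q j φ - φ) + q • ((fun σ => φ (cns false σ)) - φ) +
    (1 - q) • (zr 0 * ((fun σ => φ (shf σ)) - φ))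

/-- The drift of the front. -/
def vF (q : ℝ) : (ℕ → Bool) → ℝ := q • 1 - (1 - q) • zr 0

lemma Ind_cF (j : ℕ) : Ind j (cF j) := fun σ b => by
  cases j with
  | zero => simp [cF]
  | succ j => exact if_congr (by simp) rfl rfl

lemma Dep_cF (j : ℕ) : Dep (j + 2) (cF j) := fun σ σ' hs => by
  cases j with
  | zero => simp [cF]
  | succ j => exact if_congr (by simp only [cns_succ, hs j (by omega), hs (j + 1 + 1) (by omega)]) rfl rfl

lemma cF_nonneg (j : ℕ) (σ : ℕ → Bool) : 0 ≤ cF j σ := by unfold cF; split_ifs <;> norm_num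
lemma cF_le_one (j : ℕ) (σ : ℕ → Bool) : cF j σ ≤ 1 := by unfold cF; split_ifs <;> norm_num
lemma cF_zero : cF 0 = 1 := by ext σ; simp [cF]
lemma zr_le_cF (j : ℕ) (σ : ℕ → Bool) : zr j σ ≤ cF (j + 1) σ := by
  unfold zr cF
  cases h : σ j <;> simp [h]
  split_ifs <;> norm_num

lemma Dep_vF (q : ℝ) : Dep 1 (vF q) := ((Dep_one 1).smul q).sub ((Dep_zr (by omega)).smul _)

lemma Dep_LF {q : ℝ} {N : ℕ} {φ : (ℕ → Bool) → ℝ} (h : Dep N φ) : Dep (N + 1) (LF q N φ) := by
  have h' := h.mono (Nat.le_succ N)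
  refine (Dep.add ?_ ((((h'.cns false).mono (Nat.le_succ N)).sub h').smul q)).add
    (((Dep_zr (by omega)).mul (h.shf.sub h')).smul _)
  intro σ σ' hs
  simp only [Finset.sum_apply]
  refine sum_congr rfl fun j hj => ?_
  rw [mem_range] at hj
  exact (((Dep_cF j).mono (by omega)).mul ((h'.E q j).sub h')) σ σ' hs

section Level

variable {q : ℝ} {N : ℕ} {g : (ℕ → Bool) → ℝ}

/-- Dirichlet form of the square root of a marginal density. -/
noncomputable def DD (q : ℝ) (N : ℕ) (g c : (ℕ → Bool) → ℝ) (j L : ℕ) : ℝ :=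
  ExN q (N + 1) (c * (grad j (fun σ => √(gL q (N + 1) g L σ)) *
    grad j (fun σ => √(gL q (N + 1) g L σ))))

lemma DD_nonneg (h0 : 0 < q) (h1 : q < 1) {c : (ℕ → Bool) → ℝ} (hc : 0 ≤ c) (j L : ℕ) :
    0 ≤ DD q N g c j L := ExN_pos h0 h1 _ fun σ => mul_nonneg (hc σ) (mul_self_nonneg _)

lemma DD_mono (h0 : 0 < q) (h1 : q < 1) (hg : ∀ σ, 0 < g σ) {c : (ℕ → Bool) → ℝ} (hc : 0 ≤ c)
    {j L M : ℕ} (hcL : Dep L c) (hj : j < L) (hLM : L ≤ M) (hM : M ≤ N + 1) :
    DD q N g c j L ≤ DD q N g c j M := by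
  induction M, hLM using Nat.le_induction with
  | base => exact le_rfl
  | succ M hLM ih =>
    refine (ih (by omega)).trans ?_
    unfold DD
    rw [← ExN_inv (j := M) (by omega) (c * (grad j (fun σ => √(gL q (N + 1) g (M + 1) σ)) * _)),
      (hcL.ind hLM).E_mul]
    refine (ExN_pos h0 h1).mono fun σ => mul_le_mul_of_nonneg_left ?_ (hc σ)
    have hjM : j ≠ M := by omega
    simp only [Pi.mul_apply, grad, gL_succ g (show M < N + 1 by omega), E_apply, update_comm hjM]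
    exact sqrt_convex h0 h1 (gL_pos h0 h1 hg _ _).le (gL_pos h0 h1 hg _ _).le
      (gL_pos h0 h1 hg _ _).le (gL_pos h0 h1 hg _ _).le

lemma DD_le (h0 : 0 < q) (h1 : q < 1) (hg : ∀ σ, 0 < g σ) (hone : ExN q (N + 1) g = 1)
    {c : (ℕ → Bool) → ℝ} (hc : ∀ σ, c σ ≤ 1) {j : ℕ} (hj : j < N + 1) (L : ℕ) :
    q * (1 - q) * DD q N g c j L ≤ 1 := by
  have e : ExN q (N + 1) (gL q (N + 1) g L) = 1 := by
    have := ExN_gL (q := q) (n := N + 1) g (Dep_one L)
    rw [mul_one, mul_one] at this; rw [← this, hone]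
  rw [← ExN_inv hj] at e
  rw [DD, ← lin_smul]
  refine le_of_le_of_eq ((ExN_pos h0 h1).mono fun σ => ?_) e
  have a0 := gL_pos (n := N + 1) h0 h1 hg L (update σ j false)
  have a1 := gL_pos (n := N + 1) h0 h1 hg L (update σ j true)
  have s := sqrt_sub_sq_le a1.le a0.le
  have hp : 0 < 1 - q := by linarith
  simp only [Pi.smul_apply, Pi.mul_apply, grad, E_apply, smul_eq_mul]
  nlinarith [mul_le_mul_of_nonneg_left s (mul_pos h0 hp).le, mul_le_mul_of_nonneg_left
    (mul_le_mul_of_nonneg_right (hc σ) (mul_self_nonneg (√(gL q (N + 1) g L (update σ j true)) -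
      √(gL q (N + 1) g L (update σ j false))))) (mul_pos h0 hp).le,
    mul_pos (mul_pos h0 h0) a0, mul_pos (mul_pos hp hp) a1]

lemma bulk_eq {φ : (ℕ → Bool) → ℝ} {j M : ℕ} (hφ : Dep M φ) (hj : j + 2 ≤ M) (hM : M ≤ N + 1) :
    ExN q (N + 1) (g * (cF j * (E q j φ - φ))) =
      -(q * (1 - q)) * ExN q (N + 1) (cF j * (grad j φ * grad j (gL q (N + 1) g M))) := by
  rw [ExN_gL g (((Dep_cF j).mono hj).mul ((hφ.E q j).sub hφ)),
    (ExN_inv (by omega)).dirichlet (Ind_cF j)]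

/-- The front term as a function of the configuration. -/
noncomputable def TmF (q : ℝ) (N : ℕ) (g : (ℕ → Bool) → ℝ) (l : ℕ) (σ : ℕ → Bool) : ℝ :=
  Tm q (gL q (N + 1) g (l + 1) (update σ l false)) (gL q (N + 1) g (l + 1) (update σ l true))
    (gL q (N + 1) g (l + 2) (cns false (update σ l false)))
    (gL q (N + 1) g (l + 2) (cns false (update σ l true)))

lemma gL_a {l : ℕ} (hl : l + 1 ≤ N) (σ : ℕ → Bool) : gL q (N + 1) g l σ =
    q * gL q (N + 1) g (l + 1) (update σ l false) +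
      (1 - q) * gL q (N + 1) g (l + 1) (update σ l true) := by
  rw [gL_succ g (by omega), E_apply]

lemma gL_b {l : ℕ} (hl : l + 1 ≤ N) (σ : ℕ → Bool) : gL q (N + 1) g (l + 1) (cns false σ) =
    q * gL q (N + 1) g (l + 2) (cns false (update σ l false)) +
      (1 - q) * gL q (N + 1) g (l + 2) (cns false (update σ l true)) := by
  rw [gL_succ g (by omega), E_apply, update_cns, update_cns]

lemma front_eq (hd : Dep (N + 1) g) {l : ℕ} (hl : l + 1 ≤ N) :
    q * ExN q (N + 1) (g * ((fun σ => log (gL q (N + 1) g (l + 1) (cns false σ))) -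
      fun σ => log (gL q (N + 1) g (l + 1) σ))) +
    (1 - q) * ExN q (N + 1) (g * (zr 0 * ((fun σ => log (gL q (N + 1) g (l + 1) (shf σ))) -
      fun σ => log (gL q (N + 1) g (l + 1) σ)))) = ExN q (N + 1) (TmF q N g l) := by
  set φ : (ℕ → Bool) → ℝ := fun σ => log (gL q (N + 1) g (l + 1) σ) with hφ
  have d1 : Dep (l + 1) (gL q (N + 1) g (l + 1)) := gL_dep hd (by omega)
  have d2 : Dep (l + 2) (gL q (N + 1) g (l + 2)) := gL_dep hd (by omega)
  have dφ : Dep (l + 1) φ := d1.comp log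
  have hI : Inv q (ExN q (N + 1)) l := ExN_inv (by omega)
  have e1 := ExN_gL (q := q) (n := N + 1) g (dφ.cns false)
  have e2 := ExN_gL (q := q) (n := N + 1) g dφ
  rw [← hI (gL q (N + 1) g (l + 1) * φ)] at e2
  have e3 := ExN_gL (q := q) (n := N + 1) g ((Dep_zr (show 0 < l + 2 by omega)).mul dφ.shf)
  rw [mul_left_comm (gL q (N + 1) g (l + 2)),
    ExN_zr ((d2.mul dφ.shf).mono (by omega)), ← hI (fun τ => (gL q (N + 1) g (l + 2) *
      (fun σ => φ (shf σ)) : (ℕ → Bool) → ℝ) (cns false τ))] at e3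
  have e4 := ExN_gL (q := q) (n := N + 1) g ((Dep_zr (show 0 < l + 1 by omega)).mul dφ)
  rw [mul_left_comm (gL q (N + 1) g (l + 1)), ExN_zr ((d1.mul dφ).mono (by omega))] at e4
  rw [mul_sub, mul_sub (zr 0), mul_sub g, map_sub, map_sub]
  erw [e1, e2, e3, e4]
  simp only [← lin_smul, ← map_sub, ← map_add]
  congr 1
  ext σ
  simp only [Pi.add_apply, Pi.smul_apply, Pi.sub_apply, Pi.mul_apply, smul_eq_mul, E_apply,
    shf_cns, TmF, Tm, hφ, gL_a hl σ, gL_b hl σ]

lemma level (h0 : 0 < q) (h1 : q < 1) (hd : Dep (N + 1) g) (hg : ∀ σ, 0 < g σ)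
    (hone : ExN q (N + 1) g = 1) {l : ℕ} (hl : l + 1 ≤ N) {δ : ℝ} (hδ : 0 < δ) :
    ExN q (N + 1) (g * LF q N (fun σ => log (gL q (N + 1) g (l + 1) σ))) ≤
      -(q * (1 - q)) * ∑ j ∈ range l, ExN q (N + 1) (cF j *
        (grad j (fun σ => log (gL q (N + 1) g (l + 1) σ)) * grad j (gL q (N + 1) g (l + 1)))) +
      δ + 4 / (δ * ps q) * (q * (1 - q) * DD q N g (cF l) l (l + 2)) +
      ExN q (N + 1) (TmF q N g l) := by
  set φ : (ℕ → Bool) → ℝ := fun σ => log (gL q (N + 1) g (l + 1) σ) with hφ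
  have d1 : Dep (l + 1) (gL q (N + 1) g (l + 1)) := gL_dep hd (by omega)
  have dφ : Dep (l + 1) φ := d1.comp log
  have hp : 0 < 1 - q := by linarith
  rw [← front_eq hd hl, LF, mul_add, mul_add, map_add, map_add, mul_smul_comm, mul_smul_comm,
    lin_smul, lin_smul, mul_sum, map_sum]
  have s1 : ∑ j ∈ range N, ExN q (N + 1) (g * (cF j * (E q j φ - φ))) =
      ∑ j ∈ range (l + 1), ExN q (N + 1) (g * (cF j * (E q j φ - φ))) := by
    symm
    refine sum_subset (range_subset_range.2 hl) fun j _ hj => ?_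
    rw [mem_range, not_lt] at hj
    rw [(dφ.ind hj).E_eq, sub_self, mul_zero, mul_zero, map_zero]
  have s2 : ∑ j ∈ range l, ExN q (N + 1) (g * (cF j * (E q j φ - φ))) =
      -(q * (1 - q)) * ∑ j ∈ range l, ExN q (N + 1) (cF j *
        (grad j φ * grad j (gL q (N + 1) g (l + 1)))) := by
    rw [mul_sum]
    refine sum_congr rfl fun j hj => ?_
    rw [mem_range] at hj
    exact bulk_eq dφ (by omega) (by omega)
  have s3 : ExN q (N + 1) (g * (cF l * (E q l φ - φ))) ≤
      δ + 4 / (δ * ps q) * (q * (1 - q) * DD q N g (cF l) l (l + 2)) := by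
    rw [bulk_eq (dφ.mono (Nat.le_succ _)) le_rfl (by omega)]
    have e : ExN q (N + 1) (E q l (gL q (N + 1) g (l + 1))) = 1 := by
      have := ExN_gL (q := q) (n := N + 1) g (Dep_one (l + 1))
      rw [mul_one, mul_one] at this; rw [ExN_inv (by omega), ← this, hone]
    have e' : δ = δ * ExN q (N + 1) (E q l (gL q (N + 1) g (l + 1))) := by rw [e, mul_one]
    refine le_of_le_of_eq ?_ (congrArg (· + _) e'.symm)
    rw [DD]
    simp only [← lin_smul, ← map_add]
    refine (ExN_pos h0 h1).mono fun σ => ?_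
    have lo : ∀ τ, ps q * gL q (N + 1) g (l + 1 + 1) τ ≤ gL q (N + 1) g (l + 1) τ := fun τ => by
      rw [gL_succ g (show l + 1 < N + 1 by omega)]
      exact E_lower h0 h1 _ (fun τ => (gL_pos h0 h1 hg _ τ).le) τ
    have a0 := gL_pos (n := N + 1) h0 h1 hg (l + 1) (update σ l false)
    have a1 := gL_pos (n := N + 1) h0 h1 hg (l + 1) (update σ l true)
    have b := bdry_le (gL_pos h0 h1 hg (l + 1 + 1) (update σ l false))
      (gL_pos h0 h1 hg (l + 1 + 1) (update σ l true)) a0 a1 hδ (ps_pos h0 h1) (lo _) (lo _)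
    have c0 := cF_nonneg l σ
    have c1 := cF_le_one l σ
    simp only [Pi.smul_apply, Pi.add_apply, Pi.mul_apply, grad, E_apply, smul_eq_mul, hφ]
    have b2 := mul_le_mul_of_nonneg_left (mul_le_mul_of_nonneg_left b c0) (mul_pos h0 hp).le
    have b3 : q * (1 - q) * (cF l σ * (δ * (gL q (N + 1) g (l + 1) (update σ l false) +
        gL q (N + 1) g (l + 1) (update σ l true)))) ≤
        δ * (q * gL q (N + 1) g (l + 1) (update σ l false) +
          (1 - q) * gL q (N + 1) g (l + 1) (update σ l true)) := by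
      nlinarith [mul_pos hδ (mul_pos (mul_pos h0 h0) a0), mul_pos hδ (mul_pos (mul_pos hp hp) a1),
        mul_nonneg (sub_nonneg.2 c1) (mul_pos (mul_pos h0 hp) (mul_pos hδ (add_pos a0 a1))).le]
    nlinarith
  rw [s1, sum_range_succ, s2]
  linarith

end Level

end Pool.Agent.FA1f
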