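import Pool.Agent.Lib.MP_be561b_pr.Assemble

/-! Choice of the scales and conclusion. -/

namespace Pool.Agent.FA1f

open Function Finset MeasureTheory ProbabilityTheory Filter Topology Real

/-- Exponentially small sequences. -/
def ES (a : ℕ → ℝ) : Prop := ∃ σ > 0, ∃ C ≥ 0, ∀ᶠ r : ℕ in atTop, a r ≤ C * exp (-σ * r)

lemma ES.mono {a b : ℕ → ℝ} (hb : ES b) (h : ∀ᶠ r in atTop, a r ≤ b r) : ES a := by
  obtain ⟨σ, s0, C, C0, H⟩ := hb
  exact ⟨σ, s0, C, C0, (h.and H).mono fun r hr => hr.1.trans hr.2⟩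

lemma ES.add {a b : ℕ → ℝ} (ha : ES a) (hb : ES b) : ES fun r => a r + b r := by
  obtain ⟨σ, s0, C, C0, H⟩ := ha
  obtain ⟨σ', s0', C', C0', H'⟩ := hb
  refine ⟨min σ σ', lt_min s0 s0', C + C', by positivity, (H.and H').mono fun r hr => ?_⟩
  have r0 : (0 : ℝ) ≤ r := Nat.cast_nonneg r
  have e1 : exp (-σ * r) ≤ exp (-min σ σ' * r) :=
    exp_le_exp.2 (by nlinarith [min_le_left σ σ'])
  have e2 : exp (-σ' * r) ≤ exp (-min σ σ' * r) :=
    exp_le_exp.2 (by nlinarith [min_le_right σ σ'])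
  nlinarith [mul_le_mul_of_nonneg_left e1 C0, mul_le_mul_of_nonneg_left e2 C0', hr.1, hr.2]

lemma ES.const_mul {a : ℕ → ℝ} (ha : ES a) {c : ℝ} (hc : 0 ≤ c) : ES fun r => c * a r := by
  obtain ⟨σ, s0, C, C0, H⟩ := ha
  exact ⟨σ, s0, c * C, by positivity, H.mono fun r hr => by
    rw [mul_assoc]; exact mul_le_mul_of_nonneg_left hr hc⟩

lemma ES.nat_mul {a : ℕ → ℝ} (ha : ES a) : ES fun r => r * a r := by
  obtain ⟨σ, s0, C, C0, H⟩ := ha
  refine ⟨σ / 2, by positivity, 2 / σ * C, by positivity, H.mono fun r hr => ?_⟩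
  have r0 : (0 : ℝ) ≤ r := Nat.cast_nonneg r
  have e1 : (r : ℝ) ≤ 2 / σ * exp (σ / 2 * r) := by
    rw [div_mul_eq_mul_div, le_div_iff₀ s0]
    linarith [add_one_le_exp (σ / 2 * r)]
  have e2 : exp (σ / 2 * r) * exp (-σ * r) = exp (-(σ / 2) * r) := by
    rw [← exp_add]; congr 1; ring
  calc r * a r ≤ r * (C * exp (-σ * r)) := mul_le_mul_of_nonneg_left hr r0
    _ ≤ 2 / σ * exp (σ / 2 * r) * (C * exp (-σ * r)) := by gcongr
    _ = _ := by rw [← e2]; ring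

lemma ES_exp {σ : ℝ} (s0 : 0 < σ) : ES fun r => exp (-σ * r) :=
  ⟨σ, s0, 1, zero_le_one, Eventually.of_forall fun r => by simp⟩

lemma ES_inv_pow {θ : ℝ} (t1 : 1 < θ) : ES fun r => (θ ^ r)⁻¹ :=
  (ES_exp (log_pos t1)).mono (Eventually.of_forall fun r => by
    rw [neg_mul, exp_neg, mul_comm, exp_nat_mul, exp_log (by linarith)])

lemma ES.conclude {a : ℕ → ℝ} (ha : ES a) {y : ℝ → ℝ} {M b : ℝ} (b0 : 0 < b)
    (hM : ∀ t, 0 ≤ t → y t ≤ M) (h : ∀ᶠ r : ℕ in atTop, ∀ t, b * r ≤ t → y t ≤ a r) :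
    ∃ C c : ℝ, 0 < C ∧ 0 < c ∧ ∀ t, 0 ≤ t → y t ≤ C * exp (-c * t) := by
  obtain ⟨σ, s0, C, C0, H⟩ := ha
  obtain ⟨r0, hr0⟩ := eventually_atTop.1 (H.and h)
  refine ⟨C * exp σ + (|M| + 1) * exp (σ * r0), σ / b, by positivity, by positivity,
    fun t ht => ?_⟩
  have j1 : b * ⌊t / b⌋₊ ≤ t := by
    rw [← le_div_iff₀' b0]; exact Nat.floor_le (by positivity)
  have j2 : t / b < ⌊t / b⌋₊ + 1 := Nat.lt_floor_add_one _
  have e0 : -(σ / b) * t = -σ * (t / b) := by ring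
  have p1 : 0 ≤ C * exp σ * exp (-(σ / b) * t) := by positivity
  have p2 : 0 ≤ (|M| + 1) * exp (σ * r0) * exp (-(σ / b) * t) := by positivity
  rw [add_mul]
  by_cases hr : r0 ≤ ⌊t / b⌋₊
  · obtain ⟨u1, u2⟩ := hr0 _ hr
    have : exp (-σ * ⌊t / b⌋₊) ≤ exp σ * exp (-(σ / b) * t) := by
      rw [← exp_add, e0]; exact exp_le_exp.2 (by nlinarith)
    nlinarith [u2 t j1, mul_le_mul_of_nonneg_left this C0]
  · have r1 : (⌊t / b⌋₊ : ℝ) + 1 ≤ r0 := by exact_mod_cast (by omega)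
    have : 1 ≤ exp (σ * r0) * exp (-(σ / b) * t) := by
      rw [← exp_add, e0]; exact one_le_exp (by nlinarith)
    nlinarith [hM t ht, le_abs_self M, mul_le_mul_of_nonneg_left this (abs_nonneg M)]

lemma exp_le_two_pow (u : ℕ) : exp (2 / 3 * u) ≤ 2 ^ u := by
  rw [mul_comm, exp_nat_mul]
  refine pow_le_pow_left₀ (exp_pos _).le ?_ u
  exact (exp_le_exp.2 (by linarith [log_two_gt_d9])).trans (exp_log two_pos).le

lemma num_fs {u : ℕ} (hu : 1 ≤ u) {P : ℝ} (P0 : 0 ≤ P) :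
    (4 * u : ℕ) * (exp (4 * (u / 12 + u / 12)) * (P / 2 ^ (2 * u - 1))) * (u / 12 + u / 12) ≤
      4 / 3 * P * (u * (u * exp (-(2 / 3) * u))) := by
  have e1 : (2 : ℝ) ^ (2 * u - 1) = 2 ^ u * 2 ^ u / 2 := by
    rw [← pow_add, eq_div_iff two_ne_zero, ← pow_succ]; congr 1; omega
  have e2 := exp_le_two_pow u
  have e3 : exp (4 * (u / 12 + u / 12)) = exp (2 / 3 * u) := by congr 1; ring
  have e4 : exp (-(2 / 3) * u) = (exp (2 / 3 * u))⁻¹ := by rw [neg_mul, exp_neg]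
  have e5 := exp_pos (2 / 3 * u)
  rw [e1, e3, e4]
  set x := exp (2 / 3 * u)
  have : P / (2 ^ u * 2 ^ u / 2) ≤ P / (x * x / 2) := by gcongr
  calc _ ≤ (4 * u : ℕ) * (x * (P / (x * x / 2))) * (u / 12 + u / 12) := by gcongr
    _ = _ := by push_cast; field_simp; ring

lemma num_V {q G σ B P : ℝ} (h1 : q < 1) (P0 : 0 ≤ P) (s1 : σ ≤ 1 / (6 * G)) (s2 : σ ≤ 1 / 3)
    (s3 : σ ≤ -log (1 - q)) (u : ℕ) :
    exp (-(2 / G) * (u / 12)) * B ^ 2 + ((u * (exp (4 * (u / 12)) * (P / 2 ^ u))) ^ 2 +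
      4 * B ^ 2 * (1 - q) ^ u) ≤ (5 * B ^ 2 + 36 * P ^ 2) * exp (-σ * u) := by
  have u0 : (0 : ℝ) ≤ u := Nat.cast_nonneg u
  have a1 : exp (-(2 / G) * (u / 12)) ≤ exp (-σ * u) := by
    rw [exp_le_exp, show -(2 / G) * (u / 12) = -(1 / (6 * G)) * u by ring]; nlinarith
  have a2 : (1 - q) ^ u ≤ exp (-σ * u) := by
    rw [← exp_log (show 0 < 1 - q by linarith), ← exp_nat_mul, exp_le_exp]; nlinarith
  have a3 : u * (exp (4 * (u / 12)) * (P / 2 ^ u)) ≤ 6 * P * exp (-(1 / 6) * u) := by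
    have b1 : (u : ℝ) ≤ 6 * exp (1 / 6 * u) := by linarith [add_one_le_exp (1 / 6 * u)]
    have b2 : P / 2 ^ u ≤ P / exp (2 / 3 * u) := by
      gcongr; exact exp_le_two_pow u
    have b3 : exp (1 / 6 * u) * exp (4 * (u / 12)) / exp (2 / 3 * u) = exp (-(1 / 6) * u) := by
      rw [← exp_add, ← exp_sub]; congr 1; ring
    calc _ ≤ 6 * exp (1 / 6 * u) * (exp (4 * (u / 12)) * (P / exp (2 / 3 * u))) := by gcongr
      _ = _ := by rw [← b3]; ring
  have a4 : (u * (exp (4 * (u / 12)) * (P / 2 ^ u))) ^ 2 ≤ 36 * P ^ 2 * exp (-σ * u) := by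
    refine (pow_le_pow_left₀ (by positivity) a3 2).trans ?_
    have : exp (-(1 / 6) * u) ^ 2 ≤ exp (-σ * u) := by
      rw [← exp_nat_mul, exp_le_exp]; push_cast; nlinarith
    calc _ = 36 * P ^ 2 * exp (-(1 / 6) * u) ^ 2 := by ring
      _ ≤ _ := by gcongr
  nlinarith [mul_le_mul_of_nonneg_left a1 (sq_nonneg B), mul_le_mul_of_nonneg_left a2 (sq_nonneg B)]

lemma num_Z {p G σ : ℝ} (p0 : 0 < p) (p1 : p ≤ 1) (G0 : 0 < G) (s0 : 0 < σ) {c J A r u n : ℕ}
    (hn : 4 * r + 1 + n = A * r) (hu : u = J * (A * r)) (hc : 24 * G * -log p ≤ c)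
    (hJ : 8 * c * -log p / σ ≤ J) (hA : 80 * -log p / σ ≤ A) :
    exp (-(2 * (c / G)) * (u / 12)) / p ^ (4 * u) +
      4 ^ (4 * J) / p ^ (2 * c * n + 4 * J * (4 * r + 1)) ≤
      2 * 4 ^ (4 * J) * exp (σ / 2 * u) := by
  have L0 : 0 ≤ -log p := neg_nonneg.2 (log_nonpos p0.le p1)
  have u0 : (0 : ℝ) ≤ u := Nat.cast_nonneg u
  have pw : ∀ e : ℕ, p ^ e = exp (e * log p) := fun e => by rw [exp_nat_mul, exp_log p0]
  have a1 : exp (-(2 * (c / G)) * (u / 12)) / p ^ (4 * u) ≤ 1 := by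
    rw [pw, ← exp_sub, exp_le_one_iff]
    have : 24 * -log p ≤ c / G := by rw [le_div_iff₀ G0]; linarith
    push_cast
    nlinarith
  have a2 : 1 / p ^ (2 * c * n + 4 * J * (4 * r + 1)) ≤ exp (σ / 2 * u) := by
    rw [pw, one_div, ← exp_neg, exp_le_exp]
    have r1 : 1 ≤ r := Nat.pos_of_ne_zero (by rintro rfl; simp at hn)
    have r1' : (1 : ℝ) ≤ r := by exact_mod_cast r1
    have n1 : (n : ℝ) ≤ A * r := by exact_mod_cast (by omega)
    rw [div_le_iff₀ s0] at hJ hA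
    have b1 := mul_le_mul_of_nonneg_left n1 (show 0 ≤ 2 * (c : ℝ) * -log p by positivity)
    have b2 := mul_le_mul_of_nonneg_right hJ (show 0 ≤ (A : ℝ) * r by positivity)
    have b3 := mul_le_mul_of_nonneg_right hA (show 0 ≤ (J : ℝ) * r by positivity)
    have b4 := mul_le_mul_of_nonneg_left r1' (show 0 ≤ (J : ℝ) * -log p by positivity)
    rw [hu]; push_cast
    nlinarith
  have a3 : 1 ≤ (4 : ℝ) ^ (4 * J) * exp (σ / 2 * u) :=
    one_le_mul_of_one_le_of_one_le (one_le_pow₀ (by norm_num)) (one_le_exp (by positivity))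
  have a4 := mul_le_mul_of_nonneg_left a2 (show (0 : ℝ) ≤ 4 ^ (4 * J) by positivity)
  rw [mul_one_div] at a4
  linarith

theorem relaxation (q : unitInterval) (h0 : (0 : ℝ) < q) (h1 : (q : ℝ) < 1)
    {ν : Measure (ℤ → Bool)} [IsProbabilityMeasure ν] (hν : ES fun r => ∫ η, fH 0 r η ∂ν)
    {μ : ℝ → Measure (ℤ → Bool)} (hμ : IsLaw q ν μ) {f : (ℤ → Bool) → ℝ} (hf : IsLocal f) :
    ∃ C c : ℝ, 0 < C ∧ 0 < c ∧ ∀ t, 0 ≤ t → |∫ η, f η ∂μ t -
      ∫ η, f η ∂(Measure.infinitePi fun _ : ℤ => bernoulliMeasure false true q)| ≤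
      C * exp (-c * t) := by
  obtain ⟨ρ, hρ⟩ := hf.locR
  obtain ⟨-, B, B0, hB⟩ := hf.facts
  obtain ⟨θ, cp, C, m0, t1, t2, cp0, C0, -, H⟩ := persistence h0 h1
  obtain ⟨k, hk1, hk⟩ : ∃ k : ℕ, 1 ≤ k ∧ 2 * (k + 1) * (1 - q : ℝ) ^ k ≤ 1 / 2 := by
    have hq : |(1 - q : ℝ)| < 1 := by rw [abs_lt]; constructor <;> linarith
    have := ((tendsto_pow_const_mul_const_pow_of_abs_lt_one 1 hq).add
      (tendsto_pow_const_mul_const_pow_of_abs_lt_one 0 hq)).eventually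
      (gt_mem_nhds (show (0 : ℝ) + 0 < 1 / 4 by norm_num))
    obtain ⟨k, a, b⟩ := ((eventually_ge_atTop 1).and this).exists
    exact ⟨k, a, by simp only [pow_one, pow_zero] at b; linarith⟩
  have G0 := Gam_pos h0 h1 hk1
  have pp := ps_pos h0 h1
  set σ := min (min (1 / (6 * Gam q k)) (1 / 3)) (-log (1 - q)) with hσ
  have s0 : 0 < σ := lt_min (lt_min (by positivity) (by norm_num))
    (neg_pos.2 (log_neg (by linarith) (by linarith)))
  obtain ⟨c, hc⟩ := exists_nat_ge (24 * Gam q k * -log (ps q))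
  obtain ⟨J, hJ⟩ := exists_nat_ge (max 1 (8 * c * -log (ps q) / σ))
  obtain ⟨A, hA⟩ := exists_nat_ge (max 5 (80 * -log (ps q) / σ))
  have J1 : 1 ≤ J := by exact_mod_cast (le_max_left _ _).trans hJ
  have A5 : 5 ≤ A := by exact_mod_cast (le_max_left _ _).trans hA
  set w : ℝ := J * A with hw
  have w0 : 0 < w := by
    have : (0 : ℝ) < J := by exact_mod_cast J1
    have : (0 : ℝ) < A := by exact_mod_cast (by omega)
    positivity
  set P := 2 * (2 * B) * 2 ^ ρ with hP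
  have P0 : 0 ≤ P := by positivity
  set KV := 5 * (2 * B) ^ 2 + 36 * P ^ 2 with hKV
  have e1 := ((ES_exp (show 0 < 2 / 3 * w by positivity)).nat_mul.nat_mul).const_mul
    (show 0 ≤ 4 / 3 * P * (w * w) by positivity)
  have e2 := (ES_exp (show 0 < σ / 4 * w by positivity)).const_mul
    (sqrt_nonneg (2 * 4 ^ (4 * J) * KV))
  have e3 := (ES_inv_pow t1).nat_mul.const_mul
    (show 0 ≤ c / Gam q k * (2 * B) * ((4 * J : ℕ) * (2 * C)) * (w / 12) by positivity)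
  have e4 := (hν.add ((ES_inv_pow t1).const_mul (show 0 ≤ θ⁻¹ * (C * 2) by positivity))).const_mul
    (show 0 ≤ 2 * B * (4 * J : ℕ) by positivity)
  refine ((e1.add (e2.add e3)).add e4).conclude (b := w * (1 / 6 + 3 / cp)) (M := 2 * B)
    (by positivity) (fun t ht => ?_) ?_
  · have := hμ.1 t ht
    have i : ∀ (m : Measure (ℤ → Bool)) [IsProbabilityMeasure m], |∫ η, f η ∂m| ≤ B := fun m _ => by
      simpa using norm_integral_le_of_norm_le_const (μ := m) (f := f) (C := B)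
        (Eventually.of_forall hB)
    exact (abs_sub _ _).trans (by linarith [i (μ t), i (Measure.infinitePi fun _ : ℤ =>
      bernoulliMeasure false true q)])
  filter_upwards [eventually_ge_atTop (m0 + ρ + 1)] with r hr t ht
  have l1 : 5 * r ≤ A * r := Nat.mul_le_mul_right r A5
  have l2 : A * r ≤ J * (A * r) := Nat.le_mul_of_pos_left _ J1
  set u := J * (A * r) with hu
  have uw : (u : ℝ) = w * r := by rw [hu, hw]; push_cast; ring
  refine (main_est q h0 h1 hk1 hk t1.le t2 cp0 C0.le H hμ hρ hB (J := J) (A := A) (r := r) (u := u)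
    (n := A * r - (4 * r + 1)) (by omega) hu J1 (by omega) (by omega) c (t := t)
    (by rw [uw]; exact le_of_eq_of_le (by ring) ht)).trans (add_le_add (add_le_add ?_
      (add_le_add ?_ (le_of_eq ?_))) (le_of_eq ?_))
  · refine (num_fs (by omega) P0).trans (le_of_eq ?_)
    rw [uw, show -(2 / 3) * (w * r) = -(2 / 3 * w) * r by ring]; ring
  · have z1 := num_Z pp (ps_le_one q) G0 s0 (n := A * r - (4 * r + 1)) (by omega) hu hc
      ((le_max_right _ _).trans hJ) ((le_max_right _ _).trans hA)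
    have z2 := num_V (G := Gam q k) (B := 2 * B) h1 P0 (σ := σ)
      ((min_le_left _ _).trans (min_le_left _ _)) ((min_le_left _ _).trans (min_le_right _ _))
      (min_le_right _ _) u
    have hq : (0 : ℝ) ≤ 1 - q := by linarith
    refine (sqrt_le_sqrt (mul_le_mul z1 z2 (by positivity) (by positivity))).trans (le_of_eq ?_)
    have : 2 * 4 ^ (4 * J) * exp (σ / 2 * u) * (KV * exp (-σ * u)) =
        2 * 4 ^ (4 * J) * KV * exp (-(σ / 4 * w) * r) ^ 2 := by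
      rw [← exp_nat_mul, uw, show ((2 : ℕ) : ℝ) * (-(σ / 4 * w) * r) =
        σ / 2 * (w * r) + -σ * (w * r) by push_cast; ring, exp_add]; ring
    rw [this, sqrt_mul (by positivity), sqrt_sq (exp_pos _).le]
  · rw [uw]; ring
  · rw [pow_succ, mul_inv]; ring

lemma integral_fH (ν : Measure (ℤ → Bool)) (r : ℕ) :
    ∫ η, fH 0 r η ∂ν = ν.real {η | ∀ x : ℤ, |x| ≤ r → η x = true} := by
  have hm : MeasurableSet {η : ℤ → Bool | ∀ x : ℤ, |x| ≤ r → η x = true} := by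
    measurability
  rw [← integral_indicator_one hm]
  congr 1; ext η
  classical
  rw [Set.indicator_apply]
  refine if_congr (forall_congr' fun x => ?_) rfl rfl
  rw [zero_add, Int.abs_eq_natAbs, Nat.cast_le]

end Pool.Agent.FA1f
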