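import Pool.Agent.Lib.MP_be561b_pr.Nash
import Pool.Agent.Lib.MP_be561b_pr.EntReal

/-! Configurations seen from the front: product expectation, marginal densities. -/

namespace Pool.Agent.FA1f

open Function Finset

/-- Prepend a value. -/
def cns (b : Bool) (σ : ℕ → Bool) : ℕ → Bool
  | 0 => b
  | j + 1 => σ j

/-- Drop the first value. -/
def shf (σ : ℕ → Bool) : ℕ → Bool := fun j => σ (j + 1)

@[simp] lemma cns_zero (b : Bool) (σ : ℕ → Bool) : cns b σ 0 = b := rfl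
@[simp] lemma cns_succ (b : Bool) (σ : ℕ → Bool) (j : ℕ) : cns b σ (j + 1) = σ j := rfl
@[simp] lemma shf_cns (b : Bool) (σ : ℕ → Bool) : shf (cns b σ) = σ := rfl

lemma cns_shf (σ : ℕ → Bool) : cns (σ 0) (shf σ) = σ := by
  ext j; cases j <;> rfl

lemma update_cns (b c : Bool) (σ : ℕ → Bool) (j : ℕ) :
    update (cns b σ) (j + 1) c = cns b (update σ j c) := by
  ext i
  cases i with
  | zero => simp
  | succ i => by_cases h : i = j <;> simp [h]

lemma update_cns_zero (b c : Bool) (σ : ℕ → Bool) : update (cns b σ) 0 c = cns c σ := by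
  ext i; cases i <;> simp

/-- Dependence on the first `L` coordinates only. -/
def Dep (L : ℕ) (f : (ℕ → Bool) → ℝ) : Prop := ∀ σ σ', (∀ j < L, σ j = σ' j) → f σ = f σ'

lemma Dep.ind {L : ℕ} {f : (ℕ → Bool) → ℝ} (h : Dep L f) {j : ℕ} (hj : L ≤ j) : Ind j f :=
  fun σ b => h _ _ fun i hi => update_of_ne (by omega) _ _

lemma Dep.mono {L L' : ℕ} {f : (ℕ → Bool) → ℝ} (h : Dep L f) (hL : L ≤ L') : Dep L' f :=
  fun σ σ' hs => h _ _ fun j hj => hs j (by omega)

lemma Dep.comp {L : ℕ} {f : (ℕ → Bool) → ℝ} (h : Dep L f) (F : ℝ → ℝ) :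
    Dep L (fun σ => F (f σ)) := fun σ σ' hs => by simp only [h σ σ' hs]

lemma Dep.mul {L : ℕ} {f g : (ℕ → Bool) → ℝ} (hf : Dep L f) (hg : Dep L g) : Dep L (f * g) :=
  fun σ σ' hs => by simp only [Pi.mul_apply, hf σ σ' hs, hg σ σ' hs]

lemma Dep.add {L : ℕ} {f g : (ℕ → Bool) → ℝ} (hf : Dep L f) (hg : Dep L g) : Dep L (f + g) :=
  fun σ σ' hs => by simp only [Pi.add_apply, hf σ σ' hs, hg σ σ' hs]

lemma Dep.sub {L : ℕ} {f g : (ℕ → Bool) → ℝ} (hf : Dep L f) (hg : Dep L g) : Dep L (f - g) :=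
  fun σ σ' hs => by simp only [Pi.sub_apply, hf σ σ' hs, hg σ σ' hs]

lemma Dep.smul {L : ℕ} {f : (ℕ → Bool) → ℝ} (hf : Dep L f) (c : ℝ) : Dep L (c • f) :=
  fun σ σ' hs => by simp only [Pi.smul_apply, hf σ σ' hs]

lemma Dep_one (L : ℕ) : Dep L 1 := fun _ _ _ => rfl

lemma Dep_zr {L j : ℕ} (h : j < L) : Dep L (zr j) := fun σ σ' hs => by simp only [zr, hs j h]

lemma Dep.update {L : ℕ} {f : (ℕ → Bool) → ℝ} (hf : Dep L f) (j : ℕ) (b : Bool) :
    Dep L (fun σ => f (update σ j b)) := fun σ σ' hs => hf _ _ fun i hi => by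
  by_cases h : i = j <;> simp [h, hs i hi]

lemma Dep.E {L : ℕ} {f : (ℕ → Bool) → ℝ} (hf : Dep L f) (q : ℝ) (j : ℕ) : Dep L (E q j f) :=
  fun σ σ' hs => by simp only [E_apply, hf.update j _ σ σ' hs]

lemma Dep.grad {L : ℕ} {f : (ℕ → Bool) → ℝ} (hf : Dep L f) (j : ℕ) : Dep L (grad j f) :=
  fun σ σ' hs => by simp only [FA1f.grad, hf.update j _ σ σ' hs]

lemma Dep.E_last {L : ℕ} {f : (ℕ → Bool) → ℝ} (hf : Dep (L + 1) f) (q : ℝ) :
    Dep L (FA1f.E q L f) := fun σ σ' hs => by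
  have : ∀ b, f (Function.update σ L b) = f (Function.update σ' L b) := fun b =>
    hf _ _ fun i hi => by
      by_cases h : i = L
      · simp [h]
      · simp [h, hs i (by omega)]
  simp only [E_apply, this]

lemma Dep.cns {L : ℕ} {f : (ℕ → Bool) → ℝ} (hf : Dep (L + 1) f) (b : Bool) :
    Dep L (fun σ => f (cns b σ)) := fun σ σ' hs => hf _ _ fun i hi => by
  cases i with
  | zero => rfl
  | succ i => exact hs i (by omega)

lemma Dep.shf {L : ℕ} {f : (ℕ → Bool) → ℝ} (hf : Dep L f) :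
    Dep (L + 1) (fun σ => f (shf σ)) := fun σ σ' hs => hf _ _ fun i hi => hs (i + 1) (by omega)

lemma Dep_allH {a k L : ℕ} (h : a + k ≤ L) : Dep L (allH id a k) := by
  induction k with
  | zero => exact Dep_one L
  | succ k ih => rw [allH_succ]; exact (ih (by omega)).mul ((Dep_one L).sub (Dep_zr (by simp; omega)))

lemma allH_cns (a k : ℕ) (b : Bool) (σ : ℕ → Bool) :
    allH id (a + 1) k (cns b σ) = allH id a k σ := by
  simp only [allH, Finset.prod_apply, Pi.sub_apply, Pi.one_apply, id]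
  refine prod_congr rfl fun i _ => ?_
  rw [show a + 1 + i = (a + i) + 1 by omega]; rfl

/-- Marginal density on the first `L` sites. -/
def gL (q : ℝ) (n : ℕ) (g : (ℕ → Bool) → ℝ) (L : ℕ) : (ℕ → Bool) → ℝ := EL q (seg id L (n - L)) g

/-- Product expectation over the first `n` sites. -/
def ExN (q : ℝ) (n : ℕ) : ((ℕ → Bool) → ℝ) →ₗ[ℝ] ℝ :=
  (LinearMap.proj (fun _ => true)).comp (EL q (seg id 0 n))

variable {q : ℝ} {n : ℕ}

lemma ExN_apply (F : (ℕ → Bool) → ℝ) : ExN q n F = EL q (seg id 0 n) F (fun _ => true) := rfl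

lemma ExN_pos (h0 : 0 < q) (h1 : q < 1) : Pos (ExN q n) := fun _ hf => EL_nonneg h0 h1 _ hf _

lemma ExN_one : ExN q n 1 = 1 := by rw [ExN_apply, EL_one]; rfl

lemma ExN_inv {j : ℕ} (hj : j < n) : Inv q (ExN q n) j := fun f => by
  rw [ExN_apply, ExN_apply, ← EL_single, ← Module.End.mul_apply, EL_absorb']
  intro a ha
  rw [List.mem_singleton.1 ha]
  exact mem_seg.2 ⟨j, hj, by simp⟩

lemma seg_cons (a m : ℕ) : seg id a (m + 1) = a :: seg id (a + 1) m := by
  simp only [seg, List.range_succ_eq_map, List.map_cons, List.map_map, id, add_zero]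
  congr 1
  refine List.map_congr_left fun i _ => ?_
  simp; omega

lemma EL_cns (a m : ℕ) (b : Bool) (F : (ℕ → Bool) → ℝ) (σ : ℕ → Bool) :
    EL q (seg id (a + 1) m) F (cns b σ) = EL q (seg id a m) (fun τ => F (cns b τ)) σ := by
  induction m generalizing a σ with
  | zero => rfl
  | succ m ih =>
    rw [seg_cons, seg_cons, EL_cons, EL_cons]
    simp only [Module.End.mul_apply, E_apply, update_cns, ih]

lemma ExN_succ (F : (ℕ → Bool) → ℝ) : ExN q (n + 1) F =
    q * ExN q n (fun τ => F (cns false τ)) + (1 - q) * ExN q n (fun τ => F (cns true τ)) := by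
  have : (fun _ : ℕ => true) = cns true (fun _ => true) := by ext j; cases j <;> rfl
  rw [ExN_apply, seg_cons, EL_cons, Module.End.mul_apply, E_apply, this, update_cns_zero,
    update_cns_zero, EL_cns, EL_cns]
  rfl

lemma ExN_dep {F : (ℕ → Bool) → ℝ} (hF : Dep n F) : ExN q (n + 1) F = ExN q n F := by
  rw [ExN_apply, seg_succ, EL_append, EL_single, Module.End.mul_apply,
    (hF.ind (by simp)).E_eq]
  rfl

lemma ExN_zr {F : (ℕ → Bool) → ℝ} (hF : Dep (n + 1) F) :
    ExN q (n + 1) (zr 0 * F) = q * ExN q (n + 1) (fun τ => F (cns false τ)) := by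
  rw [ExN_succ, ExN_dep (hF.cns false)]
  have e1 : (fun τ => (zr 0 * F : (ℕ → Bool) → ℝ) (cns true τ)) = 0 := by ext τ; simp [zr]
  have e2 : (fun τ => (zr 0 * F : (ℕ → Bool) → ℝ) (cns false τ)) = fun τ => F (cns false τ) := by
    ext τ; simp [zr]
  rw [e1, e2, map_zero]; ring

lemma gL_top (g : (ℕ → Bool) → ℝ) : gL q n g n = g := by simp [gL, seg]

lemma gL_succ (g : (ℕ → Bool) → ℝ) {L : ℕ} (hL : L < n) : gL q n g L = E q L (gL q n g (L + 1)) := by
  unfold gL
  rw [show n - L = (n - (L + 1)) + 1 by omega, seg_cons, EL_cons]; rfl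

lemma gL_dep {g : (ℕ → Bool) → ℝ} (hg : Dep n g) {L : ℕ} (hL : L ≤ n) : Dep L (gL q n g L) := by
  induction hL using Nat.decreasingInduction with
  | self => rw [gL_top]; exact hg
  | of_succ L hL ih => rw [gL_succ g hL]; exact ih.E_last q

lemma gL_pos (h0 : 0 < q) (h1 : q < 1) {g : (ℕ → Bool) → ℝ} (hg : ∀ σ, 0 < g σ) (L : ℕ)
    (σ : ℕ → Bool) : 0 < gL q n g L σ :=
  lt_of_lt_of_le (mul_pos (pow_pos (ps_pos h0 h1) _) (hg σ))
    (EL_lower h0 h1 _ (fun σ => (hg σ).le) σ)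

lemma ExN_gL (g : (ℕ → Bool) → ℝ) {L : ℕ} {F : (ℕ → Bool) → ℝ} (hF : Dep L F) :
    ExN q n (g * F) = ExN q n (gL q n g L * F) := by
  have hI : ∀ a ∈ seg id L (n - L), Inv q (ExN q n) a := fun a ha => by
    obtain ⟨i, hi, rfl⟩ := mem_seg.1 ha
    exact ExN_inv (by simp; omega)
  rw [gL, EL_selfadj hI, EL_eq fun a ha => ?_]
  obtain ⟨i, hi, rfl⟩ := mem_seg.1 ha
  exact hF.ind (by simp)

lemma gL_upper (h0 : 0 < q) (h1 : q < 1) {g : (ℕ → Bool) → ℝ} (hg : Dep n g) (hg0 : 0 ≤ g)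
    (σ : ℕ → Bool) : ps q ^ n * g σ ≤ ExN q n g := by
  have := EL_lower h0 h1 (seg id 0 n) hg0 σ
  rw [length_seg] at this
  refine this.trans (le_of_eq ?_)
  exact gL_dep (q := q) hg (Nat.zero_le n) _ _ (by simp)

lemma exists_density (h0 : 0 < q) (h1 : q < 1) (n : ℕ) :
    ∀ ν : ((ℕ → Bool) → ℝ) →ₗ[ℝ] ℝ, Pos ν → ∃ g : (ℕ → Bool) → ℝ, 0 ≤ g ∧ Dep n g ∧
      ∀ F, Dep n F → ν F = ExN q n (g * F) := by
  induction n with
  | zero =>
    intro ν hν
    refine ⟨fun _ => ν 1, fun _ => hν 1 (fun _ => zero_le_one), fun _ _ _ => rfl, fun F hF => ?_⟩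
    have : F = F (fun _ => true) • 1 := by
      ext σ; simp only [Pi.smul_apply, Pi.one_apply, smul_eq_mul, mul_one]
      exact hF _ _ (by simp)
    rw [this, lin_smul]
    simp [ExN_apply, seg, mul_comm]
  | succ n ih =>
    intro ν hν
    obtain ⟨g0, a0, b0, c0⟩ := ih
      (ν.comp ((LinearMap.mulLeft ℝ (zr 0)).comp (LinearMap.funLeft ℝ ℝ shf)))
      fun f hf => hν _ fun σ => mul_nonneg (zr_nonneg _ _) (hf _)
    obtain ⟨g1, a1, b1, c1⟩ := ih
      (ν.comp ((LinearMap.mulLeft ℝ (1 - zr 0)).comp (LinearMap.funLeft ℝ ℝ shf)))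
      fun f hf => hν _ fun σ => mul_nonneg (sub_nonneg.2 (zr_le_one _ _)) (hf _)
    have hp : 0 < 1 - q := by linarith
    refine ⟨fun σ => if σ 0 then g1 (shf σ) / (1 - q) else g0 (shf σ) / q, fun σ => ?_,
      fun σ σ' hs => ?_, fun F hF => ?_⟩
    · dsimp only
      split_ifs
      · exact div_nonneg (a1 _) hp.le
      · exact div_nonneg (a0 _) h0.le
    · simp only [hs 0 (by omega), b0.shf σ σ' hs, b1.shf σ σ' hs]
    · have d0 := c0 _ (hF.cns false)
      have d1 := c1 _ (hF.cns true)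
      have e : F = zr 0 * (fun σ => F (cns false (shf σ))) +
          (1 - zr 0) * (fun σ => F (cns true (shf σ))) := by
        ext σ
        have := cns_shf σ
        cases hσ : σ 0 <;> rw [hσ] at this <;> simp [zr, hσ, this]
      have d2 : ν F = ExN q n (g0 * fun σ => F (cns false σ)) +
          ExN q n (g1 * fun σ => F (cns true σ)) := by
        rw [← d0, ← d1]
        conv_lhs => rw [e, map_add]
        rfl
      rw [d2, ExN_succ, ← lin_smul, ← lin_smul]
      congr 2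
      · ext σ; simp; field_simp
      · ext σ; simp; field_simp

end Pool.Agent.FA1f
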