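import Pool.Agent.Lib.MP_be561b_pr.Xi
import Pool.Agent.Lib.MP_be561b_pr.DriftMain

/-! The front on a line of the torus and the configuration seen from it. -/

namespace Pool.Agent.FA1f

open Function Finset

section Front

variable {m : ℕ} {q : ℝ} {e : ℕ → ZMod m} {K N : ℕ}

/-- Position of the front. -/
noncomputable def YF (e : ℕ → ZMod m) (K : ℕ) (η : ZMod m → Bool) : ℕ :=
  sInf {i | η (e (i + 1)) = false ∨ 2 * K ≤ i}

/-- Configuration behind the front. -/
noncomputable def sF (e : ℕ → ZMod m) (K : ℕ) (η : ZMod m → Bool) : ℕ → Bool :=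
  fun j => η (e (YF e K η + 2 + j))

lemma YF_le (η : ZMod m → Bool) : YF e K η ≤ 2 * K := Nat.sInf_le (Or.inr le_rfl)

lemma YF_lt {η : ZMod m → Bool} {i : ℕ} (h : i < YF e K η) : η (e (i + 1)) = true := by
  by_contra hc
  have : YF e K η ≤ i := Nat.sInf_le (Or.inl (by simpa using hc))
  omega

lemma YF_zero {η : ZMod m → Bool} (h : YF e K η < 2 * K) : η (e (YF e K η + 1)) = false := by
  have : η (e (YF e K η + 1)) = false ∨ 2 * K ≤ YF e K η :=
    Nat.sInf_mem (s := {i | η (e (i + 1)) = false ∨ 2 * K ≤ i}) ⟨2 * K, Or.inr le_rfl⟩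
  rcases this with h2 | h2
  · exact h2
  · omega

lemma YF_eq {η : ZMod m → Bool} {y : ℕ} (h1 : ∀ i < y, η (e (i + 1)) = true)
    (h2 : η (e (y + 1)) = false ∨ 2 * K ≤ y) (h3 : y ≤ 2 * K) : YF e K η = y := by
  refine le_antisymm (Nat.sInf_le h2) ?_
  by_contra hc
  push Not at hc
  have := YF_zero (e := e) (η := η) (K := K) (by omega)
  rw [h1 _ hc] at this
  exact absurd this (by simp)

lemma YF_congr {η η' : ZMod m → Bool} (h : ∀ i ≤ YF e K η, η' (e (i + 1)) = η (e (i + 1))) :
    YF e K η' = YF e K η := by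
  refine YF_eq (fun i hi => by rw [h i hi.le]; exact YF_lt hi) ?_ (YF_le η)
  rcases (YF_le (e := e) (K := K) η).lt_or_eq with h2 | h2
  · left; rw [h _ le_rfl]; exact YF_zero h2
  · right; exact h2.ge

lemma front_congr {Φ : ℕ → (ℕ → Bool) → ℝ} (hΦ : ∀ y, Dep N (Φ y)) {η : ZMod m → Bool}
    {x : ZMod m} (hx : ∀ i, 1 ≤ i → i < YF e K η + 2 + N → e i ≠ x) (b : Bool) :
    Φ (YF e K (update η x b)) (sF e K (update η x b)) = Φ (YF e K η) (sF e K η) := by
  have h1 : YF e K (update η x b) = YF e K η :=
    YF_congr fun i hi => update_of_ne (hx _ (by omega) (by omega)) _ _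
  rw [h1]
  refine hΦ _ _ _ fun j hj => ?_
  simp only [sF, h1]
  exact update_of_ne (hx _ (by omega) (by omega)) _ _

variable [NeZero m]

lemma LT_bad (h0 : 0 < q) (h1 : q < 1) {Φ : ℕ → (ℕ → Bool) → ℝ} (hΦ : ∀ y, Dep N (Φ y)) {M : ℝ}
    (hM : ∀ y ≤ 2 * K, ∀ σ, |Φ y σ| ≤ M) (η : ZMod m → Bool) :
    |LT q m (fun η => Φ (YF e K η) (sF e K η)) η| ≤ (2 * K + N + 2) * (2 * M) := by
  set F : (ZMod m → Bool) → ℝ := fun η => Φ (YF e K η) (sF e K η) with hF
  have hb : ∀ η, |F η| ≤ M := fun η => hM _ (YF_le η) _
  have M0 : 0 ≤ M := (abs_nonneg _).trans (hb η)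
  rw [LT_apply, ← sum_subset (subset_univ ((range (2 * K + N + 2)).image e))]
  · refine (abs_sum_le_sum_abs _ _).trans ?_
    have : ∀ x ∈ (range (2 * K + N + 2)).image e, |cT x η * (E q x F η - F η)| ≤ 2 * M := by
      intro x _
      rw [abs_mul, abs_of_nonneg (cT_nonneg x η)]
      have e := EL_abs_le h0 h1 [x] hb η
      rw [EL_single] at e
      have := (abs_sub (E q x F η) (F η)).trans (add_le_add e (hb η))
      nlinarith [cT_nonneg x η, cT_le_one x η, abs_nonneg (E q x F η - F η)]
    refine (sum_le_card_nsmul _ _ _ this).trans ?_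
    rw [nsmul_eq_mul]
    have : (((range (2 * K + N + 2)).image e).card : ℝ) ≤ 2 * K + N + 2 := by
      exact_mod_cast card_image_le.trans (card_range _).le
    gcongr
  · intro x _ hx
    have : ∀ b, F (update η x b) = F η := fun b => front_congr hΦ (fun i _ hi hh => hx
      (mem_image.2 ⟨i, mem_range.2 (by have := YF_le (e := e) (K := K) η; omega), hh⟩)) b
    rw [E_apply, this, this]; ring

lemma LT_good (he : ∀ i ≤ 2 * K + N + 2, ∀ j ≤ 2 * K + N + 2, e i = e j → i = j)
    (hn : ∀ i η, cT (e (i + 1)) η = if η (e i) = false ∨ η (e (i + 2)) = false then 1 else 0)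
    {Φ : ℕ → (ℕ → Bool) → ℝ} (hΦ : ∀ y, Dep N (Φ y)) {η : ZMod m → Bool} {y : ℕ}
    (hy : YF e K η = y + 1) (g0 : η (e 0) = true) (g2 : y + 2 ≤ 2 * K) :
    LT q m (fun η => Φ (YF e K η) (sF e K η)) η =
      ∑ j ∈ range N, cF j (sF e K η) * (E q j (Φ (y + 1)) (sF e K η) - Φ (y + 1) (sF e K η)) +
      q * (Φ y (cns false (sF e K η)) - Φ (y + 1) (sF e K η)) +
      (1 - q) * (zr 0 (sF e K η) * (Φ (y + 2) (shf (sF e K η)) - Φ (y + 1) (sF e K η))) := by
  set F : (ZMod m → Bool) → ℝ := fun η => Φ (YF e K η) (sF e K η) with hF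
  set σ := sF e K η with hσ
  have hσj : ∀ j, σ j = η (e (y + 3 + j)) := fun j => by simp only [hσ, sF, hy]
  have hFη : F η = Φ (y + 1) σ := by simp only [hF, hy, hσ]
  have hl : ∀ i ≤ y + 1, η (e i) = true := fun i hi => by
    cases i with
    | zero => exact g0
    | succ i => exact YF_lt (K := K) (by omega)
  have hz : η (e (y + 2)) = false := by
    have := YF_zero (e := e) (K := K) (η := η) (by omega); rwa [hy] at this
  have une : ∀ i j b, i ≤ 2 * K + N + 2 → j ≤ 2 * K + N + 2 → j ≠ i →
      update η (e i) b (e j) = η (e j) := fun i j b hi hj hij =>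
    update_of_ne (fun hh => hij (he _ hj _ hi hh)) _ _
  have uself : ∀ x b, η x = b → update η x b = η := fun x b h => by
    rw [← h]; exact update_eq_self x η
  rw [LT_apply, ← sum_of_injOn (s := range (N + 2)) (fun i => e (y + 1 + i))
    (f := fun i => cT (e (y + 1 + i)) η * (E q (e (y + 1 + i)) F η - F η))
    (fun i hi j hj hh => by
      simp only [coe_range, Set.mem_Iio] at hi hj
      have := he _ (by omega) _ (by omega) hh; omega)
    (fun _ _ => mem_coe.2 (mem_univ _)) ?_ (fun _ _ => rfl)]
  · rw [sum_range_succ', sum_range_succ', add_right_comm]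
    congr 1
    · congr 1
      · refine sum_congr rfl fun j hj => ?_
        rw [mem_range] at hj
        rw [show y + 1 + (j + 1 + 1) = (y + 2 + j) + 1 by omega, hn]
        have c1 : (if η (e (y + 2 + j)) = false ∨ η (e (y + 2 + j + 2)) = false then (1 : ℝ)
            else 0) = cF j σ := by
          refine if_congr ?_ rfl rfl
          rw [hσj, show y + 3 + (j + 1) = y + 2 + j + 2 by omega]
          cases j with
          | zero => simp [hz]
          | succ j => rw [cns_succ, hσj, show y + 3 + j = y + 2 + (j + 1) by omega]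
        have c2 : ∀ b, F (update η (e (y + 2 + j + 1)) b) = Φ (y + 1) (update σ j b) := fun b => by
          have h1 : YF e K (update η (e (y + 2 + j + 1)) b) = y + 1 := by
            rw [← hy]
            exact YF_congr fun i hi => une _ _ _ (by omega) (by omega) (by omega)
          simp only [hF, h1]
          refine hΦ _ _ _ fun i hi => ?_
          simp only [sF, h1]
          by_cases hij : i = j
          · subst hij
            rw [show y + 1 + 2 + i = y + 2 + i + 1 by omega, update_self, update_self]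
          · rw [une _ _ _ (by omega) (by omega) (by omega), update_of_ne hij, hσj]
        rw [c1, E_apply, E_apply, c2, c2, hFη]
      · rw [add_zero, hn, if_pos (Or.inr hz), E_apply, uself _ _ (hl _ le_rfl), hFη]
        have h1 : YF e K (update η (e (y + 1)) false) = y :=
          YF_eq (fun i hi => by
            rw [une _ _ _ (by omega) (by omega) (by omega)]; exact hl _ (by omega))
            (Or.inl (update_self _ _ _)) (by omega)
        have h2 : F (update η (e (y + 1)) false) = Φ y (cns false σ) := by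
          simp only [hF, h1]
          refine hΦ _ _ _ fun i hi => ?_
          simp only [sF, h1]
          rw [une _ _ _ (by omega) (by omega) (by omega)]
          cases i with
          | zero => exact hz
          | succ i => rw [cns_succ, hσj, show y + 2 + (i + 1) = y + 3 + i by omega]
        rw [h2]; ring
    · rw [show y + 1 + (0 + 1) = (y + 1) + 1 by omega, hn, E_apply, uself _ _ hz, hFη,
        hl _ le_rfl]
      have h0 : σ 0 = η (e (y + 1 + 2)) := hσj 0
      cases hs : σ 0
      · rw [← h0, hs]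
        have h1 : YF e K (update η (e (y + 1 + 1)) true) = y + 2 :=
          YF_eq (fun i hi => by
            by_cases hiy : i = y + 1
            · subst hiy; exact update_self _ _ _
            · rw [une _ _ _ (by omega) (by omega) (by omega)]; exact hl _ (by omega))
            (Or.inl (by rw [une _ _ _ (by omega) (by omega) (by omega), ← hs, h0])) g2
        have h2 : F (update η (e (y + 1 + 1)) true) = Φ (y + 2) (shf σ) := by
          simp only [hF, h1]
          refine hΦ _ _ _ fun i hi => ?_
          simp only [sF, h1, shf]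
          rw [une _ _ _ (by omega) (by omega) (by omega), hσj,
            show y + 2 + 2 + i = y + 3 + (i + 1) by omega]
        rw [h2]; simp [zr, hs]; ring
      · rw [← h0, hs]; simp [zr, hs]
  · intro x _ hx
    by_cases hc : ∃ i, 1 ≤ i ∧ i ≤ y ∧ e i = x
    · obtain ⟨i, i1, i2, rfl⟩ := hc
      obtain ⟨i, rfl⟩ : ∃ k, i = k + 1 := ⟨i - 1, by omega⟩
      rw [hn, hl _ (by omega), hl _ (by omega)]; simp
    · have : ∀ b, F (update η x b) = F η := fun b => front_congr hΦ (fun i i1 hi hh => by
        by_cases hiy : i ≤ y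
        · exact hc ⟨i, i1, hiy, hh⟩
        · exact hx ⟨i - (y + 1), by simp only [coe_range, Set.mem_Iio]; omega,
            by simp only []; rw [← hh]; congr 1; omega⟩) b
      rw [E_apply, this, this]; ring

end Front

end Pool.Agent.FA1f
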