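import Pool.Agent.Lib.MP_be561b_pr.Cube

/-! Path lemma, a uniform spectral gap of East type, and a Nash inequality. -/

namespace Pool.Agent.FA1f

open Function Finset

section Gap

variable {I : Type*} [DecidableEq I] {q : ℝ} {Ex : ((I → Bool) → ℝ) →ₗ[ℝ] ℝ}

lemma path_step (h0 : 0 < q) (h1 : q < 1) (hP : Pos Ex) {x y j : I} (hxj : j ≠ x) (hyj : y ≠ j)
    (hy : Inv q Ex y) (hj : Inv q Ex j) (h : (I → Bool) → ℝ) :
    Ex (zr x * (grad j h * grad j h)) ≤
      3 / ps q * (Ex (zr y * (grad j h * grad j h)) + Ex (zr x * (grad y h * grad y h))) := by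
  set G : (I → Bool) → ℝ := grad j h * grad j h with hG
  set D : (I → Bool) → ℝ := zr x * (grad y h * grad y h) with hD
  have hpt : ∀ η, (zr x * G) η ≤ ((3 : ℝ) • ((fun η => G (update η y false)) +
      (fun η => D (update η j false)) + (fun η => D (update η j true)))) η := by
    intro η
    have z0 := zr_nonneg x η
    have z1 := zr_le_one x η
    simp only [hG, hD, Pi.mul_apply, Pi.smul_apply, Pi.add_apply, smul_eq_mul, Ind_zr hxj η, grad,
      update_comm hyj]
    cases hη : η y
    · have : ∀ b, update (update η j b) y false = update η j b := fun b => by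
        have : (update η j b) y = false := by rw [update_of_ne hyj, hη]
        rw [← this]; exact update_eq_self y _
      rw [this, this]
      nlinarith [mul_nonneg z0 (mul_self_nonneg (h (update (update η j false) y true) -
        h (update η j false))), mul_nonneg z0 (mul_self_nonneg (h (update (update η j true) y true) -
        h (update η j true))), mul_nonneg (sub_nonneg.2 z1) (mul_self_nonneg (h (update η j true) -
        h (update η j false))), mul_self_nonneg (h (update η j true) - h (update η j false))]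
    · have : ∀ b, update (update η j b) y true = update η j b := fun b => by
        have : (update η j b) y = true := by rw [update_of_ne hyj, hη]
        rw [← this]; exact update_eq_self y _
      rw [this, this]
      set a := h (update (update η j true) y false) - h (update (update η j false) y false)
      set b := h (update η j false) - h (update (update η j false) y false)
      set c := h (update η j true) - h (update (update η j true) y false)
      have e : h (update η j true) - h (update η j false) = a + c - b := by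
        simp only [a, b, c]; ring
      rw [e]
      nlinarith [mul_nonneg z0 (mul_self_nonneg (a + b)), mul_nonneg z0 (mul_self_nonneg (a - c)),
        mul_nonneg z0 (mul_self_nonneg (b + c)), mul_nonneg (sub_nonneg.2 z1) (mul_self_nonneg a)]
  have h2 := hP.mono hpt
  rw [lin_smul, map_add, map_add] at h2
  have e1 := hy.zr G
  have e2 := hj.zr D
  have e3 := hj.nzr D
  have e4 : Ex D = Ex (zr j * D) + Ex ((1 - zr j) * D) := by
    rw [← map_add]; congr 1; ring
  have hD0 : ∀ η, 0 ≤ D η := fun η => mul_nonneg (zr_nonneg x η) (mul_self_nonneg _)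
  have n1 : 0 ≤ Ex (fun η => G (update η y false)) := hP _ fun η => mul_self_nonneg _
  have n2 : 0 ≤ Ex (fun η => D (update η j false)) := hP _ fun η => hD0 _
  have n3 : 0 ≤ Ex (fun η => D (update η j true)) := hP _ fun η => hD0 _
  have p0 := ps_pos h0 h1
  have p1 := ps_le q
  have p2 := ps_le' q
  rw [div_mul_eq_mul_div, le_div_iff₀ p0, e4, e1, e2, e3]
  nlinarith [mul_le_mul_of_nonneg_right h2 p0.le, mul_le_mul_of_nonneg_right p1 n1,
    mul_le_mul_of_nonneg_right p1 n2, mul_le_mul_of_nonneg_right p2 n3]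

/-- Squared gradient at site `j` of a line given an infection `i` steps before. -/
def TT (Ex : ((I → Bool) → ℝ) →ₗ[ℝ] ℝ) (e : ℕ → I) (h : (I → Bool) → ℝ) (i j : ℕ) : ℝ :=
  Ex (zr (e (j - i)) * (grad (e j) h * grad (e j) h))

lemma TT_nonneg (hP : Pos Ex) (e : ℕ → I) (h : (I → Bool) → ℝ) (i j : ℕ) : 0 ≤ TT Ex e h i j :=
  hP _ fun η => mul_nonneg (zr_nonneg _ η) (mul_self_nonneg _)

lemma one_le_C (h0 : 0 < q) (h1 : q < 1) : 1 ≤ 3 / ps q := by
  rw [le_div_iff₀ (ps_pos h0 h1)]; have := ps_le_one q; linarith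

lemma path (h0 : 0 < q) (h1 : q < 1) (hP : Pos Ex) {e : ℕ → I} {N : ℕ}
    (he : ∀ i ≤ N, ∀ j ≤ N, e i = e j → i = j) (hI : ∀ l, 1 ≤ l → l ≤ N → Inv q Ex (e l))
    (h : (I → Bool) → ℝ) {j : ℕ} (hj : j ≤ N) :
    ∀ i, 1 ≤ i → i ≤ j → TT Ex e h i j ≤ (3 / ps q) ^ i * ∑ l ∈ range i, TT Ex e h 1 (j - l) := by
  intro i hi
  have hC := one_le_C h0 h1
  induction i, hi using Nat.le_induction with
  | base =>
    intro _
    simp only [pow_one, range_one, sum_singleton, Nat.sub_zero]
    nlinarith [TT_nonneg hP e h 1 j]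
  | succ i hi ih =>
    intro hij
    have s1 := path_step h0 h1 hP (x := e (j - (i + 1))) (y := e (j - i)) (j := e j)
      (fun hh => by have := he _ hj _ (by omega) hh; omega)
      (fun hh => by have := he _ (by omega) _ hj hh; omega)
      (hI _ (by omega) (by omega)) (hI _ (by omega) hj) h
    have e1 : j - (i + 1) = j - i - 1 := by omega
    have s2 : TT Ex e h (i + 1) j ≤ 3 / ps q * (TT Ex e h i j + TT Ex e h 1 (j - i)) := by
      unfold TT; rw [← e1]; exact s1
    have s3 := ih (by omega)
    have s4 : 1 ≤ (3 / ps q) ^ i := one_le_pow₀ hC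
    have s5 := TT_nonneg hP e h 1 (j - i)
    rw [sum_range_succ, pow_succ', mul_assoc]
    refine s2.trans (mul_le_mul_of_nonneg_left ?_ (by linarith))
    nlinarith

lemma path' (h0 : 0 < q) (h1 : q < 1) (hP : Pos Ex) {e : ℕ → I} {N : ℕ}
    (he : ∀ i ≤ N, ∀ j ≤ N, e i = e j → i = j) (hI : ∀ l, 1 ≤ l → l ≤ N → Inv q Ex (e l))
    (h : (I → Bool) → ℝ) {j : ℕ} (hj : j ≤ N) {i k M : ℕ} (hi : 1 ≤ i) (hij : i ≤ j)
    (hik : i ≤ k) (hiM : i ≤ M) :
    TT Ex e h i j ≤ (3 / ps q) ^ k * ∑ l ∈ range M, TT Ex e h 1 (j - l) := by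
  have hC := one_le_C h0 h1
  refine (path h0 h1 hP he hI h hj i hi hij).trans (mul_le_mul (pow_le_pow_right₀ hC hik)
    (sum_le_sum_of_subset_of_nonneg (range_subset_range.2 hiM) fun _ _ _ => TT_nonneg hP _ _ _ _)
    (sum_nonneg fun _ _ => TT_nonneg hP _ _ _ _) (by positivity))

/-- A segment of a line, as a list. -/
def seg (e : ℕ → I) (a n : ℕ) : List I := (List.range n).map fun i => e (a + i)

omit [DecidableEq I] in
lemma mem_seg {e : ℕ → I} {a n : ℕ} {x : I} : x ∈ seg e a n ↔ ∃ i < n, e (a + i) = x := by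
  simp [seg]

omit [DecidableEq I] in
lemma seg_succ (e : ℕ → I) (a n : ℕ) : seg e a (n + 1) = seg e a n ++ [e (a + n)] := by
  simp [seg, List.range_succ]

omit [DecidableEq I] in
lemma length_seg (e : ℕ → I) (a n : ℕ) : (seg e a n).length = n := by simp [seg]

/-- Indicator that a segment is healthy. -/
def allH (e : ℕ → I) (a k : ℕ) : (I → Bool) → ℝ := ∏ i ∈ range k, (1 - zr (e (a + i)))

omit [DecidableEq I] in
lemma allH_succ (e : ℕ → I) (a k : ℕ) : allH e a (k + 1) = allH e a k * (1 - zr (e (a + k))) :=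
  prod_range_succ _ _

omit [DecidableEq I] in
lemma allH_succ' (e : ℕ → I) (a k : ℕ) :
    allH e a (k + 1) = allH e (a + 1) k * (1 - zr (e a)) := by
  unfold allH
  rw [prod_range_succ']
  simp only [add_zero, add_assoc, add_comm 1]

omit [DecidableEq I] in
lemma allH_zero (e : ℕ → I) (a : ℕ) : allH e a 0 = 1 := rfl

omit [DecidableEq I] in
lemma allH_cases (e : ℕ → I) (a k : ℕ) (η : I → Bool) :
    (allH e a k η = 1 ∧ ∀ i < k, η (e (a + i)) = true) ∨
      (allH e a k η = 0 ∧ ∃ i < k, η (e (a + i)) = false) := by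
  induction k with
  | zero => left; exact ⟨rfl, by simp⟩
  | succ k ih =>
    rw [allH_succ]
    simp only [Pi.mul_apply, Pi.sub_apply, Pi.one_apply, zr]
    rcases ih with ⟨h1, h2⟩ | ⟨h1, i, hi, h2⟩
    · cases hη : η (e (a + k))
      · right; exact ⟨by simp, k, by omega, hη⟩
      · left
        refine ⟨by simp [h1], fun i hi => ?_⟩
        rcases Nat.lt_succ_iff_lt_or_eq.1 hi with h | rfl
        · exact h2 i h
        · exact hη
    · right; exact ⟨by simp [h1], i, by omega, h2⟩

omit [DecidableEq I] in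
lemma allH_nonneg (e : ℕ → I) (a k : ℕ) (η : I → Bool) : 0 ≤ allH e a k η := by
  rcases allH_cases e a k η with h | h <;> rw [h.1] <;> norm_num

omit [DecidableEq I] in
lemma allH_le_one (e : ℕ → I) (a k : ℕ) (η : I → Bool) : allH e a k η ≤ 1 := by
  rcases allH_cases e a k η with h | h <;> rw [h.1] <;> norm_num

omit [DecidableEq I] in
lemma allH_mul_self (e : ℕ → I) (a k : ℕ) : allH e a k * allH e a k = allH e a k := by
  ext η; rcases allH_cases e a k η with h | h <;> simp [h.1]

omit [DecidableEq I] in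
lemma one_sub_allH_le (e : ℕ → I) (a k : ℕ) (η : I → Bool) :
    1 - allH e a k η ≤ ∑ i ∈ range k, zr (e (a + i)) η := by
  rcases allH_cases e a k η with h | ⟨h, i, hi, h2⟩
  · rw [h.1, sub_self]; exact sum_nonneg fun _ _ => zr_nonneg _ _
  · rw [h, sub_zero]
    have := single_le_sum (f := fun i => zr (e (a + i)) η) (fun _ _ => zr_nonneg _ _)
      (mem_range.2 hi)
    simpa [zr, h2] using this

lemma Ind_allH {e : ℕ → I} {a k : ℕ} {x : I} (h : ∀ i < k, x ≠ e (a + i)) :
    Ind x (allH e a k) := by
  induction k with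
  | zero => exact Ind_one x
  | succ k ih =>
    rw [allH_succ]
    exact (ih fun i hi => h i (by omega)).mul ((Ind_one x).sub (Ind_zr (h k (by omega))))

lemma EL_allH {e : ℕ → I} {a k : ℕ}
    (he : ∀ i < k, ∀ j < k, e (a + i) = e (a + j) → i = j) :
    EL q (seg e a k) (allH e a k) = (1 - q) ^ k • 1 := by
  induction k with
  | zero => simp [seg, allH]
  | succ k ih =>
    have hI : Ind (e (a + k)) (allH e a k) := Ind_allH fun i hi hh => by
      have := he k (by omega) i (by omega) hh; omega
    have e1 : E q (e (a + k)) (1 - zr (e (a + k))) = (1 - q) • 1 := by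
      ext η; simp [E_apply, zr]
    rw [seg_succ, EL_append, EL_single, allH_succ, Module.End.mul_apply, hI.E_mul, e1,
      mul_smul_comm, mul_one, map_smul, ih fun i hi j hj => he i (by omega) j (by omega),
      smul_smul, pow_succ']

lemma sum_window {τ : ℕ → ℝ} (hτ : ∀ i, 0 ≤ τ i) (N k : ℕ) :
    ∑ i ∈ range N, ∑ l ∈ range (min k (i + 1)), τ (i - l) ≤ k * ∑ i ∈ range N, τ i := by
  have h1 : ∀ i, ∑ l ∈ range (min k (i + 1)), τ (i - l) =
      ∑ l ∈ range k, if l ≤ i then τ (i - l) else 0 := by
    intro i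
    rw [← sum_filter]
    congr 1; ext l; simp only [mem_range, mem_filter]; omega
  simp only [h1]
  rw [sum_comm]
  have h2 : ∀ l ∈ range k, ∑ i ∈ range N, (if l ≤ i then τ (i - l) else 0) ≤
      ∑ i ∈ range N, τ i := by
    intro l _
    rw [← sum_filter]
    have : (range N).filter (fun i => l ≤ i) = Ico l N := by
      ext i; simp only [mem_range, mem_filter, mem_Ico]; omega
    rw [this, sum_Ico_eq_sum_range]
    simp only [add_tsub_cancel_left]
    exact sum_le_sum_of_subset_of_nonneg (range_subset_range.2 (by omega)) fun _ _ _ => hτ _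
  simpa using sum_le_card_nsmul _ _ _ h2

/-- The inverse gap constant. -/
noncomputable def Gam (q : ℝ) (k : ℕ) : ℝ := 4 * k ^ 2 * (3 / ps q) ^ k

lemma gap_one (h0 : 0 < q) (h1 : q < 1) (hP : Pos Ex) {k : ℕ} (hk1 : 1 ≤ k)
    (hk : 2 * (k + 1) * (1 - q) ^ k ≤ 1 / 2) {e : ℕ → I} {N : ℕ}
    (he : ∀ i ≤ N, ∀ j ≤ N, e i = e j → i = j) (hI : ∀ l, 1 ≤ l → l ≤ N → Inv q Ex (e l))
    (hs : ∀ f, Ex (zr (e 0) * f) = Ex f) (f : (I → Bool) → ℝ) :
    Ex ((f - EL q (seg e 1 N) f) * (f - EL q (seg e 1 N) f)) ≤
      Gam q k * (q * (1 - q)) * ∑ i ∈ range N, TT Ex e f 1 (i + 1) := by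
  set R : ℕ → Module.End ℝ ((I → Bool) → ℝ) := fun i => EL q (seg e 1 i) with hR
  have hRI : ∀ i ≤ N, ∀ a ∈ seg e 1 i, Inv q Ex a := fun i hi a ha => by
    obtain ⟨l, hl, rfl⟩ := mem_seg.1 ha
    exact hI _ (by omega) (by omega)
  have hproj : ∀ i ≤ N, Proj Ex (R i) := fun i hi => Proj_EL (hRI i hi)
  have habs : ∀ a b, a ≤ b → ∀ g, R b (R a g) = R b g := fun a b hab g => by
    have : R b * R a = R b := EL_absorb' fun x hx => by
      obtain ⟨l, hl, rfl⟩ := mem_seg.1 hx
      exact mem_seg.2 ⟨l, by omega, rfl⟩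
    exact congrArg (fun T : Module.End ℝ ((I → Bool) → ℝ) => T g) this
  set n : ℕ → ℝ := fun i => Ex (R i f * R i f) with hn
  have hdiff : ∀ a b, a ≤ b → b ≤ N → Ex ((R a f - R b f) * (R a f - R b f)) = n a - n b := by
    intro a b hab hb
    have := (hproj b hb).sub_sq (R a f)
    rwa [habs a b hab] at this
  set V : ℕ → ℝ := fun i => if i < N then n i - n (i + 1) else 0 with hV
  have hV0 : ∀ i, 0 ≤ V i := fun i => by
    simp only [hV]
    split_ifs with h
    · rw [← hdiff i (i + 1) (by omega) (by omega)]; exact hP.sq_nonneg _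
    · exact le_rfl
  have htel : ∀ i < N, ∀ k ≤ i, ∑ l ∈ range (k + 1), V (i - l) = n (i - k) - n (i + 1) := by
    intro i hi k hk
    induction k with
    | zero => simp [hV, hi]
    | succ k ih =>
      rw [sum_range_succ, ih (by omega)]
      have : i - (k + 1) + 1 = i - k := by omega
      simp only [hV, show i - (k + 1) < N by omega, if_true, this]; ring
  set τ : ℕ → ℝ := fun i => TT Ex e f 1 (i + 1) with hτ
  have hτ0 : ∀ i, 0 ≤ τ i := fun i => TT_nonneg hP _ _ _ _
  have hq : 0 < q * (1 - q) := mul_pos h0 (by linarith)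
  have hpk : 0 ≤ (1 - q) ^ k := pow_nonneg (by linarith) _
  have hC : 0 ≤ (3 / ps q) ^ k := pow_nonneg (by linarith [one_le_C h0 h1]) _
  have key : ∀ i ∈ range N, V i ≤ 2 * (q * (1 - q)) * (k * (3 / ps q) ^ k) *
      ∑ l ∈ range (min k (i + 1)), τ (i - l) +
      2 * (1 - q) ^ k * ∑ l ∈ range (min (k + 1) (i + 1)), V (i - l) := by
    intro i hi
    rw [mem_range] at hi
    have hnot : ∀ j ≤ i, e (i + 1) ∉ seg e 1 j := fun j hj hx => by
      obtain ⟨l, hl, h⟩ := mem_seg.1 hx
      have := he _ (by omega) _ (by omega) h; omega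
    have hIi : Inv q Ex (e (i + 1)) := hI _ (by omega) (by omega)
    set D := grad (e (i + 1)) f with hD
    have hRs : R (i + 1) f = E q (e (i + 1)) (R i f) := by
      simp only [hR]
      rw [seg_succ, EL_append, EL_single, add_comm 1 i, ← (E_comm_EL _ _).eq]; rfl
    have hVi : V i = q * (1 - q) * Ex (R i D * R i D) := by
      simp only [hV, hi, if_true]
      rw [← hdiff i (i + 1) (by omega) (by omega), hRs, hIi.var, grad_EL (hnot i le_rfl)]
    set B := (3 / ps q) ^ k * ∑ l ∈ range (min k (i + 1)), τ (i - l) with hB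
    have hTB : ∀ s, 1 ≤ s → s ≤ k → s ≤ i + 1 → TT Ex e f s (i + 1) ≤ B := by
      intro s s1 s2 s3
      refine (path' h0 h1 hP he hI f (j := i + 1) (by omega) s1 s3 s2
        (M := min k (i + 1)) (by omega)).trans (le_of_eq ?_)
      rw [hB]; congr 1
      refine sum_congr rfl fun l hl => ?_
      rw [mem_range] at hl
      simp only [hτ]; congr 1; omega
    have hB0 : 0 ≤ B := mul_nonneg hC (sum_nonneg fun _ _ => hτ0 _)
    have hS0 : 0 ≤ ∑ l ∈ range (min (k + 1) (i + 1)), V (i - l) := sum_nonneg fun _ _ => hV0 _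
    have hk' : (1 : ℝ) ≤ k := by exact_mod_cast hk1
    have goal : V i ≤ 2 * (q * (1 - q)) * (k * B) +
        2 * (1 - q) ^ k * ∑ l ∈ range (min (k + 1) (i + 1)), V (i - l) := by
      by_cases hik : i < k
      · have t1 : Ex (R i D * R i D) ≤ Ex (D * D) := by
          have := (hproj i hi.le).sub_sq D
          have := hP.sq_nonneg (D - R i D)
          linarith
        have t2 : Ex (D * D) = TT Ex e f (i + 1) (i + 1) := by
          unfold TT; rw [Nat.sub_self, hs]
        have t3 := hTB (i + 1) (by omega) (by omega) le_rfl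
        have t4 : Ex (R i D * R i D) ≤ 2 * (k * B) := by nlinarith
        rw [hVi]
        nlinarith [mul_le_mul_of_nonneg_left t4 hq.le, mul_nonneg hpk hS0]
      · push Not at hik
        set χ := allH e (i + 1 - k) k with hχ
        set w := R (i - k) f - R (i + 1) f with hw
        set G := grad (e (i + 1)) w with hG
        have hF2 : R i (χ * D) = R i (χ * G) := by
          rw [← habs (i - k) i (by omega) (χ * D)]
          have : R (i - k) (χ * D) = χ * R (i - k) D := EL_mul (fun a ha => by
            obtain ⟨l, hl, rfl⟩ := mem_seg.1 ha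
            exact Ind_allH fun j hj hh => by
              have := he _ (by omega) _ (by omega) hh; omega) D
          rw [this, hG, hw, grad_sub, hRs, (Ind_E q _ _).grad_eq, sub_zero,
            grad_EL (hnot _ (by omega))]
        have hχR : R i (χ * χ) = (1 - q) ^ k • 1 := by
          rw [allH_mul_self]
          have : R i * EL q (seg e (i + 1 - k) k) = R i := EL_absorb' fun x hx => by
            obtain ⟨l, hl, rfl⟩ := mem_seg.1 hx
            exact mem_seg.2 ⟨i - k + l, by omega, by congr 1; omega⟩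
          rw [← this, Module.End.mul_apply, EL_allH (fun a ha b hb hh => by
            have := he _ (by omega) _ (by omega) hh; omega), map_smul, EL_one]
        have t1 : Ex (R i (χ * D) * R i (χ * D)) ≤ (1 - q) ^ k * Ex (G * G) := by
          rw [hF2, ← Ex_EL (hRI i hi.le) (G * G), ← lin_smul]
          refine hP.mono fun η => ?_
          have := EL_cs h0 h1 (seg e 1 i) χ G η
          rw [show EL q (seg e 1 i) (χ * χ) = (1 - q) ^ k • 1 from hχR] at this
          simpa [sq] using this
        have t2 : q * (1 - q) * Ex (G * G) ≤ n (i - k) - n (i + 1) := by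
          rw [hG, ← hIi.var, ← hdiff _ _ (by omega) (by omega)]
          have p : Proj Ex (E q (e (i + 1))) := ⟨E_idem q _, hIi.selfadj⟩
          have := p.sub_sq w
          have := hP.sq_nonneg (E q (e (i + 1)) w)
          linarith
        have t3 : Ex (R i ((1 - χ) * D) * R i ((1 - χ) * D)) ≤ k * B := by
          have a1 := (hproj i hi.le).sub_sq ((1 - χ) * D)
          have a2 := hP.sq_nonneg ((1 - χ) * D - R i ((1 - χ) * D))
          have a3 : Ex ((1 - χ) * D * ((1 - χ) * D)) ≤
              Ex (∑ s ∈ range k, zr (e (i + 1 - k + s)) * (D * D)) := by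
            refine hP.mono fun η => ?_
            have b1 := one_sub_allH_le e (i + 1 - k) k η
            have b2 := allH_nonneg e (i + 1 - k) k η
            have b3 := allH_le_one e (i + 1 - k) k η
            simp only [Pi.mul_apply, Pi.sub_apply, Pi.one_apply, Finset.sum_apply]
            rw [← sum_mul]
            have b4 : (1 - χ η) * (1 - χ η) ≤ ∑ s ∈ range k, zr (e (i + 1 - k + s)) η := by
              nlinarith
            nlinarith [mul_le_mul_of_nonneg_right b4 (mul_self_nonneg (D η))]
          rw [map_sum] at a3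
          have a4 : ∀ s ∈ range k, Ex (zr (e (i + 1 - k + s)) * (D * D)) ≤ B := by
            intro s hs
            rw [mem_range] at hs
            have := hTB (k - s) (by omega) (by omega) (by omega)
            unfold TT at this
            rwa [show i + 1 - (k - s) = i + 1 - k + s by omega] at this
          have a5 := sum_le_card_nsmul _ _ _ a4
          rw [card_range, nsmul_eq_mul] at a5
          linarith
        have t4 : Ex (R i D * R i D) ≤ 2 * Ex (R i ((1 - χ) * D) * R i ((1 - χ) * D)) +
            2 * Ex (R i (χ * D) * R i (χ * D)) := by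
          rw [← lin_smul, ← lin_smul, ← map_add]
          refine hP.mono fun η => ?_
          have : R i D = R i ((1 - χ) * D) + R i (χ * D) := by
            rw [← map_add]; congr 1; ring
          rw [this]
          simp only [Pi.mul_apply, Pi.add_apply, Pi.smul_apply, smul_eq_mul]
          nlinarith [mul_self_nonneg (R i ((1 - χ) * D) η - R i (χ * D) η)]
        rw [show min (k + 1) (i + 1) = k + 1 by omega, htel i hi k hik, hVi]
        nlinarith [mul_le_mul_of_nonneg_left t4 hq.le, mul_le_mul_of_nonneg_left t3 hq.le,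
          mul_le_mul_of_nonneg_left t1 hq.le, mul_le_mul_of_nonneg_left t2 hpk]
    rw [hB] at goal
    linarith
  have s1 := sum_le_sum key
  rw [sum_add_distrib, ← mul_sum, ← mul_sum] at s1
  have s2 := sum_window hτ0 N k
  have s3 := sum_window hV0 N (k + 1)
  have s4 : ∑ i ∈ range N, V i = n 0 - n N := by
    rw [← sum_range_sub' n N]
    exact sum_congr rfl fun i hi => by simp [hV, mem_range.1 hi]
  have s5 := hdiff 0 N (by omega) le_rfl
  have s6 : R 0 f = f := rfl
  rw [s6] at s5
  have s7 : 0 ≤ ∑ i ∈ range N, V i := sum_nonneg fun _ _ => hV0 _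
  show Ex ((f - R N f) * (f - R N f)) ≤ _
  rw [s5, ← s4, Gam]
  push_cast at s3
  have s8 : 0 ≤ 2 * (q * (1 - q)) * (k * (3 / ps q) ^ k) := by positivity
  nlinarith [mul_le_mul_of_nonneg_left s2 s8, mul_le_mul_of_nonneg_left s3 hpk,
    mul_le_mul_of_nonneg_right hk s7]

end Gap

end Pool.Agent.FA1f
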