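import Pool.Agent.Lib.MP_be561b_pr.Line

/-! The product measure, and well-posedness of the forward equation. -/

namespace Pool.Agent.FA1f

open Function Finset MeasureTheory ProbabilityTheory Filter Topology

lemma pi_resample (q : unitInterval) (x : ℤ) :
    unitInterval.toNNReal q • (Measure.infinitePi fun _ : ℤ => bernoulliMeasure false true q).map
        (fun η => update η x false) +
      unitInterval.toNNReal (unitInterval.symm q) •
        (Measure.infinitePi fun _ : ℤ => bernoulliMeasure false true q).map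
        (fun η => update η x true) =
      Measure.infinitePi fun _ : ℤ => bernoulliMeasure false true q := by
  classical
  refine Measure.eq_infinitePi _ fun s t ht => ?_
  have key : ∀ b : Bool, (Measure.infinitePi fun _ : ℤ => bernoulliMeasure false true q).map
      (fun η => update η x b) (Set.pi s t) =
      (if x ∈ s → b ∈ t x then 1 else 0) * ∏ i ∈ s.erase x, bernoulliMeasure false true q (t i) := by
    intro b
    rw [Measure.map_apply measurable_update_left (MeasurableSet.pi s.countable_toSet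
      fun i _ => ht i)]
    split_ifs with h
    · rw [one_mul, ← Measure.infinitePi_pi _ fun i _ => ht i]
      congr 1; ext η
      simp only [Set.mem_preimage, Set.mem_pi, mem_coe, mem_erase]
      constructor
      · intro H i hi; simpa [hi.1] using H i hi.2
      · intro H i hi
        by_cases e : i = x
        · subst e; simpa using h hi
        · simpa [e] using H i ⟨e, hi⟩
    · rw [zero_mul]
      push Not at h
      have : (fun η : ℤ → Bool => update η x b) ⁻¹' Set.pi s t = ∅ := by
        ext η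
        simp only [Set.mem_preimage, Set.mem_pi, mem_coe, Set.mem_empty_iff_false, iff_false]
        intro H; exact h.2 (by simpa using H x h.1)
      rw [this, measure_empty]
  rw [Measure.add_apply, Measure.smul_apply, Measure.smul_apply, key, key]
  by_cases hx : x ∈ s
  · rw [← mul_prod_erase s _ hx, bernoulliMeasure_apply q (ht x)]
    simp only [hx, true_imp_iff, ENNReal.smul_def, smul_eq_mul]
    split_ifs <;> simp [← add_mul, ← ENNReal.coe_add]
  · simp only [hx, false_imp_iff, if_true, ENNReal.smul_def, smul_eq_mul, one_mul,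
      erase_eq_of_notMem hx]
    simp [← add_mul, ← ENNReal.coe_add]

lemma LocR.E {ρ : ℕ} {f : (ℤ → Bool) → ℝ} (h : LocR ρ f) (q : ℝ) (x : ℤ) : LocR ρ (E q x f) :=
  fun η η' hs => by
    have u : ∀ b, f (Function.update η x b) = f (Function.update η' x b) := fun b =>
      h.update x b η η' hs
    rw [E_apply, E_apply, u, u]

lemma LocR.EL {ρ : ℕ} {f : (ℤ → Bool) → ℝ} (h : LocR ρ f) (q : ℝ) (l : List ℤ) :
    LocR ρ (EL q l f) := by
  induction l with
  | nil => exact h
  | cons a l ih => rw [EL_cons]; exact ih.E q a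

lemma integral_pi_E (q : unitInterval) {ρ : ℕ} {f : (ℤ → Bool) → ℝ} (h : LocR ρ f) (x : ℤ) :
    ∫ η, E q x f η ∂(Measure.infinitePi fun _ : ℤ => bernoulliMeasure false true q) =
      ∫ η, f η ∂(Measure.infinitePi fun _ : ℤ => bernoulliMeasure false true q) := by
  have hm : ∀ b : Bool, Measurable fun η : ℤ → Bool => update η x b := fun b =>
    measurable_update_left
  have hf := h.isLocal.facts.1
  conv_rhs => rw [← pi_resample q x]
  rw [integral_add_measure ((h.isLocal.integrable _).smul_measure_nnreal)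
    ((h.isLocal.integrable _).smul_measure_nnreal), integral_smul_nnreal_measure,
    integral_smul_nnreal_measure, integral_map (hm _).aemeasurable hf.aestronglyMeasurable,
    integral_map (hm _).aemeasurable hf.aestronglyMeasurable]
  simp only [E_apply]
  rw [integral_add (((h.update x false).isLocal.integrable _).const_mul _)
    (((h.update x true).isLocal.integrable _).const_mul _), integral_const_mul, integral_const_mul]
  simp [NNReal.smul_def]

lemma integral_pi_eq (q : unitInterval) {ρ : ℕ} {f : (ℤ → Bool) → ℝ} (h : LocR ρ f) {m : ℕ}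
    [NeZero m] (hm : 2 * ρ < m) :
    ∫ η, f η ∂(Measure.infinitePi fun _ : ℤ => bernoulliMeasure false true q) =
      ExT q m (fun ζ => f (lift ζ)) := by
  have a1 : ∀ l : List ℤ,
      ∫ η, EL q l f η ∂(Measure.infinitePi fun _ : ℤ => bernoulliMeasure false true q) =
      ∫ η, f η ∂(Measure.infinitePi fun _ : ℤ => bernoulliMeasure false true q) := by
    intro l
    induction l with
    | nil => rfl
    | cons a l ih => rw [EL_cons, Module.End.mul_apply, integral_pi_E q (h.EL q l), ih]
  have a2 : ∀ l : List ℤ, (∀ x ∈ l, x.natAbs ≤ ρ) →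
      ExT q m (fun ζ => EL q l f (lift ζ)) = ExT q m (fun ζ => f (lift ζ)) := by
    intro l
    induction l with
    | nil => intro _; rfl
    | cons a l ih =>
      intro hl
      rw [← ih fun x hx => hl x (List.mem_cons_of_mem _ hx), ← ExT_inv (a : ZMod m)
        (fun ζ => EL q l f (lift ζ))]
      congr 1; ext ζ
      have ha := hl a List.mem_cons_self
      have : ∀ b, EL q l f (update (lift ζ) a b) = EL q l f (lift (update ζ (a : ZMod m) b)) :=
        fun b => h.EL q l _ _ fun y hy => by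
          by_cases e : y = a
          · simp [e, lift]
          · rw [update_of_ne e, lift, lift, update_of_ne fun e' => e ?_]
            rw [← valMinAbs_cast (m := m) (x := y) (by omega), e', valMinAbs_cast (by omega)]
      rw [EL_cons, Module.End.mul_apply, E_apply, E_apply, this, this]
  set l := (Icc (-ρ : ℤ) ρ).toList with hl
  have a3 : ∀ η, EL q l f η = EL q l f (fun _ => true) := fun η => by
    have e1 := Ind_agree (f := EL q l f) (Icc (-ρ : ℤ) ρ) (fun a ha => Ind_EL (by simpa [hl] using ha) f)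
      (fun x => if x.natAbs ≤ ρ then η x else true) (fun _ => true) (fun i hi => by
        rw [if_neg]; simp at hi; omega)
    rw [← e1]
    exact h.EL q l _ _ fun x hx => by simp [hx]
  rw [← a1 l, ← a2 l fun x hx => by simp [hl] at hx; omega]
  simp only [a3]
  have : (fun _ : ZMod m → Bool => EL q l f fun _ => true) = (EL q l f fun _ => true) • 1 := by
    ext; simp
  rw [this, lin_smul, ExT_one]; simp

lemma tendsto_fs (a : ℝ) : Tendsto (fun D : ℕ => ((2 * (D + 1) : ℕ) : ℝ) * (a / 2 ^ D)) atTop (𝓝 0) := by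
  have h1 := tendsto_pow_const_div_const_pow_of_one_lt 1 (one_lt_two (α := ℝ))
  have h2 := tendsto_pow_const_div_const_pow_of_one_lt 0 (one_lt_two (α := ℝ))
  have := (h1.add h2).const_mul (2 * a)
  simp only [add_zero, mul_zero] at this
  refine this.congr fun D => ?_
  push_cast; ring

lemma law_tendsto {q : ℝ} (h0 : 0 < q) (h1 : q < 1) {ν : Measure (ℤ → Bool)}
    {μ : ℝ → Measure (ℤ → Bool)} (hμ : IsLaw q ν μ) {f : (ℤ → Bool) → ℝ} (hf : IsLocal f) {t : ℝ}
    (ht : 0 ≤ t) : Tendsto (fun D : ℕ => ∫ η, sg (LT q (2 * (D + 1))) t (fun ζ => f (lift ζ))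
      (wrap (2 * (D + 1)) η) ∂ν) atTop (𝓝 (∫ η, f η ∂μ t)) := by
  obtain ⟨ρ, hρ⟩ := hf.locR
  obtain ⟨-, B, -, hB⟩ := hf.facts
  rw [tendsto_iff_dist_tendsto_zero]
  refine squeeze_zero' (Eventually.of_forall fun _ => dist_nonneg) ?_
    (tendsto_fs (Real.exp (4 * t) * (2 * B * 2 ^ ρ) * t))
  filter_upwards [eventually_ge_atTop ρ] with D hD
  have := finite_speed (m := 2 * (D + 1)) h0 h1 hμ (F := fun ζ => f (lift ζ)) (fun _ => hB _)
    hρ.lift_dep (D := D) le_rfl le_rfl ht
  simp only [hρ.lift_wrap (m := 2 * (D + 1)) (by omega), zero_add, hμ.2.1] at this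
  rw [Real.dist_eq, abs_sub_comm]
  exact this.trans (le_of_eq (by ring))

lemma law_unique {q : ℝ} (h0 : 0 < q) (h1 : q < 1) {ν : Measure (ℤ → Bool)}
    {μ μ' : ℝ → Measure (ℤ → Bool)} (hμ : IsLaw q ν μ) (hμ' : IsLaw q ν μ') {t : ℝ} (ht : 0 ≤ t) :
    μ' t = μ t := by
  have := hμ.1 t ht
  have := hμ'.1 t ht
  refine ext_of_generate_finite _ generateFrom_measurableCylinders.symm
    isPiSystem_measurableCylinders (fun A hA => ?_) (by simp)
  obtain ⟨s, S, hS, rfl⟩ := (mem_measurableCylinders A).1 hA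
  have hl : IsLocal ((cylinder s S).indicator fun _ => (1 : ℝ)) :=
    ⟨s, fun η η' h => by
      have : s.restrict η = s.restrict η' := funext fun i => h i i.2
      classical
      rw [Set.indicator_apply, Set.indicator_apply]
      exact if_congr (by rw [mem_cylinder, mem_cylinder, this]) rfl rfl⟩
  have e := tendsto_nhds_unique (law_tendsto h0 h1 hμ' hl ht) (law_tendsto h0 h1 hμ hl ht)
  rw [integral_indicator_const _ (hS.cylinder s), integral_indicator_const _ (hS.cylinder s)] at e
  simp only [smul_eq_mul, mul_one] at e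
  exact (measureReal_eq_measureReal_iff (measure_ne_top _ _) (measure_ne_top _ _)).1 e

lemma exists_torus_measure {q : ℝ} (h0 : 0 < q) (h1 : q < 1) (ν : Measure (ℤ → Bool))
    [IsProbabilityMeasure ν] (m : ℕ) [NeZero m] {t : ℝ} (ht : 0 ≤ t) :
    ∃ μ : ProbabilityMeasure (ℤ → Bool), ∀ f, IsLocal f →
      ∫ η, f η ∂(μ : Measure (ℤ → Bool)) = IW m ν (sg (LT q m) t fun ζ => f (lift ζ)) := by
  classical
  set Φ : ((ZMod m → Bool) → ℝ) →ₗ[ℝ] ℝ := (IW m ν).comp (sg (LT q m) t).toLinearMap with hΦ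
  set w : (ZMod m → Bool) → ℝ := fun ζ => Φ fun y => if ζ = y then 1 else 0 with hw
  have w0 : ∀ ζ, 0 ≤ w ζ := fun ζ => IW_pos ν _ (sg_nonneg (LT_pos h0 h1) ht fun y => by
    simp only [Pi.zero_apply]; split_ifs <;> norm_num)
  have w1 : ∑ ζ, w ζ = 1 := by
    have := LinearMap.pi_apply_eq_sum_univ Φ 1
    simp only [Pi.one_apply, one_smul] at this
    rw [← this]
    show IW m ν (sg (LT q m) t 1) = 1
    rw [sg_fixed LT_one, IW_one]
  refine ⟨⟨∑ ζ, ENNReal.ofReal (w ζ) • Measure.dirac (lift ζ), ⟨?_⟩⟩, fun f hf => ?_⟩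
  · simp only [Measure.finsetSum_apply, Measure.smul_apply, measure_univ, smul_eq_mul, mul_one]
    rw [← ENNReal.ofReal_sum_of_nonneg fun ζ _ => w0 ζ, w1, ENNReal.ofReal_one]
  · show ∫ η, f η ∂(∑ ζ, ENNReal.ofReal (w ζ) • Measure.dirac (lift ζ)) = Φ fun ζ => f (lift ζ)
    rw [integral_finsetSum_measure fun ζ _ =>
      (hf.integrable _).smul_measure ENNReal.ofReal_ne_top, LinearMap.pi_apply_eq_sum_univ]
    refine sum_congr rfl fun ζ _ => ?_
    rw [integral_smul_measure, integral_dirac, ENNReal.toReal_ofReal (w0 ζ), smul_eq_mul,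
      smul_eq_mul, mul_comm]

lemma taylor_two {g g1 g2 : ℝ → ℝ} {B : ℝ} (h1 : ∀ s, HasDerivAt g (g1 s) s)
    (h2 : ∀ s, HasDerivAt g1 (g2 s) s) (hB : ∀ s, 0 ≤ s → |g2 s| ≤ B) {s t : ℝ} (hs : 0 ≤ s)
    (ht : 0 ≤ t) : |g s - g t - (s - t) * g1 t| ≤ B * (s - t) ^ 2 := by
  have B0 : 0 ≤ B := (abs_nonneg _).trans (hB 0 le_rfl)
  have a1 : ∀ x, 0 ≤ x → ‖g1 x - g1 t‖ ≤ B * ‖x - t‖ := fun x hx =>
    (convex_Ici 0).norm_image_sub_le_of_norm_hasDerivWithin_le
      (fun y _ => (h2 y).hasDerivWithinAt) (fun y hy => hB y hy) ht hx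
  have a2 := (convex_uIcc t s).norm_image_sub_le_of_norm_hasDerivWithin_le
    (f := fun x => g x - x * g1 t) (f' := fun x => g1 x - g1 t) (C := B * |s - t|)
    (fun y _ => (((h1 y).fun_sub ((hasDerivAt_id' y).mul_const (g1 t))).congr_deriv
      (by ring)).hasDerivWithinAt)
    (fun y hy => (a1 y ((le_min ht hs).trans hy.1)).trans
      (mul_le_mul_of_nonneg_left (Set.abs_sub_left_of_mem_uIcc hy) B0))
    Set.left_mem_uIcc Set.right_mem_uIcc
  rw [Real.norm_eq_abs, Real.norm_eq_abs, mul_assoc, ← sq, sq_abs] at a2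
  convert a2 using 2; ring

theorem exists_law {q : ℝ} (h0 : 0 < q) (h1 : q < 1) (ν : Measure (ℤ → Bool))
    [IsProbabilityMeasure ν] : ∃ μ, IsLaw q ν μ := by
  classical
  choose P hP using fun (n : ℕ) (t : ℝ) =>
    exists_torus_measure h0 h1 ν (n + 1) (le_max_right t 0)
  have hl : ∀ t, ∃ x : ProbabilityMeasure (ℤ → Bool),
      Tendsto (fun n => P n t) (hyperfilter ℕ) (𝓝 x) := fun t => by
    obtain ⟨x, -, hx⟩ := isCompact_univ.ultrafilter_le_nhds
      ((hyperfilter ℕ).map fun n => P n t) (by simp)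
    exact ⟨x, hx⟩
  choose Q hQ using hl
  have hU : (hyperfilter ℕ : Filter ℕ) ≤ atTop := Nat.hyperfilter_le_atTop
  have lim : ∀ f, IsLocal f → ∀ t, 0 ≤ t → Tendsto
      (fun n => IW (n + 1) ν (sg (LT q (n + 1)) t fun ζ => f (lift ζ))) (hyperfilter ℕ)
      (𝓝 (∫ η, f η ∂(Q t : Measure (ℤ → Bool)))) := by
    intro f hf t ht
    have := ProbabilityMeasure.tendsto_iff_forall_integral_tendsto.1 (hQ t)
      (BoundedContinuousFunction.mkOfCompact ⟨f, hf.facts.1⟩)
    refine this.congr fun n => ?_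
    have e := hP n t f hf
    rw [max_eq_left ht] at e
    exact e
  set μ : ℝ → Measure (ℤ → Bool) := fun t => if t = 0 then ν else Q t with hμ
  have lim' : ∀ f, IsLocal f → ∀ t, 0 ≤ t → Tendsto
      (fun n => IW (n + 1) ν (sg (LT q (n + 1)) t fun ζ => f (lift ζ))) (hyperfilter ℕ)
      (𝓝 (∫ η, f η ∂μ t)) := by
    intro f hf t ht
    by_cases h : t = 0
    · obtain ⟨ρ, hρ⟩ := hf.locR
      refine tendsto_const_nhds.congr' (((eventually_ge_atTop (2 * ρ)).filter_mono hU).mono
        fun n hn => ?_)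
      simp only [h, hμ, if_true, sg_zero, IW_apply, hρ.lift_wrap (m := n + 1) (by omega)]
    · simpa only [hμ, h, if_false] using lim f hf t ht
  refine ⟨μ, fun t _ => ?_, if_pos rfl, fun f hf t ht => ?_⟩
  · simp only [hμ]; split_ifs <;> infer_instance
  obtain ⟨ρ, hρ⟩ := hf.locR
  obtain ⟨-, B, B0, hB⟩ := ((hρ.gen q).gen q).isLocal.facts
  have key : ∀ s, 0 ≤ s → |∫ η, f η ∂μ s - ∫ η, f η ∂μ t - (s - t) * ∫ η, gen q f η ∂μ t| ≤
      B * (s - t) ^ 2 := by
    intro s hs
    refine le_of_tendsto (((lim' f hf s hs).sub (lim' f hf t ht)).sub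
      ((lim' _ (hρ.gen q).isLocal t ht).const_mul (s - t))).abs
      (((eventually_ge_atTop (2 * (ρ + 1))).filter_mono hU).mono fun n hn => ?_)
    refine taylor_two (g := fun s => IW (n + 1) ν (sg (LT q (n + 1)) s fun ζ => f (lift ζ)))
      (g1 := fun s => IW (n + 1) ν (sg (LT q (n + 1)) s fun ζ => gen q f (lift ζ)))
      (g2 := fun s => IW (n + 1) ν (sg (LT q (n + 1)) s fun ζ => gen q (gen q f) (lift ζ)))
      (fun s => ?_) (fun s => ?_) (fun s hs => ?_) hs ht
    · rw [← LT_lift hρ (by omega)]; exact hasDerivAt_lin _ (hasDerivAt_sg _ _ s)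
    · rw [← LT_lift (hρ.gen q) (by omega)]; exact hasDerivAt_lin _ (hasDerivAt_sg _ _ s)
    · have := (IW_pos (m := n + 1) ν).abs_le (g := B • 1) fun ζ => by
        simpa using sg_abs_le (LT_pos h0 h1) (by rw [LT_one])
          (f := fun ζ => gen q (gen q f) (lift ζ)) (fun _ => hB _) hs ζ
      rwa [lin_smul, IW_one, mul_one] at this
  rw [hasDerivWithinAt_iff_isLittleO]
  refine Asymptotics.IsBigO.trans_isLittleO (g := fun s => (s - t) ^ 2) ?_
    ((Asymptotics.isLittleO_pow_sub_sub t one_lt_two).mono nhdsWithin_le_nhds |>.congr_left ?_)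
  · refine Asymptotics.IsBigO.of_bound B (eventually_nhdsWithin_of_forall fun s hs => ?_)
    rw [Real.norm_eq_abs, Real.norm_eq_abs, abs_of_nonneg (sq_nonneg (s - t)), smul_eq_mul]
    exact key s hs
  · intro s; simp

end Pool.Agent.FA1f
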