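import Pool.Agent.Lib.MP_be561b_pr.Relax

/-! Pointwise relaxation on the torus from good configurations. -/

namespace Pool.Agent.FA1f

open Function Finset

section RelaxPt

variable {m : ℕ} [NeZero m] {q : ℝ}

/-- Indicator of the presence of an infection. -/
noncomputable def Zf (η : ZMod m → Bool) : ℝ := if ∃ y, η y = false then 1 else 0

lemma LT_Zf (hm : 2 ≤ m) : LT q m Zf = 0 := by
  ext η
  rw [LT_apply]
  refine sum_eq_zero fun x _ => ?_
  by_cases hc : η (x - 1) = false ∨ η (x + 1) = false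
  · have h1 := one_ne_zero_zmod hm
    have a : x - 1 ≠ x := by simpa [sub_eq_iff_eq_add] using h1
    have a' : x + 1 ≠ x := by simpa using h1
    have e : ∀ b, Zf (update η x b) = 1 := fun b => if_pos (by
      rcases hc with h | h
      · exact ⟨x - 1, by rwa [update_of_ne a]⟩
      · exact ⟨x + 1, by rwa [update_of_ne a']⟩)
    have e' : Zf η = 1 := if_pos (by rcases hc with h | h <;> exact ⟨_, h⟩)
    rw [E_apply, e, e, e']; ring
  · rw [cT, if_neg hc, zero_mul]

lemma far_le {θ : ℝ} (t1 : 1 ≤ θ) (x : ZMod m) (η : ZMod m → Bool) {j : ℕ} (h : j ≤ xi x η) :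
    1 ≤ (1 - Zf η) + (θ ^ j)⁻¹ * WL θ x η := by
  unfold Zf WL
  split_ifs
  · rw [sub_self, zero_add, le_inv_mul_iff₀ (by positivity), mul_one]
    exact pow_le_pow_right₀ t1 h
  · simp

lemma sg_far (h0 : 0 < q) (h1 : q < 1) (hm : 2 ≤ m) {θ : ℝ} (x : ZMod m)
    {F : (ZMod m → Bool) → ℝ} {j : ℕ} (hF : ∀ η, F η ≤ (1 - Zf η) + (θ ^ j)⁻¹ * WL θ x η)
    {ζ : ZMod m → Bool} (hζ : ∃ y, ζ y = false) {s : ℝ} (hs : 0 ≤ s) :
    sg (LT q m) s F ζ ≤ (θ ^ j)⁻¹ * sg (LT q m) s (WL θ x) ζ := by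
  have := sg_mono (LT_pos h0 h1) hs (f := F) (g := (1 - Zf) + (θ ^ j)⁻¹ • WL θ x) hF ζ
  rw [map_add, map_sub, map_smul, sg_fixed LT_one, sg_fixed (LT_Zf hm)] at this
  simpa [Zf, hζ] using this

lemma relax_point (h0 : 0 < q) (h1 : q < 1) {k : ℕ} (hk1 : 1 ≤ k)
    (hk : 2 * (k + 1) * (1 - q) ^ k ≤ 1 / 2) (hm2 : 2 ≤ m) {J r n N : ℕ}
    (hN : 4 * r + 1 + n = N + 1) (hm : J * (N + 1) = m) (x0 : ZMod m) (c : ℕ) {T : ℝ} (hT : 0 ≤ T)
    {θ C : ℝ} (t1 : 1 ≤ θ) (C0 : 0 ≤ C)
    (hp : ∀ x η t, 0 ≤ t → sg (LT q m) t (WL θ x) η ≤ C * (WL θ x η + 1))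
    {ζ : ZMod m → Bool} (hζ : ∀ j < J, xi (ln x0 (j * (N + 1)) (2 * r)) ζ ≤ r)
    {F : (ZMod m → Bool) → ℝ} {B V : ℝ} (hB : ∀ η, |F η| ≤ B)
    (hV : ExT q m (sg (LT q m) T F * sg (LT q m) T F) ≤ V) :
    |sg (LT q m) (T + T) F ζ| ≤
      √((Real.exp (-(2 * (c / Gam q k)) * T) / ps q ^ m +
        4 ^ J / ps q ^ (2 * c * n + J * (4 * r + 1))) * V) +
      c / Gam q k * B * (J * (2 * C / θ ^ r)) * T := by
  have hA := LT_pos (m := m) h0 h1
  have G0 := Gam_pos h0 h1 hk1
  have pp := ps_pos h0 h1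
  have B0 : 0 ≤ B := (abs_nonneg _).trans (hB ζ)
  have J0 : 0 < J := by
    rcases Nat.eq_zero_or_pos J with h | h
    · rw [h] at hm; omega
    · exact h
  have Nm : N + 1 ≤ m := by rw [← hm]; exact Nat.le_mul_of_pos_left _ J0
  set lam := c / Gam q k with hlam
  have l0 : 0 ≤ lam := by positivity
  set G := sg (LT q m) T F with hG
  have Gb : ∀ η, |G η| ≤ B := sg_abs_le hA (by rw [LT_one]) hB hT
  have s1 := nash_kill h0 h1 hk1 hk hm2 hN hm x0 c hT ζ G
  have s2 := Real.abs_le_sqrt (s1.trans (mul_le_mul_of_nonneg_left hV (by positivity)))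
  have hz : ∃ y, ζ y = false := by
    obtain ⟨i, -, h⟩ := xi_spec (lt_of_le_of_lt (hζ 0 J0) (by omega))
    exact ⟨_, h⟩
  have s3 : ∀ s, 0 ≤ s → sg (LT q m) s (1 - goodA x0 J (N + 1) (4 * r + 1)) ζ ≤
      J * (2 * C / θ ^ r) := by
    intro s hs
    have a1 := sg_mono hA hs (f := 1 - goodA x0 J (N + 1) (4 * r + 1))
      (g := ∑ j ∈ range J, allH (ln x0 (j * (N + 1))) 0 (4 * r + 1)) (fun η => by
        simp only [Pi.sub_apply, Pi.one_apply, Finset.sum_apply, goodA]
        split_ifs with h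
        · rw [sub_self]; exact sum_nonneg fun _ _ => allH_nonneg _ _ _ _
        · push Not at h
          obtain ⟨j, hj, h⟩ := h
          have := single_le_sum (f := fun j => allH (ln x0 (j * (N + 1))) 0 (4 * r + 1) η)
            (fun _ _ => allH_nonneg _ _ _ _) (mem_range.2 hj)
          rcases allH_cases (ln x0 (j * (N + 1))) 0 (4 * r + 1) η with h' | h'
          · simp only [h'.1] at this; linarith
          · exact absurd h'.1 h) ζ
    rw [map_sum, Finset.sum_apply] at a1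
    have a2 : ∀ j ∈ range J, sg (LT q m) s (allH (ln x0 (j * (N + 1))) 0 (4 * r + 1)) ζ ≤
        2 * C / θ ^ r := by
      intro j hj
      rw [mem_range] at hj
      set x := ln x0 (j * (N + 1)) (2 * r) with hx
      refine (sg_far h0 h1 hm2 (θ := θ) x (j := 2 * r + 1) (fun η => ?_) hz hs).trans ?_
      · rcases allH_cases (ln x0 (j * (N + 1))) 0 (4 * r + 1) η with h' | h'
        · rw [h'.1]
          refine far_le t1 x η ?_
          by_contra hc
          obtain ⟨i, hi, h2⟩ := xi_spec (z := x) (η := η) (by omega)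
          obtain ⟨i', hi', e'⟩ : ∃ i' : ℕ, i' < 4 * r + 1 ∧ (i' : ℤ) = 2 * r + i :=
            ⟨(2 * r + i).toNat, by omega, by omega⟩
          have : x + (i : ZMod m) = ln x0 (j * (N + 1)) (0 + i') := by
            have e2 : (i' : ZMod m) = 2 * r + i := by
              have := congrArg (Int.cast : ℤ → ZMod m) e'
              simpa using this
            simp only [hx, ln]; push_cast; rw [e2]; ring
          rw [this, h'.2 i' hi'] at h2
          exact absurd h2 (by simp)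
        · rw [h'.1]
          have : Zf η ≤ 1 := by unfold Zf; split_ifs <;> norm_num
          have := WL_nonneg (by linarith : 0 ≤ θ) x η
          have : 0 ≤ (θ ^ (2 * r + 1))⁻¹ * WL θ x η := by positivity
          linarith
      · have b1 := hp x ζ s hs
        have b2 := (WL_le (by linarith : 0 ≤ θ) x ζ).trans (pow_le_pow_right₀ t1 (hζ j hj))
        have b3 : 1 ≤ θ ^ r := one_le_pow₀ t1
        have b4 : θ ^ r * θ ^ r ≤ θ ^ (2 * r + 1) := by
          rw [← pow_add]; exact pow_le_pow_right₀ t1 (by omega)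
        rw [inv_mul_le_iff₀ (by positivity)]
        calc sg (LT q m) s (WL θ x) ζ ≤ C * (θ ^ r + θ ^ r) := b1.trans (by gcongr)
          _ = θ ^ r * θ ^ r * (2 * C / θ ^ r) := by field_simp; ring
          _ ≤ _ := by gcongr
    have a3 := sum_le_card_nsmul _ _ _ a2
    rw [card_range, nsmul_eq_mul] at a3
    exact a1.trans a3
  have s4 := sg_duhamel_le (LT q m) (LK q x0 J (N + 1) (4 * r + 1) lam) G ζ hT
    (b := lam * B * (J * (2 * C / θ ^ r))) fun s hs => by
      have wb := sg_abs_le (LK_pos h0 h1 x0 J (N + 1) (4 * r + 1) l0) (LK_one x0 J _ _ l0) Gb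
        (sub_nonneg.2 hs.2)
      rw [LK_apply, sub_sub_cancel]
      refine (sg_abs_le_of_le hA (W := (lam * B) • (1 - goodA x0 J (N + 1) (4 * r + 1)))
        (fun η => ?_) hs.1 ζ).trans ?_
      · simp only [Pi.smul_apply, Pi.mul_apply, Pi.sub_apply, Pi.one_apply, smul_eq_mul]
        rcases goodA_cases x0 J (N + 1) (4 * r + 1) η with h | h
        · simp [h]
        · rw [h, sub_zero, one_mul, mul_one, abs_mul, abs_of_nonneg l0]
          exact mul_le_mul_of_nonneg_left (wb η) l0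
      · rw [map_smul]
        exact mul_le_mul_of_nonneg_left (s3 s hs.1) (mul_nonneg l0 B0)
  rw [sg_add]
  have := abs_sub_abs_le_abs_sub (sg (LT q m) T G ζ) (sg (LK q x0 J (N + 1) (4 * r + 1) lam) T G ζ)
  linarith

end RelaxPt

end Pool.Agent.FA1f
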