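import Pool.Agent.Lib.MP_be561b_pr.Defs
import Pool.Agent.Lib.MP_be561b_pr.RelaxPt

/-! Comparison between the line and the torus. -/

namespace Pool.Agent.FA1f

open Function Finset MeasureTheory

/-- Dependence on the sites within distance `ρ` of the origin. -/
def LocR (ρ : ℕ) (f : (ℤ → Bool) → ℝ) : Prop :=
  ∀ η η', (∀ x : ℤ, x.natAbs ≤ ρ → η x = η' x) → f η = f η'

lemma IsLocal.locR {f : (ℤ → Bool) → ℝ} (h : IsLocal f) : ∃ ρ, LocR ρ f := by
  obtain ⟨s, hs⟩ := h
  exact ⟨s.sup Int.natAbs, fun η η' h => hs fun x hx => h x (le_sup (f := Int.natAbs) hx)⟩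

lemma LocR.isLocal {ρ : ℕ} {f : (ℤ → Bool) → ℝ} (h : LocR ρ f) : IsLocal f :=
  ⟨Icc (-ρ : ℤ) ρ, fun η η' hs => h η η' fun x hx => hs x (by simp; omega)⟩

lemma LocR.mono {ρ ρ' : ℕ} {f : (ℤ → Bool) → ℝ} (h : LocR ρ f) (hρ : ρ ≤ ρ') : LocR ρ' f :=
  fun η η' hs => h η η' fun x hx => hs x (hx.trans hρ)

lemma IsLocal.facts {f : (ℤ → Bool) → ℝ} (h : IsLocal f) :
    Continuous f ∧ ∃ B, 0 < B ∧ ∀ η, |f η| ≤ B := by
  obtain ⟨s, hs⟩ := h
  obtain ⟨g, rfl⟩ := dependsOn_iff_exists_comp.1 hs
  refine ⟨continuous_of_discreteTopology.comp (continuous_pi fun i => continuous_apply _), ?_⟩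
  obtain ⟨B, hB⟩ := (Set.finite_range fun y => |g y|).bddAbove
  exact ⟨|B| + 1, by positivity, fun η => (hB ⟨_, rfl⟩).trans (by linarith [le_abs_self B])⟩

lemma IsLocal.integrable {f : (ℤ → Bool) → ℝ} (h : IsLocal f) (μ : Measure (ℤ → Bool))
    [IsFiniteMeasure μ] : Integrable f μ := by
  obtain ⟨h1, B, -, h2⟩ := h.facts
  exact Integrable.of_bound h1.aestronglyMeasurable B (Filter.Eventually.of_forall h2)

lemma gen_eq_sum (q : ℝ) {f : (ℤ → Bool) → ℝ} (s : Finset ℤ) (h : ∀ x ∉ s, Ind x f)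
    (η : ℤ → Bool) : gen q f η = ∑ x ∈ s, cT x η * (E q x f η - f η) := by
  have e : ∀ x, (if η (x - 1) = false ∨ η (x + 1) = false then
      (if η x = true then q else 1 - q) * (f (update η x (!η x)) - f η) else 0) =
      cT x η * (E q x f η - f η) := fun x => by
    unfold cT
    have := update_eq_self x η
    rw [E_apply]
    cases hx : η x <;> rw [hx] at this <;> rw [this] <;> split_ifs <;> simp_all <;> ring
  unfold gen
  simp only [e]
  refine finsum_eq_sum_of_support_subset _ fun x hx => ?_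
  by_contra hc
  exact hx (by simp only []; rw [(h x hc).E_eq, sub_self, mul_zero])

lemma LocR.ind {ρ : ℕ} {f : (ℤ → Bool) → ℝ} (h : LocR ρ f) {x : ℤ} (hx : x ∉ Icc (-ρ : ℤ) ρ) :
    Ind x f := fun η b => h _ _ fun y hy => update_of_ne (by rintro rfl; simp at hx; omega) _ _

lemma LocR.update {ρ : ℕ} {f : (ℤ → Bool) → ℝ} (h : LocR ρ f) (x : ℤ) (b : Bool) :
    LocR ρ (fun η => f (update η x b)) := fun η η' hs => h _ _ fun y hy => by
  by_cases e : y = x <;> simp [e, hs y hy]

lemma LocR.gen {ρ : ℕ} {f : (ℤ → Bool) → ℝ} (h : LocR ρ f) (q : ℝ) : LocR (ρ + 1) (gen q f) := by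
  intro η η' hs
  rw [gen_eq_sum q _ fun x hx => h.ind hx, gen_eq_sum q _ fun x hx => h.ind hx]
  refine sum_congr rfl fun x hx => ?_
  rw [mem_Icc] at hx
  have h' := h.mono (Nat.le_succ ρ)
  have c : cT x η = cT x η' :=
    if_congr (by rw [hs (x - 1) (by omega), hs (x + 1) (by omega)]) rfl rfl
  have u : ∀ b, f (Function.update η x b) = f (Function.update η' x b) := fun b =>
    h'.update x b η η' hs
  rw [c, E_apply, E_apply, u, u, h' η η' hs]

section Wrap

variable {m : ℕ} {q : ℝ}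

/-- Restriction of a configuration to a window, read on the torus. -/
def wrap (m : ℕ) (η : ℤ → Bool) : ZMod m → Bool := fun z => η z.valMinAbs

/-- Periodic extension of a configuration of the torus. -/
def lift (ζ : ZMod m → Bool) : ℤ → Bool := fun x => ζ (x : ZMod m)

lemma wrap_update (η : ℤ → Bool) (z : ZMod m) (b : Bool) :
    wrap m (update η z.valMinAbs b) = update (wrap m η) z b := by
  ext y; by_cases h : y = z <;> simp [wrap, h]

variable [NeZero m]

lemma valMinAbs_cast {x : ℤ} (h : 2 * x.natAbs < m) : (x : ZMod m).valMinAbs = x :=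
  (ZMod.valMinAbs_spec _ _).2 ⟨rfl, by constructor <;> omega⟩

lemma wrap_cast (η : ℤ → Bool) {x : ℤ} (h : 2 * x.natAbs < m) : wrap m η (x : ZMod m) = η x := by
  rw [wrap, valMinAbs_cast h]

lemma locR_wrap (G : (ZMod m → Bool) → ℝ) : LocR m (fun η => G (wrap m η)) := fun η η' hs => by
  have : wrap m η = wrap m η' := funext fun z => hs _ ((ZMod.natAbs_valMinAbs_le z).trans (by omega))
  simp only [this]

lemma LocR.lift_wrap {ρ : ℕ} {f : (ℤ → Bool) → ℝ} (h : LocR ρ f) (hm : 2 * ρ < m)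
    (η : ℤ → Bool) : f (lift (wrap m η)) = f η :=
  h _ _ fun x hx => wrap_cast η (by omega)

lemma LocR.lift_dep {ρ : ℕ} {f : (ℤ → Bool) → ℝ} (h : LocR ρ f) (η η' : ZMod m → Bool)
    (hs : ∀ y, dz y ≤ ρ → η y = η' y) : f (lift η) = f (lift η') :=
  h _ _ fun x hx => hs _ ((dz_le rfl).trans hx)

lemma gen_wrap (G : (ZMod m → Bool) → ℝ) (η : ℤ → Bool) : gen q (fun η => G (wrap m η)) η =
    ∑ z : ZMod m, cT z.valMinAbs η * (E q z G (wrap m η) - G (wrap m η)) := by
  rw [gen_eq_sum q ((univ : Finset (ZMod m)).image ZMod.valMinAbs) (f := fun η => G (wrap m η))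
    fun x hx η b => ?_, sum_image fun a _ b _ h => ZMod.injective_valMinAbs h]
  · simp only [E_apply, wrap_update]
  · have : wrap m (update η x b) = wrap m η := funext fun z =>
      update_of_ne (fun h => hx (mem_image.2 ⟨z, mem_univ _, h⟩)) _ _
    simp only [this]

lemma LT_lift {ρ : ℕ} {f : (ℤ → Bool) → ℝ} (h : LocR ρ f) (hm : 2 * ρ < m) :
    LT q m (fun ζ => f (lift ζ)) = fun ζ => gen q f (lift ζ) := by
  ext ζ
  rw [LT_apply, gen_eq_sum q _ fun x hx => h.ind hx]
  symm
  refine sum_of_injOn (fun x : ℤ => (x : ZMod m)) (fun a ha b hb hab => ?_)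
    (fun _ _ => mem_coe.2 (mem_univ _)) (fun z _ hz => ?_) fun x hx => ?_
  · simp only [coe_Icc, Set.mem_Icc] at ha hb
    rw [← valMinAbs_cast (m := m) (x := a) (by omega), ← valMinAbs_cast (m := m) (x := b) (by omega)]
    exact congrArg _ hab
  · have : ∀ b, f (lift (update ζ z b)) = f (lift ζ) := fun b => h _ _ fun x hx =>
      update_of_ne (fun e => hz ⟨x, by simp; omega, e⟩) _ _
    rw [E_apply, this, this]; ring
  · rw [mem_Icc] at hx
    have c : cT x (lift ζ) = cT (x : ZMod m) ζ := if_congr (by simp [lift]) rfl rfl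
    have : ∀ b, f (update (lift ζ) x b) = f (lift (update ζ (x : ZMod m) b)) := fun b =>
      h _ _ fun y hy => by
        by_cases e : y = x
        · simp [e, lift]
        · rw [update_of_ne e, lift, lift, update_of_ne fun e' => e ?_]
          rw [← valMinAbs_cast (m := m) (x := y) (by omega), e', valMinAbs_cast (by omega)]
    rw [c, E_apply, E_apply, this, this]

/-- Integration of a function of the window. -/
noncomputable def IW (m : ℕ) [NeZero m] (μ : Measure (ℤ → Bool)) [IsFiniteMeasure μ] :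
    ((ZMod m → Bool) → ℝ) →ₗ[ℝ] ℝ where
  toFun G := ∫ η, G (wrap m η) ∂μ
  map_add' G G' :=
    integral_add ((locR_wrap G).isLocal.integrable μ) ((locR_wrap G').isLocal.integrable μ)
  map_smul' c G := integral_const_mul c _

lemma IW_apply (μ : Measure (ℤ → Bool)) [IsFiniteMeasure μ] (G : (ZMod m → Bool) → ℝ) :
    IW m μ G = ∫ η, G (wrap m η) ∂μ := rfl

lemma IW_pos (μ : Measure (ℤ → Bool)) [IsFiniteMeasure μ] : Pos (IW m μ) :=
  fun _ hG => integral_nonneg fun _ => hG _

lemma IW_one (μ : Measure (ℤ → Bool)) [IsProbabilityMeasure μ] : IW m μ 1 = 1 := by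
  simp [IW_apply]

lemma integral_wrap_eq (μ : Measure (ℤ → Bool)) [IsFiniteMeasure μ] (G : (ZMod m → Bool) → ℝ) :
    ∫ η, G (wrap m η) ∂μ = ∑ ζ, G ζ * ∫ η, (if ζ = wrap m η then (1 : ℝ) else 0) ∂μ :=
  LinearMap.pi_apply_eq_sum_univ (IW m μ) G

lemma integral_gen_wrap_eq (μ : Measure (ℤ → Bool)) [IsFiniteMeasure μ]
    (G : (ZMod m → Bool) → ℝ) : ∫ η, gen q (fun η => G (wrap m η)) η ∂μ =
      ∑ ζ, G ζ * ∫ η, gen q (fun η => if ζ = wrap m η then (1 : ℝ) else 0) η ∂μ := by
  let Φ : ((ZMod m → Bool) → ℝ) →ₗ[ℝ] ℝ :=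
    { toFun G := ∫ η, gen q (fun η => G (wrap m η)) η ∂μ
      map_add' G G' := by
        rw [← integral_add (((locR_wrap G).gen q).isLocal.integrable μ)
          (((locR_wrap G').gen q).isLocal.integrable μ)]
        congr 1; ext η
        rw [gen_wrap, gen_wrap, gen_wrap, ← sum_add_distrib]
        refine sum_congr rfl fun z _ => ?_
        simp only [map_add, Pi.add_apply]; ring
      map_smul' c G := by
        rw [RingHom.id_apply, smul_eq_mul, ← integral_const_mul]
        congr 1; ext η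
        rw [gen_wrap, gen_wrap, mul_sum]
        refine sum_congr rfl fun z _ => ?_
        simp only [map_smul, Pi.smul_apply, smul_eq_mul]; ring }
  exact LinearMap.pi_apply_eq_sum_univ Φ G

lemma finite_speed (h0 : 0 < q) (h1 : q < 1) {ν : Measure (ℤ → Bool)} {μ : ℝ → Measure (ℤ → Bool)}
    (hμ : IsLaw q ν μ) {F : (ZMod m → Bool) → ℝ} {B : ℝ} {ρ D : ℕ} (hB : ∀ η, |F η| ≤ B)
    (hF : ∀ η η', (∀ y, dz y ≤ ρ → η y = η' y) → F η = F η') (hD : 2 * (D + 1) ≤ m)
    {a T : ℝ} (ha : 0 ≤ a) (hT : 0 ≤ T) :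
    |∫ η, F (wrap m η) ∂μ (a + T) - ∫ η, sg (LT q m) T F (wrap m η) ∂μ a| ≤
      m * (Real.exp (4 * T) * (2 * B * 2 ^ ρ / 2 ^ D)) * T := by
  have B0 : 0 ≤ B := (abs_nonneg _).trans (hB fun _ => true)
  set ε := Real.exp (4 * T) * (2 * B * 2 ^ ρ / 2 ^ D) with hε
  have ε0 : 0 ≤ ε := by positivity
  set φ : ℝ → ℝ := fun s => ∑ ζ, sg (LT q m) (a + T - s) F ζ *
    ∫ η, (if ζ = wrap m η then (1 : ℝ) else 0) ∂μ s with hφ
  set φ' : ℝ → ℝ := fun s => ∫ η, gen q (fun η => sg (LT q m) (a + T - s) F (wrap m η)) η ∂μ s -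
    ∫ η, LT q m (sg (LT q m) (a + T - s) F) (wrap m η) ∂μ s with hφ'
  have hd : ∀ s, 0 ≤ s → HasDerivWithinAt φ (φ' s) (Set.Ici 0) s := by
    intro s hs
    have := hμ.1 s hs
    have := HasDerivWithinAt.fun_sum (u := univ) fun ζ _ =>
      ((hasDerivAt_pi.1 (hasDerivAt_sg_rev (LT q m) F (a + T) s) ζ).hasDerivWithinAt
        (s := Set.Ici 0)).fun_mul
        (hμ.2.2 _ (locR_wrap fun y => if ζ = y then (1 : ℝ) else 0).isLocal s hs)
    refine this.congr_deriv ?_
    simp only [hφ']
    rw [integral_gen_wrap_eq, integral_wrap_eq, ← sum_sub_distrib]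
    refine sum_congr rfl fun ζ _ => ?_
    simp only [Pi.neg_apply]; ring
  have key := norm_image_sub_le_of_norm_deriv_right_le_segment (f := φ) (f' := φ') (a := a)
    (b := a + T) (C := m * ε)
    (fun s hs => ((hd s (ha.trans hs.1)).continuousWithinAt).mono fun x hx => ha.trans hx.1)
    (fun s hs => (hd s (ha.trans hs.1)).mono fun x hx => (ha.trans hs.1).trans hx)
    (fun s hs => by
      have := hμ.1 s (ha.trans hs.1)
      set H := sg (LT q m) (a + T - s) F with hH
      simp only [hφ']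
      rw [← integral_sub (((locR_wrap H).gen q).isLocal.integrable _)
        ((locR_wrap (LT q m H)).isLocal.integrable _)]
      refine (norm_integral_le_of_norm_le_const (C := m * ε)
        (Filter.Eventually.of_forall fun η => ?_)).trans (by simp)
      rw [gen_wrap, LT_apply, ← sum_sub_distrib, Real.norm_eq_abs]
      refine (abs_sum_le_sum_abs _ _).trans ?_
      have : ∀ z ∈ (univ : Finset (ZMod m)),
          |cT z.valMinAbs η * (E q z H (wrap m η) - H (wrap m η)) -
            cT z (wrap m η) * (E q z H (wrap m η) - H (wrap m η))| ≤ ε := by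
        intro z _
        by_cases hz : D ≤ dz z
        · have o := EL_osc h0 h1 [z] (u := H) (ε := ε) (fun a' ha' η c => by
            rw [List.mem_singleton.1 ha']
            refine (osc_sg h0 h1 hB hF (by linarith [hs.2]) η _ c).trans ?_
            rw [hε]
            gcongr
            · linarith [hs.1]
            · exact one_le_two) (wrap m η)
          rw [EL_single, List.length_singleton, Nat.cast_one, one_mul] at o
          rw [← sub_mul, abs_mul]
          refine (mul_le_mul ?_ o (abs_nonneg _) zero_le_one).trans (by rw [one_mul])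
          rw [abs_le]
          constructor <;> linarith [cT_nonneg z.valMinAbs η, cT_le_one z.valMinAbs η,
            cT_nonneg z (wrap m η), cT_le_one z (wrap m η)]
        · have e1 : wrap m η (z - 1) = η (z.valMinAbs - 1) := by
            rw [← wrap_cast (m := m) η (by unfold dz at hz; omega)]; simp
          have e2 : wrap m η (z + 1) = η (z.valMinAbs + 1) := by
            rw [← wrap_cast (m := m) η (by unfold dz at hz; omega)]; simp
          have : cT z.valMinAbs η = cT z (wrap m η) := if_congr (by rw [e1, e2]) rfl rfl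
          rw [this, sub_self, abs_zero]; exact ε0
      simpa using sum_le_card_nsmul _ _ _ this) (a + T) ⟨by linarith, le_rfl⟩
  have := hμ.1 (a + T) (by linarith)
  have := hμ.1 a ha
  simp only [hφ, sub_self, sg_zero, add_sub_cancel_left, Real.norm_eq_abs] at key
  rwa [← integral_wrap_eq, ← integral_wrap_eq] at key

end Wrap

end Pool.Agent.FA1f
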