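import Pool.Agent.Lib.MP_be561b_pr.Gap

/-! Gap with a buffer, and a Nash inequality for block dynamics. -/

namespace Pool.Agent.FA1f

open Function Finset

section Nash

variable {I : Type*} [DecidableEq I] {q : ℝ} {Ex : ((I → Bool) → ℝ) →ₗ[ℝ] ℝ}

omit [DecidableEq I] in
lemma one_sub_allH (e : ℕ → I) (a b : ℕ) :
    1 - allH e a b = ∑ z ∈ range b, allH e a z * zr (e (a + z)) := by
  induction b with
  | zero => simp [allH]
  | succ b ih => rw [sum_range_succ, ← ih, allH_succ]; ring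

lemma gap_two (h0 : 0 < q) (h1 : q < 1) (hP : Pos Ex) {k : ℕ} (hk1 : 1 ≤ k)
    (hk : 2 * (k + 1) * (1 - q) ^ k ≤ 1 / 2) {e : ℕ → I} {N b n : ℕ} (hbn : b + n = N + 1)
    (he : ∀ i ≤ N, ∀ j ≤ N, e i = e j → i = j) (hI : ∀ l ≤ N, Inv q Ex (e l))
    (f : (I → Bool) → ℝ) :
    Ex ((1 - allH e 0 b) * ((f - EL q (seg e b n) f) * (f - EL q (seg e b n) f))) ≤
      Gam q k * (q * (1 - q)) * ∑ i ∈ range N, TT Ex e f 1 (i + 1) := by
  set Tot : (I → Bool) → ℝ := ∑ i ∈ range N, zr (e i) * (grad (e (i + 1)) f * grad (e (i + 1)) f)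
    with hTot
  have hG : 0 ≤ Gam q k * (q * (1 - q)) := by
    have := one_le_C h0 h1
    have : 0 < 1 - q := by linarith
    unfold Gam; positivity
  have hterm : ∀ i η, 0 ≤ (zr (e i) * (grad (e (i + 1)) f * grad (e (i + 1)) f)) η :=
    fun i η => mul_nonneg (zr_nonneg _ _) (mul_self_nonneg _)
  have hTot0 : ∀ η, 0 ≤ Tot η := fun η => by
    rw [hTot, Finset.sum_apply]; exact sum_nonneg fun i _ => hterm i η
  have key : ∀ z ∈ range b, Ex ((allH e 0 z * zr (e (0 + z))) *
      ((f - EL q (seg e b n) f) * (f - EL q (seg e b n) f))) ≤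
      Gam q k * (q * (1 - q)) * Ex ((allH e 0 z * zr (e (0 + z))) * Tot) := by
    intro z hz
    rw [mem_range] at hz
    rw [zero_add]
    set w := allH e 0 z * zr (e z) with hw
    have hw0 : ∀ η, 0 ≤ w η := fun η => mul_nonneg (allH_nonneg _ _ _ _) (zr_nonneg _ _)
    set Ew : ((I → Bool) → ℝ) →ₗ[ℝ] ℝ := Ex.comp (LinearMap.mulLeft ℝ w) with hEw
    have hEw' : ∀ g, Ew g = Ex (w * g) := fun g => rfl
    have hPw : Pos Ew := fun g hg => hP _ fun η => mul_nonneg (hw0 η) (hg η)
    have hIw : ∀ l, z < l → l ≤ N → Inv q Ew (e l) := fun l hl hl' g => by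
      have : Ind (e l) w := (Ind_allH fun i hi hh => by
        have := he _ hl' _ (by omega) hh; omega).mul
        (Ind_zr fun hh => by have := he _ hl' _ (by omega) hh; omega)
      rw [hEw', hEw', ← this.E_mul, hI l hl']
    have g1 := gap_one h0 h1 hPw hk1 hk (e := fun i => e (z + i)) (N := N - z)
      (fun i hi j hj hh => by have := he _ (by omega) _ (by omega) hh; omega)
      (fun l hl hl' => hIw _ (by omega) (by omega))
      (fun g => by
        rw [hEw', hEw']; congr 1; ext η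
        simp only [hw, Pi.mul_apply, add_zero]
        linear_combination (allH e 0 z η * g η) * zr_mul_self (e z) η) f
    set R := EL q (seg (fun i => e (z + i)) 1 (N - z)) with hR
    set Q := EL q (seg e b n) with hQ
    have hQp : Proj Ew Q := Proj_EL fun a ha => by
      obtain ⟨l, hl, rfl⟩ := mem_seg.1 ha
      exact hIw _ (by omega) (by omega)
    have hQR : Q * R = R := EL_absorb fun a ha => by
      obtain ⟨l, hl, rfl⟩ := mem_seg.1 ha
      exact mem_seg.2 ⟨b + l - z - 1, by omega, by congr 1; omega⟩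
    have g2 : Ew ((f - Q f) * (f - Q f)) ≤ Ew ((f - R f) * (f - R f)) := by
      have a1 := hQp.sub_sq (f - R f)
      have a2 := hPw.sq_nonneg (Q (f - R f))
      have a3 : f - R f - Q (f - R f) = f - Q f := by
        rw [map_sub, ← Module.End.mul_apply Q R, hQR]; abel
      rw [a3] at a1; linarith
    have g3 : ∑ i ∈ range (N - z), TT Ew (fun i => e (z + i)) f 1 (i + 1) ≤ Ew Tot := by
      unfold TT
      rw [← map_sum]
      refine hPw.mono fun η => ?_
      rw [hTot, Finset.sum_apply, Finset.sum_apply]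
      have := sum_Ico_eq_sum_range
        (fun i => (zr (e i) * (grad (e (i + 1)) f * grad (e (i + 1)) f)) η) z N
      simp only [Nat.add_sub_cancel, ← add_assoc]
      rw [← this]
      exact sum_le_sum_of_subset_of_nonneg (fun i hi => by
        simp only [mem_Ico, mem_range] at *; omega) fun i _ _ => hterm i η
    exact g2.trans (g1.trans (mul_le_mul_of_nonneg_left g3 hG))
  have s1 := sum_le_sum key
  rw [← mul_sum, ← map_sum, ← map_sum, ← sum_mul, ← sum_mul, ← one_sub_allH] at s1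
  refine s1.trans (mul_le_mul_of_nonneg_left ?_ hG)
  have : Ex Tot = ∑ i ∈ range N, TT Ex e f 1 (i + 1) := by
    rw [hTot, map_sum]; rfl
  rw [← this]
  refine hP.mono fun η => ?_
  have := allH_nonneg e 0 b η
  have := hTot0 η
  simp only [Pi.mul_apply, Pi.sub_apply, Pi.one_apply]
  nlinarith

/-- The product of lazy block resamplings. -/
def PiL {V : Type*} [AddCommGroup V] [Module ℝ V] (θ : ℝ) (l : List (Module.End ℝ V)) :
    Module.End ℝ V := (l.map fun Q => θ • 1 + (1 - θ) • Q).prod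

lemma nash_abstract {X : Type*} {Ex : (X → ℝ) →ₗ[ℝ] ℝ} (hP : Pos Ex) {θ : ℝ} (t0 : 0 ≤ θ)
    (t1 : θ ≤ 1) (c : ℕ) (l : List (Module.End ℝ (X → ℝ))) (hp : ∀ Q ∈ l, Proj Ex Q)
    (hc : ∀ Q ∈ l, ∀ Q' ∈ l, Commute Q Q') : ∀ (k : ℕ) (u : X → ℝ),
    θ ^ (2 * c) * c * Ex (u * u) ≤ θ ^ (2 * c) * (k * Ex (u * u) +
      (l.map fun Q => Ex ((u - Q u) * (u - Q u))).sum) +
      c * θ ^ (2 * k) * Ex (PiL θ l u * PiL θ l u) := by
  induction l with
  | nil =>
    intro k u
    have hN := hP.sq_nonneg u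
    simp only [List.map_nil, List.sum_nil, add_zero, PiL, List.prod_nil, Module.End.one_apply]
    have a1 : 0 ≤ θ ^ (2 * c) := pow_nonneg t0 _
    have a2 : 0 ≤ θ ^ (2 * k) := pow_nonneg t0 _
    have a3 : θ ^ (2 * c) * c ≤ θ ^ (2 * c) * k + c * θ ^ (2 * k) := by
      by_cases h : c ≤ k
      · have : (c : ℝ) ≤ k := by exact_mod_cast h
        nlinarith [mul_nonneg (Nat.cast_nonneg (α := ℝ) c) a2]
      · have := pow_le_pow_of_le_one t0 t1 (show 2 * k ≤ 2 * c by omega)
        nlinarith [mul_nonneg (Nat.cast_nonneg (α := ℝ) k) a1,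
          mul_le_mul_of_nonneg_left this (Nat.cast_nonneg (α := ℝ) c)]
    nlinarith [mul_le_mul_of_nonneg_right a3 hN]
  | cons Q l ih =>
    intro k u
    have hQ := hp Q List.mem_cons_self
    have ih' := ih (fun Q' h => hp Q' (List.mem_cons_of_mem _ h))
      (fun Q' h Q'' h' => hc Q' (List.mem_cons_of_mem _ h) Q'' (List.mem_cons_of_mem _ h'))
    have i1 := ih' k (Q u)
    have i2 := ih' (k + 1) (u - Q u)
    have split : ∀ T : Module.End ℝ (X → ℝ), Commute Q T → ∀ s : ℝ,
        Ex ((T (Q u) + s • T (u - Q u)) * (T (Q u) + s • T (u - Q u))) =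
        Ex (T (Q u) * T (Q u)) + s ^ 2 * Ex (T (u - Q u) * T (u - Q u)) := by
      intro T hT s
      have e1 : T (Q u) = Q (T u) :=
        (congrArg (fun R : Module.End ℝ (X → ℝ) => R u) hT.eq).symm
      rw [map_sub, e1]; exact hQ.pyth (T u) s
    have split1 : ∀ T : Module.End ℝ (X → ℝ), Commute Q T → Ex (T u * T u) =
        Ex (T (Q u) * T (Q u)) + Ex (T (u - Q u) * T (u - Q u)) := by
      intro T hT
      have := split T hT 1
      rwa [one_smul, ← map_add, add_sub_cancel, one_pow, one_mul] at this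
    have a1 := split1 1 (Commute.one_right _)
    simp only [Module.End.one_apply] at a1
    have a2 : (l.map fun Q' => Ex ((u - Q' u) * (u - Q' u))).sum =
        (l.map fun Q' => Ex ((Q u - Q' (Q u)) * (Q u - Q' (Q u)))).sum +
        (l.map fun Q' => Ex ((u - Q u - Q' (u - Q u)) * (u - Q u - Q' (u - Q u)))).sum := by
      rw [← List.sum_map_add]
      congr 1
      refine List.map_congr_left fun Q' h => ?_
      exact split1 (1 - Q') ((Commute.one_right _).sub_right
        (hc Q List.mem_cons_self Q' (List.mem_cons_of_mem _ h)))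
    have hcP : Commute Q (PiL θ l) := Commute.list_prod_right _ _ fun x hx => by
      obtain ⟨Q', h, rfl⟩ := List.mem_map.1 hx
      exact ((Commute.one_right _).smul_right _).add_right
        ((hc Q List.mem_cons_self Q' (List.mem_cons_of_mem _ h)).smul_right _)
    have a3 : PiL θ (Q :: l) u = PiL θ l (Q u) + θ • PiL θ l (u - Q u) := by
      have e1 : PiL θ l (Q u) = Q (PiL θ l u) :=
        (congrArg (fun R : Module.End ℝ (X → ℝ) => R u) hcP.eq).symm
      rw [map_sub, e1]
      show (θ • (1 : Module.End ℝ (X → ℝ)) + (1 - θ) • Q) (PiL θ l u) = _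
      simp only [LinearMap.add_apply, LinearMap.smul_apply, Module.End.one_apply]
      module
    rw [a3, split _ hcP, List.map_cons, List.sum_cons, a2, a1]
    push_cast at i2
    rw [show θ ^ (2 * (k + 1)) = θ ^ (2 * k) * θ ^ 2 by ring] at i2
    linarith

lemma PiL_bound (h0 : 0 < q) (h1 : q < 1) {n : ℕ} (bs : List (List I))
    (hb : ∀ B ∈ bs, B.length = n) {u : (I → Bool) → ℝ} (hu : 0 ≤ u) :
    0 ≤ PiL (ps q ^ n) (bs.map (EL q)) u ∧
      PiL (ps q ^ n) (bs.map (EL q)) u ≤ (2 : ℝ) ^ bs.length • EL q bs.flatten u := by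
  induction bs with
  | nil => exact ⟨hu, by simp [PiL]⟩
  | cons B bs ih =>
    obtain ⟨i1, i2⟩ := ih fun B' h => hb B' (List.mem_cons_of_mem _ h)
    set v := PiL (ps q ^ n) (bs.map (EL q)) u with hv
    have e : PiL (ps q ^ n) ((B :: bs).map (EL q)) u =
        ps q ^ n • v + (1 - ps q ^ n) • EL q B v := rfl
    have p0 : 0 ≤ ps q ^ n := pow_nonneg (ps_pos h0 h1).le _
    have p1 : ps q ^ n ≤ 1 := pow_le_one₀ (ps_pos h0 h1).le (ps_le_one q)
    have n1 := EL_nonneg h0 h1 B i1
    rw [e]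
    refine ⟨add_nonneg (smul_nonneg p0 i1) (smul_nonneg (by linarith) n1), fun η => ?_⟩
    have a1 := EL_lower h0 h1 B i1 η
    rw [hb B List.mem_cons_self] at a1
    have a2 := EL_mono h0 h1 B i2 η
    rw [map_smul] at a2
    have a3 : 0 ≤ EL q B v η := n1 η
    rw [List.flatten_cons, EL_append, List.length_cons, pow_succ]
    simp only [Pi.add_apply, Pi.smul_apply, smul_eq_mul, Module.End.mul_apply] at *
    nlinarith [mul_nonneg p0 a3]

lemma EL_all [Fintype I] (h1 : Ex 1 = 1) (hI : ∀ a, Inv q Ex a) {l : List I} (hl : ∀ a, a ∈ l)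
    (u : (I → Bool) → ℝ) (η : I → Bool) : EL q l u η = Ex u := by
  have : EL q l u = EL q l u η • 1 := by
    ext η'
    simp only [Pi.smul_apply, Pi.one_apply, smul_eq_mul, mul_one]
    exact Ind_agree univ (fun a _ => Ind_EL (hl a) u) _ _ (by simp)
  rw [← Ex_EL (l := l) (fun a _ => hI a) u, this, lin_smul, h1]; simp

lemma nash [Fintype I] (h0 : 0 < q) (h1 : q < 1) (hP : Pos Ex) (hE : Ex 1 = 1)
    (hI : ∀ a, Inv q Ex a) {n : ℕ} (bs : List (List I)) (hb : ∀ B ∈ bs, B.length = n)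
    (buf : List I) (hcov : ∀ a, a ∈ buf ++ bs.flatten) (c : ℕ) {u : (I → Bool) → ℝ}
    (hu : 0 ≤ u) :
    c * Ex (u * u) ≤ (bs.map fun B => Ex ((u - EL q B u) * (u - EL q B u))).sum +
      c * ((4 : ℝ) ^ bs.length / ps q ^ (2 * c * n + buf.length)) * Ex u ^ 2 := by
  have pp := ps_pos h0 h1
  have p0 : 0 < ps q ^ n := pow_pos pp _
  have p1 : ps q ^ n ≤ 1 := pow_le_one₀ pp.le (ps_le_one q)
  have a1 := nash_abstract hP p0.le p1 c (bs.map (EL q))
    (fun Q hQ => by
      obtain ⟨B, -, rfl⟩ := List.mem_map.1 hQ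
      exact Proj_EL fun a _ => hI a)
    (fun Q hQ Q' hQ' => by
      obtain ⟨B, -, rfl⟩ := List.mem_map.1 hQ
      obtain ⟨B', -, rfl⟩ := List.mem_map.1 hQ'
      exact EL_comm B B') 0 u
  obtain ⟨b1, b2⟩ := PiL_bound h0 h1 bs hb hu
  set v := PiL (ps q ^ n) (bs.map (EL q)) u
  set F := EL q bs.flatten u with hF
  have F0 : 0 ≤ F := EL_nonneg h0 h1 _ hu
  have F1 : ∀ η, ps q ^ buf.length * F η ≤ Ex u := fun η => by
    have := EL_lower h0 h1 buf F0 η
    rwa [hF, ← Module.End.mul_apply, ← EL_append, EL_all hE hI hcov] at this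
  have pb : 0 < ps q ^ buf.length := pow_pos pp _
  have c1 : Ex (v * v) ≤ (4 : ℝ) ^ bs.length / ps q ^ buf.length * Ex u ^ 2 := by
    have : Ex (v * v) ≤ Ex (((4 : ℝ) ^ bs.length / ps q ^ buf.length * Ex u) • F) := by
      refine hP.mono fun η => ?_
      have d1 : 0 ≤ v η := b1 η
      have d2 : v η ≤ 2 ^ bs.length * F η := b2 η
      have d3 : 0 ≤ F η := F0 η
      have d4 : F η ≤ Ex u / ps q ^ buf.length := by
        rw [le_div_iff₀ pb, mul_comm]; exact F1 η
      have d5 : (4 : ℝ) ^ bs.length = 2 ^ bs.length * 2 ^ bs.length := by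
        rw [← mul_pow]; norm_num
      simp only [Pi.mul_apply, Pi.smul_apply, smul_eq_mul]
      calc v η * v η ≤ (2 ^ bs.length * F η) * (2 ^ bs.length * F η) :=
            mul_self_le_mul_self d1 d2
        _ = 4 ^ bs.length * F η * F η := by rw [d5]; ring
        _ ≤ 4 ^ bs.length * (Ex u / ps q ^ buf.length) * F η := by gcongr
        _ = _ := by ring
    rw [lin_smul, hF, Ex_EL fun a _ => hI a] at this
    exact this.trans (le_of_eq (by ring))
  simp only [Nat.cast_zero, zero_mul, zero_add, mul_zero, pow_zero, mul_one, List.map_map] at a1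
  have t0 : 0 < (ps q ^ n) ^ (2 * c) := pow_pos p0 _
  have e1 : ps q ^ (2 * c * n + buf.length) = (ps q ^ n) ^ (2 * c) * ps q ^ buf.length := by
    rw [pow_add, ← pow_mul, mul_comm n]
  refine le_of_mul_le_mul_left ?_ t0
  have c2 := mul_le_mul_of_nonneg_left c1 (Nat.cast_nonneg (α := ℝ) c)
  have e2 : (ps q ^ n) ^ (2 * c) * (c * ((4 : ℝ) ^ bs.length / ps q ^ (2 * c * n + buf.length)) *
      Ex u ^ 2) = c * ((4 : ℝ) ^ bs.length / ps q ^ buf.length * Ex u ^ 2) := by
    rw [e1]; field_simp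
  rw [mul_add, e2]
  have e3 : (List.map ((fun Q : Module.End ℝ ((I → Bool) → ℝ) => Ex ((u - Q u) * (u - Q u))) ∘
    EL q) bs) = bs.map fun B => Ex ((u - EL q B u) * (u - EL q B u)) := rfl
  rw [e3] at a1
  linarith

end Nash

end Pool.Agent.FA1f
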