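import Pool.Agent.Lib.MP_be561b_pr.Xi

/-! Relaxation on the torus from good configurations. -/

namespace Pool.Agent.FA1f

open Function Finset

section Relax

variable {m : ℕ} {q : ℝ}

/-- A line of consecutive sites. -/
def ln (x0 : ZMod m) (a : ℕ) : ℕ → ZMod m := fun i => x0 + ((a + i : ℕ) : ZMod m)

lemma ln_inj {x0 : ZMod m} {a i a' i' : ℕ} (h1 : a + i < m) (h2 : a' + i' < m)
    (h : ln x0 a i = ln x0 a' i') : a + i = a' + i' := by
  simp only [ln, add_right_inj] at h
  exact Nat.ModEq.eq_of_lt_of_lt ((ZMod.natCast_eq_natCast_iff _ _ _).1 h) h1 h2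

lemma ln_surj [NeZero m] (x0 x : ZMod m) : ∃ k < m, ∀ a i, a + i = k → ln x0 a i = x :=
  ⟨(x - x0).val, ZMod.val_lt _, fun a i h => by simp [ln, h]⟩

lemma Gam_pos (h0 : 0 < q) (h1 : q < 1) {k : ℕ} (hk1 : 1 ≤ k) : 0 < Gam q k := by
  have := ps_pos h0 h1
  unfold Gam; positivity

lemma list_sum_range (f : ℕ → ℝ) (J : ℕ) : ((List.range J).map f).sum = ∑ j ∈ range J, f j := by
  induction J with
  | zero => simp
  | succ J ih => rw [List.sum_range_succ, sum_range_succ, ih]

variable [NeZero m]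

lemma sum_blocks {g : ZMod m → ℝ} (hg : ∀ x, 0 ≤ g x) (x0 : ZMod m) {J l : ℕ} (h : J * l ≤ m) :
    ∑ j ∈ range J, ∑ i ∈ range l, g (ln x0 (j * l) i) ≤ ∑ x, g x := by
  have e : ∀ J, ∑ j ∈ range J, ∑ i ∈ range l, g (ln x0 (j * l) i) =
      ∑ k ∈ range (J * l), g (ln x0 0 k) := by
    intro J
    induction J with
    | zero => simp
    | succ J ih => rw [sum_range_succ, ih, add_mul, one_mul, sum_range_add]; simp [ln]
  rw [e, ← sum_image (s := range (J * l)) (g := ln x0 0) (f := g) fun i hi j hj hh => by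
    simp only [coe_range, Set.mem_Iio] at hi hj
    have := ln_inj (by omega) (by omega) hh; omega]
  exact sum_le_sum_of_subset_of_nonneg (subset_univ _) fun x _ _ => hg x

lemma east_le (h0 : 0 < q) (h1 : q < 1) (x0 : ZMod m) {J N : ℕ} (h : J * (N + 1) ≤ m)
    (u : (ZMod m → Bool) → ℝ) :
    ∑ j ∈ range J, ∑ i ∈ range N, TT (ExT q m) (ln x0 (j * (N + 1))) u 1 (i + 1) ≤
      ∑ x, ExT q m (cT x * (grad x u * grad x u)) := by
  have hP : Pos (ExT q m) := ExT_pos h0 h1
  have g0 : ∀ x, 0 ≤ ExT q m (cT x * (grad x u * grad x u)) := fun x =>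
    hP _ fun η => mul_nonneg (cT_nonneg _ _) (mul_self_nonneg _)
  refine le_trans (sum_le_sum fun j _ => ?_) (sum_blocks g0 x0 h)
  rw [sum_range_succ']
  refine le_trans (sum_le_sum fun i _ => ?_) (le_add_of_nonneg_right (g0 _))
  refine hP.mono fun η => mul_le_mul_of_nonneg_right ?_ (mul_self_nonneg _)
  have : ln x0 (j * (N + 1)) (i + 1) - 1 = ln x0 (j * (N + 1)) (i + 1 - 1) := by
    simp only [ln, Nat.add_sub_cancel]; push_cast; ring
  unfold zr cT
  rw [this]
  split_ifs <;> simp_all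

lemma l2_decay (h0 : 0 < q) (h1 : q < 1) {k : ℕ} (hk1 : 1 ≤ k)
    (hk : 2 * (k + 1) * (1 - q) ^ k ≤ 1 / 2) (hm2 : 2 ≤ m) {b n : ℕ} (hm : b + n = m) (x0 : ZMod m)
    {F : (ZMod m → Bool) → ℝ} {B : ℝ} {ρ D : ℕ} (hB : ∀ η, |F η| ≤ B)
    (hF : ∀ η η', (∀ y, dz y ≤ ρ → η y = η' y) → F η = F η') (hmean : ExT q m F = 0)
    (hD : ∀ i < b, D ≤ dz (ln x0 0 i)) {T : ℝ} (hT : 0 ≤ T) :
    ExT q m (sg (LT q m) T F * sg (LT q m) T F) ≤ Real.exp (-(2 / Gam q k) * T) * B ^ 2 +
      ((b * (Real.exp (4 * T) * (2 * B * 2 ^ ρ / 2 ^ D))) ^ 2 + 4 * B ^ 2 * (1 - q) ^ b) := by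
  have hP : Pos (ExT q m) := ExT_pos h0 h1
  have hA := LT_pos (m := m) h0 h1
  have G0 := Gam_pos h0 h1 hk1
  have B0 : 0 ≤ B := (abs_nonneg _).trans (hB fun _ => true)
  have hp : 0 < 1 - q := by linarith
  obtain ⟨N, hN⟩ : ∃ N, m = N + 1 := ⟨m - 1, by omega⟩
  set ε := Real.exp (4 * T) * (2 * B * 2 ^ ρ / 2 ^ D) with hε
  have sqb : ∀ {f : (ZMod m → Bool) → ℝ} {c : ℝ}, (∀ η, |f η| ≤ c) → ExT q m (f * f) ≤ c ^ 2 := by
    intro f c h
    have := hP.mono (f := f * f) (g := c ^ 2 • 1) fun η => by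
      have := sq_le_sq' (abs_le.1 (h η)).1 (abs_le.1 (h η)).2
      simpa [sq] using this
    rwa [lin_smul, ExT_one, mul_one] at this
  have key := gronwall_decay (y := fun s => ExT q m (sg (LT q m) s F * sg (LT q m) s F))
    (a := 2 / Gam q k) (b := (b * ε) ^ 2 + 4 * B ^ 2 * (1 - q) ^ b) hT (by positivity)
    (fun s _ => hasDerivAt_sq_norm (ExT q m) F s) fun s hs => by
      set u := sg (LT q m) s F with hu
      set Q := EL q (seg (ln x0 0) b n) with hQ
      have ub : ∀ η, |u η| ≤ B := sg_abs_le hA (by rw [LT_one]) hB hs.1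
      have a1 := gap_two h0 h1 hP hk1 hk (e := ln x0 0) (N := N) (b := b) (n := n) (by omega)
        (fun i hi j hj hh => by have := ln_inj (by omega) (by omega) hh; omega)
        (fun l _ => ExT_inv _) u
      have a2 := east_le h0 h1 x0 (J := 1) (N := N) (by omega) u
      rw [sum_range_one, zero_mul] at a2
      have a3 := (Proj_EL (q := q) (Ex := ExT q m) (l := seg (ln x0 0) b n)
        fun a _ => ExT_inv a).sub_sq u
      have a4 : ExT q m (Q u * Q u) ≤ (b * ε) ^ 2 := by
        refine sqb fun η => ?_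
        have c1 : ∀ η, |(u - EL q (seg (ln x0 0) 0 b) u) η| ≤ b * ε := fun η => by
          have := EL_osc h0 h1 (seg (ln x0 0) 0 b) (u := u) (ε := ε) (fun a ha η c => by
            obtain ⟨i, hi, rfl⟩ := mem_seg.1 ha
            refine (osc_sg h0 h1 hB hF hs.1 η _ c).trans ?_
            have := hD i hi
            rw [hε, zero_add]
            gcongr
            · exact hs.2
            · exact one_le_two) η
          rw [length_seg, abs_sub_comm] at this
          exact this
        have c2 := EL_abs_le h0 h1 (seg (ln x0 0) b n) c1 η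
        have c3 : ExT q m u = 0 := by
          have := sg_selfadj (ExT q m) (ExT_selfadj hm2) F 1 s
          rwa [mul_one, sg_fixed LT_one, mul_one, hmean] at this
        rw [map_sub, Pi.sub_apply, ← Module.End.mul_apply _ (EL q (seg (ln x0 0) 0 b)), ← EL_append,
          EL_all (l := _ ++ _) ExT_one ExT_inv (fun x => ?_), c3, sub_zero] at c2
        · exact c2
        · obtain ⟨i, hi, h⟩ := ln_surj x0 x
          rw [List.mem_append, mem_seg, mem_seg]
          by_cases hib : i < b
          · exact Or.inr ⟨i, hib, h _ _ (by omega)⟩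
          · exact Or.inl ⟨i - b, by omega, h _ _ (by omega)⟩
      have a5 : ExT q m (allH (ln x0 0) 0 b * ((u - Q u) * (u - Q u))) ≤
          4 * B ^ 2 * (1 - q) ^ b := by
        have c1 : ExT q m (allH (ln x0 0) 0 b) = (1 - q) ^ b := by
          rw [← Ex_EL (l := seg (ln x0 0) 0 b) (fun a _ => ExT_inv a), EL_allH fun i hi j hj hh => by
            have := ln_inj (by omega) (by omega) hh; omega, lin_smul, ExT_one, mul_one]
        rw [← c1, ← lin_smul]
        refine hP.mono fun η => ?_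
        have c2 := (abs_sub (u η) (Q u η)).trans (add_le_add (ub η) (EL_abs_le h0 h1 _ ub η))
        have c3 := sq_le_sq' (abs_le.1 c2).1 (abs_le.1 c2).2
        simp only [Pi.mul_apply, Pi.sub_apply, Pi.smul_apply, smul_eq_mul]
        nlinarith [mul_le_mul_of_nonneg_left c3 (allH_nonneg (ln x0 0) 0 b η)]
      rw [sub_mul, one_mul, map_sub, a3] at a1
      rw [ExT_dirichlet hm2]
      have a6 := mul_le_mul_of_nonneg_left a2 (mul_pos G0 (mul_pos h0 hp)).le
      have a7 : ExT q m (u * u) - ((b * ε) ^ 2 + 4 * B ^ 2 * (1 - q) ^ b) ≤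
          Gam q k * (q * (1 - q) * ∑ x, ExT q m (cT x * (grad x u * grad x u))) := by linarith
      rw [← div_le_iff₀' G0] at a7
      have : -(2 / Gam q k) * (ExT q m (u * u) - ((b * ε) ^ 2 + 4 * B ^ 2 * (1 - q) ^ b)) =
          -2 * ((ExT q m (u * u) - ((b * ε) ^ 2 + 4 * B ^ 2 * (1 - q) ^ b)) / Gam q k) := by ring
      rw [this]; linarith
  simp only [sg_zero] at key
  have := mul_le_mul_of_nonneg_left (sqb hB) (Real.exp_pos (-(2 / Gam q k) * T)).le
  linarith

/-- Indicator that every buffer contains an infection. -/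
noncomputable def goodA (x0 : ZMod m) (J l b : ℕ) (η : ZMod m → Bool) : ℝ :=
  if ∀ j < J, allH (ln x0 (j * l)) 0 b η = 0 then 1 else 0

/-- The generator with killing outside the good set. -/
noncomputable def LK (q : ℝ) (x0 : ZMod m) (J l b : ℕ) (lam : ℝ) :
    ((ZMod m → Bool) → ℝ) →ₗ[ℝ] ((ZMod m → Bool) → ℝ) :=
  LT q m - lam • LinearMap.mulLeft ℝ (1 - goodA x0 J l b)

lemma LK_apply (x0 : ZMod m) (J l b : ℕ) (lam : ℝ) (f : (ZMod m → Bool) → ℝ) :
    LK q x0 J l b lam f = LT q m f - lam • ((1 - goodA x0 J l b) * f) := rfl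

omit [NeZero m] in
lemma goodA_cases (x0 : ZMod m) (J l b : ℕ) (η : ZMod m → Bool) :
    goodA x0 J l b η = 1 ∨ goodA x0 J l b η = 0 := by unfold goodA; split_ifs <;> simp

lemma LK_pos (h0 : 0 < q) (h1 : q < 1) (x0 : ZMod m) (J l b : ℕ) {lam : ℝ} (hl : 0 ≤ lam) :
    PosGen (LK q x0 J l b lam) := by
  obtain ⟨c, hc⟩ := LT_pos (m := m) h0 h1
  refine ⟨c + lam, fun f hf η => ?_⟩
  have a := hc f hf η
  have b' : 0 ≤ f η := hf η
  simp only [LK_apply, Pi.add_apply, Pi.sub_apply, Pi.smul_apply, Pi.mul_apply, Pi.one_apply,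
    smul_eq_mul, Pi.zero_apply] at *
  rcases goodA_cases x0 J l b η with h | h <;> rw [h] <;> nlinarith [mul_nonneg hl b']

lemma LK_one (x0 : ZMod m) (J l b : ℕ) {lam : ℝ} (hl : 0 ≤ lam) : LK q x0 J l b lam 1 ≤ 0 := by
  intro η
  simp only [LK_apply, LT_one, Pi.sub_apply, Pi.smul_apply, Pi.one_apply,
    smul_eq_mul, Pi.zero_apply, mul_one]
  rcases goodA_cases x0 J l b η with h | h <;> rw [h] <;> linarith

lemma nash_kill (h0 : 0 < q) (h1 : q < 1) {k : ℕ} (hk1 : 1 ≤ k)
    (hk : 2 * (k + 1) * (1 - q) ^ k ≤ 1 / 2) (hm2 : 2 ≤ m) {J b n N : ℕ} (hN : b + n = N + 1)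
    (hm : J * (N + 1) = m) (x0 : ZMod m) (c : ℕ) {T : ℝ} (hT : 0 ≤ T) (ζ : ZMod m → Bool)
    (G : (ZMod m → Bool) → ℝ) :
    sg (LK q x0 J (N + 1) b (c / Gam q k)) T G ζ ^ 2 ≤
      (Real.exp (-(2 * (c / Gam q k)) * T) / ps q ^ m + 4 ^ J / ps q ^ (2 * c * n + J * b)) *
        ExT q m (G * G) := by
  have hP : Pos (ExT q m) := ExT_pos h0 h1
  have G0 := Gam_pos h0 h1 hk1
  have hp : 0 < 1 - q := by linarith
  have pp := ps_pos h0 h1
  set lam := c / Gam q k with hlam
  have l0 : 0 ≤ lam := by positivity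
  set A := goodA x0 J (N + 1) b with hAdef
  set L := LK q x0 J (N + 1) b lam with hL
  have hA : PosGen L := LK_pos h0 h1 x0 J _ b l0
  have sa : ∀ f g, ExT q m (L f * g) = ExT q m (f * L g) := fun f g => by
    rw [hL, LK_apply, LK_apply, sub_mul (LT q m f), mul_sub f, map_sub, map_sub, ExT_selfadj hm2,
      smul_mul_assoc, mul_smul_comm, mul_assoc, mul_left_comm f]
  obtain ⟨u0, a0, b0, c0⟩ := exists_delta h0 h1 ζ
  set Z : ℝ := 4 ^ J / ps q ^ (2 * c * n + J * b) with hZ
  have jl : ∀ j < J, j * (N + 1) + (N + 1) ≤ m := fun j hj => by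
    rw [← hm]; nlinarith
  have key := gronwall_decay (y := fun s => ExT q m (sg L s u0 * sg L s u0))
    (a := 2 * lam) (b := Z) hT (by positivity)
    (fun s _ => hasDerivAt_sq_norm (ExT q m) u0 s) fun s hs => by
      set u := sg L s u0 with hu
      have u_nn : ∀ η, 0 ≤ u η := sg_nonneg hA hs.1 a0
      have Au : 0 ≤ A * u := fun η => by
        rcases goodA_cases x0 J (N + 1) b η with h | h <;> simp [hAdef, h, u_nn η]
      have a1 := nash h0 h1 hP ExT_one ExT_inv (n := n)
        ((List.range J).map fun j => seg (ln x0 (j * (N + 1))) b n)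
        (fun B hB => by obtain ⟨j, -, rfl⟩ := List.mem_map.1 hB; exact length_seg _ _ _)
        ((List.range J).map fun j => seg (ln x0 (j * (N + 1))) 0 b).flatten
        (fun x => by
          obtain ⟨i, hi, h⟩ := ln_surj x0 x
          have j1 : i / (N + 1) < J := by
            rw [Nat.div_lt_iff_lt_mul (by omega)]; omega
          have j2 := Nat.div_add_mod' i (N + 1)
          have j3 := Nat.mod_lt i (show 0 < N + 1 by omega)
          simp only [List.mem_append, List.mem_flatten, List.mem_map, List.mem_range]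
          by_cases hib : i % (N + 1) < b
          · exact Or.inl ⟨_, ⟨_, j1, rfl⟩, mem_seg.2 ⟨_, hib, h _ _ (by omega)⟩⟩
          · exact Or.inr ⟨_, ⟨_, j1, rfl⟩, mem_seg.2 ⟨i % (N + 1) - b, by omega,
              h _ _ (by omega)⟩⟩) c Au
      have e1 : ((List.range J).map fun j => seg (ln x0 (j * (N + 1))) 0 b).flatten.length =
          J * b := by
        simp [List.length_flatten, Function.comp_def, length_seg]
      rw [e1, List.length_map, List.length_range, List.map_map, ← hZ] at a1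
      have a2 : ∀ j ∈ range J, ExT q m ((A * u - EL q (seg (ln x0 (j * (N + 1))) b n) (A * u)) *
          (A * u - EL q (seg (ln x0 (j * (N + 1))) b n) (A * u))) ≤ Gam q k * (q * (1 - q)) *
          ∑ i ∈ range N, TT (ExT q m) (ln x0 (j * (N + 1))) u 1 (i + 1) := by
        intro j hj
        rw [mem_range] at hj
        have := jl j hj
        refine le_trans ?_ (gap_two h0 h1 hP hk1 hk (e := ln x0 (j * (N + 1))) hN
          (fun i hi j hj hh => by have := ln_inj (by omega) (by omega) hh; omega)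
          (fun l _ => ExT_inv _) u)
        rw [EL_mul fun a ha η c => ?_]
        · refine hP.mono fun η => ?_
          simp only [Pi.mul_apply, Pi.sub_apply, Pi.one_apply, hAdef, goodA]
          split_ifs with h
          · rw [h j hj]; simp
          · simpa using mul_nonneg (sub_nonneg.2 (allH_le_one _ _ _ _)) (mul_self_nonneg _)
        · obtain ⟨i, hi, rfl⟩ := mem_seg.1 ha
          refine if_congr (forall₂_congr fun j' hj' => ?_) rfl rfl
          rw [Ind_allH (fun i' hi' hh => ?_) η c]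
          have := jl j' hj'
          have := ln_inj (by omega) (by omega) hh
          rcases lt_trichotomy j j' with h | h | h
          · nlinarith
          · subst h; omega
          · nlinarith
      have a3 := sum_le_sum a2
      rw [← mul_sum] at a3
      have a4 := mul_le_mul_of_nonneg_left (east_le h0 h1 x0 hm.le u) (mul_pos G0 (mul_pos h0 hp)).le
      have a5 : ExT q m (A * u) ^ 2 ≤ 1 := by
        have b1 : 0 ≤ ExT q m (A * u) := hP _ Au
        have b2 : ExT q m (A * u) ≤ ExT q m (u * 1) := hP.mono fun η => by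
          rcases goodA_cases x0 J (N + 1) b η with h | h <;> simp [hAdef, h, u_nn η]
        rw [hu, sg_selfadj _ sa, b0] at b2
        have b3 := (abs_le.1 (sg_abs_le hA (LK_one x0 J _ b l0) (f := 1) (b := 1) (by simp)
          hs.1 ζ)).2
        nlinarith
      have a6 : ExT q m (u * u) = ExT q m (A * u * (A * u)) + ExT q m (u * ((1 - A) * u)) := by
        rw [← map_add]; congr 1; ext η
        rcases goodA_cases x0 J (N + 1) b η with h | h <;> simp [hAdef, h]
      have a7 : c * ExT q m (A * u * (A * u)) ≤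
          Gam q k * (q * (1 - q) * ∑ x, ExT q m (cT x * (grad x u * grad x u))) + c * Z := by
        have z0 : 0 ≤ c * Z := by positivity
        have := mul_le_mul_of_nonneg_left a5 z0
        rw [list_sum_range] at a1
        simp only [Function.comp_apply] at a1
        linarith
      rw [hL, LK_apply, mul_sub, map_sub, ExT_dirichlet hm2, mul_smul_comm, lin_smul, ← hAdef, a6]
      have a8 : lam * (ExT q m (A * u * (A * u)) - Z) ≤
          q * (1 - q) * ∑ x, ExT q m (cT x * (grad x u * grad x u)) := by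
        rw [hlam, div_mul_eq_mul_div, div_le_iff₀' G0]; linarith
      linarith
  simp only [sg_zero] at key
  rw [b0] at key
  have s1 : u0 ζ ≤ 1 / ps q ^ m := by rw [le_div_iff₀ (by positivity), mul_comm]; exact c0
  have s2 := hP.cs (sg L T u0) G
  rw [sg_selfadj _ sa, b0] at s2
  refine s2.trans (mul_le_mul_of_nonneg_right (key.trans ?_) (hP.sq_nonneg G))
  have := mul_le_mul_of_nonneg_left s1 (Real.exp_pos (-(2 * lam) * T)).le
  rw [mul_one_div] at this
  linarith

end Relax

end Pool.Agent.FA1f
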