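import Mathlib

/-! Semigroups generated by linear maps on functions on a finite set. -/

namespace Pool.Agent.FA1f

open Set

section Semi

variable {S : Type*} [Fintype S]

/-- The semigroup `exp (t A)`. -/
noncomputable def sg (A : (S → ℝ) →ₗ[ℝ] (S → ℝ)) (t : ℝ) : (S → ℝ) →L[ℝ] (S → ℝ) :=
  NormedSpace.exp (t • LinearMap.toContinuousLinearMap A)

variable (A : (S → ℝ) →ₗ[ℝ] (S → ℝ))

lemma sg_zero (f : S → ℝ) : sg A 0 f = f := by
  simp [sg]

lemma sg_add (s t : ℝ) (f : S → ℝ) : sg A (s + t) f = sg A s (sg A t f) := by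
  have : sg A (s + t) = sg A s * sg A t := by
    unfold sg
    rw [add_smul]
    let _ : NormedAlgebra ℚ ((S → ℝ) →L[ℝ] (S → ℝ)) := NormedAlgebra.restrictScalars ℚ ℝ _
    exact NormedSpace.exp_add_of_commute ((Commute.refl _).smul_left _ |>.smul_right _)
  rw [this]; rfl

lemma hasDerivAt_sg_op (t : ℝ) :
    HasDerivAt (fun t => sg A t) (sg A t * LinearMap.toContinuousLinearMap A) t :=
  hasDerivAt_exp_smul_const (LinearMap.toContinuousLinearMap A) t

lemma hasDerivAt_sg_op' (t : ℝ) :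
    HasDerivAt (fun t => sg A t) (LinearMap.toContinuousLinearMap A * sg A t) t :=
  hasDerivAt_exp_smul_const' (LinearMap.toContinuousLinearMap A) t

lemma sg_comm (t : ℝ) (f : S → ℝ) : A (sg A t f) = sg A t (A f) := by
  have := (hasDerivAt_sg_op' A t).unique (hasDerivAt_sg_op A t)
  exact congrArg (fun T : (S → ℝ) →L[ℝ] (S → ℝ) => T f) this

lemma hasDerivAt_sg (f : S → ℝ) (t : ℝ) :
    HasDerivAt (fun t => sg A t f) (sg A t (A f)) t := by
  have := (hasDerivAt_sg_op A t).clm_apply (hasDerivAt_const t f)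
  simpa using this

lemma hasDerivAt_sg' (f : S → ℝ) (t : ℝ) :
    HasDerivAt (fun t => sg A t f) (A (sg A t f)) t := by
  rw [sg_comm]; exact hasDerivAt_sg A f t

lemma hasDerivAt_sg_apply (f : S → ℝ) (x : S) (t : ℝ) :
    HasDerivAt (fun t => sg A t f x) (sg A t (A f) x) t :=
  (hasDerivAt_pi.1 (hasDerivAt_sg A f t)) x

lemma continuous_sg_apply (f : S → ℝ) (x : S) : Continuous (fun t => sg A t f x) :=
  continuous_iff_continuousAt.2 fun t => (hasDerivAt_sg_apply A f x t).continuousAt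

lemma hasDerivAt_sg_rev (f : S → ℝ) (t s : ℝ) :
    HasDerivAt (fun s => sg A (t - s) f) (-(A (sg A (t - s) f))) s := by
  have h1 : HasDerivAt (fun s : ℝ => t - s) (-1) s := by
    simpa using (hasDerivAt_id s).const_sub t
  have := (hasDerivAt_sg' A f (t - s)).scomp s h1
  simpa [Function.comp_def] using this

/-- A generator with nonnegative off-diagonal entries. -/
def PosGen (A : (S → ℝ) →ₗ[ℝ] (S → ℝ)) : Prop :=
  ∃ c : ℝ, ∀ f : S → ℝ, 0 ≤ f → 0 ≤ A f + c • f

variable {A}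

lemma exp_nonneg_aux (B : (S → ℝ) →L[ℝ] (S → ℝ)) (hB : ∀ f : S → ℝ, 0 ≤ f → 0 ≤ B f)
    (f : S → ℝ) (hf : 0 ≤ f) : 0 ≤ NormedSpace.exp B f := by
  have hp : ∀ n : ℕ, 0 ≤ (B ^ n) f := by
    intro n
    induction n with
    | zero => simpa using hf
    | succ n ih => rw [pow_succ']; exact hB _ ih
  have hs := NormedSpace.exp_series_hasSum_exp' (𝕂 := ℝ) B
  intro x
  have h2 := hs.mapL ((ContinuousLinearMap.proj x : (S → ℝ) →L[ℝ] ℝ).comp
    (ContinuousLinearMap.apply ℝ (S → ℝ) f))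
  refine h2.nonneg fun n => ?_
  simp only [ContinuousLinearMap.comp_apply, ContinuousLinearMap.apply_apply,
    smul_apply, ContinuousLinearMap.proj_apply, Pi.smul_apply, smul_eq_mul]
  exact mul_nonneg (by positivity) (hp n x)

lemma sg_nonneg (hA : PosGen A) {t : ℝ} (ht : 0 ≤ t) {f : S → ℝ} (hf : 0 ≤ f) :
    0 ≤ sg A t f := by
  obtain ⟨c, hc⟩ := hA
  set B : (S → ℝ) →L[ℝ] (S → ℝ) := t • (LinearMap.toContinuousLinearMap A + c • 1) with hBdef
  have hB : ∀ f : S → ℝ, 0 ≤ f → 0 ≤ B f := by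
    intro f hf
    have := hc f hf
    simp only [hBdef, smul_apply, add_apply,
      LinearMap.coe_toContinuousLinearMap', one_apply_eq_self]
    exact smul_nonneg ht this
  let _ : NormedAlgebra ℚ ((S → ℝ) →L[ℝ] (S → ℝ)) := NormedAlgebra.restrictScalars ℚ ℝ _
  have h1 : t • LinearMap.toContinuousLinearMap A =
      algebraMap ℝ ((S → ℝ) →L[ℝ] (S → ℝ)) (-(t * c)) + B := by
    rw [hBdef, Algebra.algebraMap_eq_smul_one, smul_add, smul_smul, neg_smul]
    abel
  have h2 : sg A t = algebraMap ℝ ((S → ℝ) →L[ℝ] (S → ℝ)) (NormedSpace.exp (-(t * c))) *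
      NormedSpace.exp B := by
    unfold sg
    rw [h1, NormedSpace.exp_add_of_commute (Algebra.commutes _ _),
      NormedSpace.algebraMap_exp_comm]
  rw [h2, Algebra.algebraMap_eq_smul_one, smul_mul_assoc, one_mul, ← Real.exp_eq_exp_ℝ]
  exact smul_nonneg (Real.exp_pos _).le (exp_nonneg_aux B hB f hf)

lemma sg_mono (hA : PosGen A) {t : ℝ} (ht : 0 ≤ t) {f g : S → ℝ} (h : f ≤ g) :
    sg A t f ≤ sg A t g := by
  have := sg_nonneg hA ht (sub_nonneg.2 h)
  rw [map_sub] at this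
  exact sub_nonneg.1 this

lemma le_of_deriv_nonpos {y y' : ℝ → ℝ} {t : ℝ} (ht : 0 ≤ t)
    (hy : ∀ s ∈ Icc 0 t, HasDerivAt y (y' s) s) (h : ∀ s ∈ Icc 0 t, y' s ≤ 0) : y t ≤ y 0 := by
  have hc : ContinuousOn y (Icc 0 t) := fun s hs => (hy s hs).continuousAt.continuousWithinAt
  have := antitoneOn_of_deriv_nonpos (convex_Icc 0 t) hc
    (fun s hs => (hy s (interior_subset hs)).differentiableAt.differentiableWithinAt)
    (fun s hs => by rw [(hy s (interior_subset hs)).deriv]; exact h s (interior_subset hs))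
  exact this (left_mem_Icc.2 ht) (right_mem_Icc.2 ht) ht

/-- Gronwall in the form `y' ≤ -a (y - b)`. -/
lemma gronwall_decay {y y' : ℝ → ℝ} {t a b : ℝ} (ht : 0 ≤ t) (hb : 0 ≤ b)
    (hy : ∀ s ∈ Icc 0 t, HasDerivAt y (y' s) s) (h : ∀ s ∈ Icc 0 t, y' s ≤ -a * (y s - b)) :
    y t ≤ Real.exp (-a * t) * y 0 + b := by
  have key := le_of_deriv_nonpos (y := fun s => Real.exp (a * s) * (y s - b))
    (y' := fun s => Real.exp (a * s) * a * (y s - b) + Real.exp (a * s) * y' s) ht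
    (fun s hs => by
      have h1 : HasDerivAt (fun s => Real.exp (a * s)) (Real.exp (a * s) * a) s := by
        simpa using ((hasDerivAt_id s).const_mul a).exp
      exact h1.mul ((hy s hs).sub_const b))
    (fun s hs => by
      have := mul_le_mul_of_nonneg_left (h s hs) (Real.exp_pos (a * s)).le
      nlinarith)
  simp only [mul_zero, Real.exp_zero, one_mul] at key
  have e1 : Real.exp (-a * t) * Real.exp (a * t) = 1 := by
    rw [← Real.exp_add]; simp
  have h2 := mul_le_mul_of_nonneg_left key (Real.exp_pos (-a * t)).le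
  rw [← mul_assoc, e1, one_mul] at h2
  have := mul_nonneg (Real.exp_pos (-a * t)).le hb
  nlinarith

lemma abs_sub_le_of_deriv {y y' : ℝ → ℝ} {t b : ℝ} (ht : 0 ≤ t)
    (hy : ∀ s ∈ Icc 0 t, HasDerivAt y (y' s) s) (h : ∀ s ∈ Icc 0 t, |y' s| ≤ b) :
    |y t - y 0| ≤ b * t := by
  have h1 := le_of_deriv_nonpos (y := fun s => y s - b * s) (y' := fun s => y' s - b) ht
    (fun s hs => ((hy s hs).fun_sub ((hasDerivAt_id' s).const_mul b)).congr_deriv (by ring))
    (fun s hs => by have := (abs_le.1 (h s hs)).2; linarith)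
  have h2 := le_of_deriv_nonpos (y := fun s => -y s - b * s) (y' := fun s => -y' s - b) ht
    (fun s hs => ((hy s hs).fun_neg.fun_sub ((hasDerivAt_id' s).const_mul b)).congr_deriv (by ring))
    (fun s hs => by have := (abs_le.1 (h s hs)).1; linarith)
  simp only [mul_zero, sub_zero] at h1 h2
  rw [abs_le]; constructor <;> linarith

lemma sg_le_exp (hA : PosGen A) {W : S → ℝ} {a : ℝ} (hW : A W ≤ a • W) {t : ℝ} (ht : 0 ≤ t)
    (x : S) : sg A t W x ≤ Real.exp (a * t) * W x := by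
  have := gronwall_decay (y := fun s => sg A s W x) (y' := fun s => sg A s (A W) x) (a := -a)
    (b := 0) ht le_rfl (fun s _ => hasDerivAt_sg_apply A W x s)
    (fun s hs => by
      have := sg_mono hA hs.1 hW x
      rw [map_smul] at this
      simpa using this)
  simpa [sg_zero] using this

lemma sg_absorb {x : S} (hx : ∀ f, A f x = 0) (f : S → ℝ) (t : ℝ) : sg A t f x = f x := by
  have h : ∀ s, HasDerivAt (fun s => sg A s f x) 0 s := fun s => by
    have := hasDerivAt_sg_apply A f x s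
    rwa [← sg_comm, hx] at this
  have := is_const_of_deriv_eq_zero (fun s => (h s).differentiableAt) (fun s => (h s).deriv) t 0
  simpa [sg_zero] using this

lemma sg_fixed {f : S → ℝ} (hf : A f = 0) (t : ℝ) : sg A t f = f := by
  have h : ∀ s, HasDerivAt (fun s => sg A s f) 0 s := fun s => by
    have := hasDerivAt_sg A f s
    rwa [hf, map_zero] at this
  have := is_const_of_deriv_eq_zero (fun s => (h s).differentiableAt) (fun s => (h s).deriv) t 0
  simpa [sg_zero] using this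

lemma sg_abs_le (hA : PosGen A) (h1 : A 1 ≤ 0) {f : S → ℝ} {b : ℝ} (hf : ∀ x, |f x| ≤ b)
    {t : ℝ} (ht : 0 ≤ t) (x : S) : |sg A t f x| ≤ b := by
  have hb : 0 ≤ b := (abs_nonneg _).trans (hf x)
  have e1 : sg A t 1 x ≤ 1 := by
    have := sg_le_exp hA (W := 1) (a := 0) (by simpa using h1) ht x
    simpa using this
  have u1 : sg A t f x ≤ sg A t (b • (1 : S → ℝ)) x :=
    sg_mono hA ht (fun y => by simpa using (abs_le.1 (hf y)).2) x
  have u2 : sg A t (-f) x ≤ sg A t (b • (1 : S → ℝ)) x :=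
    sg_mono hA ht (fun y => by have := (abs_le.1 (hf y)).1; simp; linarith) x
  rw [map_smul] at u1 u2
  rw [map_neg] at u2
  simp only [Pi.smul_apply, smul_eq_mul, Pi.neg_apply] at u1 u2
  have := mul_le_mul_of_nonneg_left e1 hb
  rw [abs_le]; constructor <;> linarith

lemma sg_abs_le_of_le (hA : PosGen A) {f W : S → ℝ} (hf : ∀ x, |f x| ≤ W x)
    {t : ℝ} (ht : 0 ≤ t) (x : S) : |sg A t f x| ≤ sg A t W x := by
  have u1 : sg A t f x ≤ sg A t W x := sg_mono hA ht (fun y => (abs_le.1 (hf y)).2) x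
  have u2 : sg A t (-f) x ≤ sg A t W x :=
    sg_mono hA ht (fun y => by have := (abs_le.1 (hf y)).1; simp; linarith) x
  rw [map_neg] at u2
  simp only [Pi.neg_apply] at u2
  rw [abs_le]; constructor <;> linarith

variable {S' : Type*} [Fintype S']

lemma hasDerivAt_duhamel (A : (S → ℝ) →ₗ[ℝ] (S → ℝ)) (B : (S' → ℝ) →ₗ[ℝ] (S' → ℝ))
    (J : (S' → ℝ) →ₗ[ℝ] (S → ℝ)) (f : S' → ℝ) (t s : ℝ) :
    HasDerivAt (fun s => sg A s (J (sg B (t - s) f)))
      (sg A s (A (J (sg B (t - s) f)) - J (B (sg B (t - s) f)))) s := by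
  have h1 : HasDerivAt (fun s => J (sg B (t - s) f)) (-(J (B (sg B (t - s) f)))) s := by
    have := (LinearMap.toContinuousLinearMap J).hasFDerivAt.comp_hasDerivAt s
      (hasDerivAt_sg_rev B f t s)
    simpa [Function.comp_def] using this
  refine ((hasDerivAt_sg_op A s).clm_apply h1).congr_deriv ?_
  rw [map_sub, map_neg, sub_eq_add_neg]; rfl

lemma sg_intertwine (A : (S → ℝ) →ₗ[ℝ] (S → ℝ)) (B : (S' → ℝ) →ₗ[ℝ] (S' → ℝ))
    (J : (S' → ℝ) →ₗ[ℝ] (S → ℝ)) (h : ∀ f, A (J f) = J (B f)) (f : S' → ℝ) (t : ℝ) :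
    sg A t (J f) = J (sg B t f) := by
  have hd : ∀ s, HasDerivAt (fun s => sg A s (J (sg B (t - s) f))) 0 s := fun s => by
    have := hasDerivAt_duhamel A B J f t s
    rwa [h, sub_self, map_zero] at this
  have := is_const_of_deriv_eq_zero (fun s => (hd s).differentiableAt)
    (fun s => (hd s).deriv) t 0
  simpa [sg_zero] using this

lemma sg_duhamel_le (A B : (S → ℝ) →ₗ[ℝ] (S → ℝ)) (f : S → ℝ) (x : S) {t b : ℝ} (ht : 0 ≤ t)
    (h : ∀ s ∈ Icc 0 t, |sg A s (A (sg B (t - s) f) - B (sg B (t - s) f)) x| ≤ b) :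
    |sg A t f x - sg B t f x| ≤ b * t := by
  have := abs_sub_le_of_deriv (y := fun s => sg A s (sg B (t - s) f) x)
    (y' := fun s => sg A s (A (sg B (t - s) f) - B (sg B (t - s) f)) x) ht
    (fun s _ => (hasDerivAt_pi.1 (hasDerivAt_duhamel A B LinearMap.id f t s)) x) h
  simpa [sg_zero] using this

lemma hasDerivAt_lin (Ex : (S → ℝ) →ₗ[ℝ] ℝ) {u : ℝ → S → ℝ} {u' : S → ℝ} {s : ℝ}
    (hu : HasDerivAt u u' s) : HasDerivAt (fun s => Ex (u s)) (Ex u') s := by
  have := (LinearMap.toContinuousLinearMap Ex).hasFDerivAt.comp_hasDerivAt s hu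
  simpa [Function.comp_def] using this

lemma sg_selfadj (Ex : (S → ℝ) →ₗ[ℝ] ℝ) (h : ∀ f g, Ex (A f * g) = Ex (f * A g)) (f g : S → ℝ)
    (t : ℝ) : Ex (sg A t f * g) = Ex (f * sg A t g) := by
  have hd : ∀ s, HasDerivAt (fun s => Ex (sg A s f * sg A (t - s) g)) 0 s := fun s => by
    refine (hasDerivAt_lin Ex ((hasDerivAt_sg' A f s).fun_mul
      (hasDerivAt_sg_rev A g t s))).congr_deriv ?_
    rw [map_add, h, mul_neg, map_neg]; ring
  have := is_const_of_deriv_eq_zero (fun s => (hd s).differentiableAt)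
    (fun s => (hd s).deriv) t 0
  simpa [sg_zero] using this

lemma hasDerivAt_sq_norm (Ex : (S → ℝ) →ₗ[ℝ] ℝ) (f : S → ℝ) (s : ℝ) :
    HasDerivAt (fun s => Ex (sg A s f * sg A s f)) (2 * Ex (sg A s f * A (sg A s f))) s := by
  refine (hasDerivAt_lin Ex ((hasDerivAt_sg' A f s).fun_mul
    (hasDerivAt_sg' A f s))).congr_deriv ?_
  rw [map_add, mul_comm (A _)]; ring

/-- The time average of the semigroup started at a point. -/
noncomputable def tavg (A : (S → ℝ) →ₗ[ℝ] (S → ℝ)) (T : ℝ) (x : S) : (S → ℝ) →ₗ[ℝ] ℝ where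
  toFun f := T⁻¹ * ∫ s in (0 : ℝ)..T, sg A s f x
  map_add' f g := by
    simp only [map_add, Pi.add_apply]
    rw [intervalIntegral.integral_add ((continuous_sg_apply A f x).intervalIntegrable _ _)
      ((continuous_sg_apply A g x).intervalIntegrable _ _), mul_add]
  map_smul' c f := by
    simp only [map_smul, Pi.smul_apply, smul_eq_mul, RingHom.id_apply]
    rw [intervalIntegral.integral_const_mul]; ring

lemma tavg_gen (T : ℝ) (x : S) (f : S → ℝ) :
    tavg A T x (A f) = T⁻¹ * (sg A T f x - f x) := by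
  show T⁻¹ * ∫ s in (0 : ℝ)..T, sg A s (A f) x = _
  rw [intervalIntegral.integral_eq_sub_of_hasDerivAt (fun s _ => hasDerivAt_sg_apply A f x s)
    ((continuous_sg_apply A (A f) x).intervalIntegrable _ _), sg_zero]

lemma tavg_le {T : ℝ} (hT : 0 < T) (x : S) (f : S → ℝ) {b : ℝ}
    (h : ∀ s ∈ Icc 0 T, sg A s f x ≤ b) : tavg A T x f ≤ b := by
  show T⁻¹ * ∫ s in (0 : ℝ)..T, sg A s f x ≤ _
  have := intervalIntegral.integral_mono_on hT.le
    ((continuous_sg_apply A f x).intervalIntegrable (μ := MeasureTheory.volume) _ _)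
    (intervalIntegrable_const (c := b)) h
  rw [intervalIntegral.integral_const, sub_zero, smul_eq_mul] at this
  rw [inv_mul_le_iff₀ hT]; exact this

lemma tavg_nonneg (hA : PosGen A) {T : ℝ} (hT : 0 < T) (x : S) {f : S → ℝ} (hf : 0 ≤ f) :
    0 ≤ tavg A T x f := by
  have := tavg_le (A := A) hT x (-f) (b := 0) (fun s hs => by
    rw [map_neg]; simpa using sg_nonneg hA hs.1 hf x)
  rw [map_neg] at this; linarith

lemma tavg_one (h1 : A 1 = 0) {T : ℝ} (hT : 0 < T) (x : S) : tavg A T x 1 = 1 := by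
  show T⁻¹ * ∫ s in (0 : ℝ)..T, sg A s 1 x = _
  simp [sg_fixed h1, hT.ne']

end Semi

end Pool.Agent.FA1f
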