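import Pool.Agent.Lib.MP_be561b_pr.Semi
import Pool.Agent.Lib.MP_be561b_pr.Nash

/-! The dynamics on a discrete torus: generator, coupling, distance to the nearest infection. -/

namespace Pool.Agent.FA1f

open Function Finset

/-- The kinetic constraint. -/
def cT {G : Type*} [Ring G] (x : G) (η : G → Bool) : ℝ :=
  if η (x - 1) = false ∨ η (x + 1) = false then 1 else 0

lemma cT_nonneg {G : Type*} [Ring G] (x : G) (η : G → Bool) : 0 ≤ cT x η := by
  unfold cT; split_ifs <;> norm_num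

lemma cT_le_one {G : Type*} [Ring G] (x : G) (η : G → Bool) : cT x η ≤ 1 := by
  unfold cT; split_ifs <;> norm_num

section Torus

variable {m : ℕ} [NeZero m] {q : ℝ}

/-- The generator on the torus. -/
def LT (q : ℝ) (m : ℕ) [NeZero m] : ((ZMod m → Bool) → ℝ) →ₗ[ℝ] ((ZMod m → Bool) → ℝ) where
  toFun f := ∑ x, cT x * (E q x f - f)
  map_add' f g := by
    rw [← sum_add_distrib]; refine sum_congr rfl fun x _ => ?_; rw [map_add]; ring
  map_smul' c f := by
    rw [RingHom.id_apply, smul_sum]; refine sum_congr rfl fun x _ => ?_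
    rw [map_smul, ← smul_sub, mul_smul_comm]

lemma LT_def (f : (ZMod m → Bool) → ℝ) : LT q m f = ∑ x, cT x * (E q x f - f) := rfl

lemma LT_apply (f : (ZMod m → Bool) → ℝ) (η : ZMod m → Bool) :
    LT q m f η = ∑ x, cT x η * (E q x f η - f η) := by
  rw [LT_def, Finset.sum_apply]; rfl

lemma LT_pos (h0 : 0 < q) (h1 : q < 1) : PosGen (LT q m) := by
  refine ⟨Fintype.card (ZMod m), fun f hf η => ?_⟩
  have : ∀ x ∈ (univ : Finset (ZMod m)), -f η ≤ cT x η * (E q x f η - f η) := fun x _ => by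
    have a : 0 ≤ E q x f η := E_nonneg h0 h1 x hf η
    have b : 0 ≤ f η := hf η
    nlinarith [cT_nonneg x η, cT_le_one x η, mul_nonneg (cT_nonneg x η) a]
  have := card_nsmul_le_sum _ _ _ this
  simp only [card_univ, nsmul_eq_mul] at this
  simp only [Pi.add_apply, Pi.smul_apply, smul_eq_mul, Pi.zero_apply, LT_apply]
  linarith

lemma LT_one : LT q m 1 = 0 := by
  ext η; simp [LT_apply, E_apply]

lemma LT_le_of_touch (h0 : 0 < q) (h1 : q < 1) {f g : (ZMod m → Bool) → ℝ} (h : ∀ η, f η ≤ g η)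
    {η : ZMod m → Bool} (he : f η = g η) : LT q m f η ≤ LT q m g η := by
  rw [LT_apply, LT_apply]
  refine sum_le_sum fun x _ => mul_le_mul_of_nonneg_left ?_ (cT_nonneg x η)
  have := EL_mono h0 h1 [x] (f := f) (g := g) h η
  rw [EL_single] at this
  linarith

lemma LT_healthy (f : (ZMod m → Bool) → ℝ) : LT q m f (fun _ => true) = 0 := by
  simp [LT_apply, cT]

omit [NeZero m] in
lemma one_ne_zero_zmod (hm : 2 ≤ m) : (1 : ZMod m) ≠ 0 := by
  have : Fact (1 < m) := ⟨hm⟩
  exact one_ne_zero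

omit [NeZero m] in
lemma Ind_cT (hm : 2 ≤ m) (x : ZMod m) : Ind x (cT x) := fun η b => by
  have h := one_ne_zero_zmod hm
  have a : x - 1 ≠ x := by simpa [sub_eq_iff_eq_add] using h
  have b : x + 1 ≠ x := by simpa using h
  exact if_congr (by rw [update_of_ne a, update_of_ne b]) rfl rfl

/-- Product expectation on the torus. -/
noncomputable def ExT (q : ℝ) (m : ℕ) [NeZero m] : ((ZMod m → Bool) → ℝ) →ₗ[ℝ] ℝ :=
  (LinearMap.proj (fun _ => true)).comp (EL q (univ : Finset (ZMod m)).toList)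

lemma ExT_pos (h0 : 0 < q) (h1 : q < 1) : Pos (ExT q m) := fun _ hf => EL_nonneg h0 h1 _ hf _

lemma ExT_one : ExT q m 1 = 1 := by
  show EL q _ 1 _ = 1
  rw [EL_one]; rfl

lemma ExT_inv (j : ZMod m) : Inv q (ExT q m) j := fun f => by
  show EL q _ _ _ = EL q _ _ _
  rw [← EL_single, ← Module.End.mul_apply, EL_absorb' (by simp)]

lemma ExT_dirichlet (hm : 2 ≤ m) (f g : (ZMod m → Bool) → ℝ) : ExT q m (g * LT q m f) =
    -(q * (1 - q)) * ∑ x, ExT q m (cT x * (grad x f * grad x g)) := by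
  rw [LT_def, mul_sum, map_sum, mul_sum]
  exact sum_congr rfl fun x _ => (ExT_inv x).dirichlet (Ind_cT hm x) f g

lemma ExT_selfadj (hm : 2 ≤ m) (f g : (ZMod m → Bool) → ℝ) :
    ExT q m (LT q m f * g) = ExT q m (f * LT q m g) := by
  rw [mul_comm, ExT_dirichlet hm, ExT_dirichlet hm]
  simp only [mul_comm (grad _ f)]

lemma exists_delta (h0 : 0 < q) (h1 : q < 1) (ζ : ZMod m → Bool) :
    ∃ u : (ZMod m → Bool) → ℝ, 0 ≤ u ∧ (∀ G, ExT q m (u * G) = G ζ) ∧ ps q ^ m * u ζ ≤ 1 := by
  set δ : (ZMod m → Bool) → ℝ := fun η => if η = ζ then 1 else 0 with hδ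
  have d0 : 0 ≤ δ := fun η => by simp only [hδ, Pi.zero_apply]; split_ifs <;> norm_num
  have d1 := EL_lower h0 h1 (univ : Finset (ZMod m)).toList d0 ζ
  rw [EL_all ExT_one ExT_inv (by simp), length_toList, card_univ, ZMod.card] at d1
  simp only [hδ, if_true, mul_one] at d1
  have d2 : 0 < ExT q m δ := (pow_pos (ps_pos h0 h1) _).trans_le d1
  refine ⟨(ExT q m δ)⁻¹ • δ, smul_nonneg (inv_pos.2 d2).le d0, fun G => ?_, ?_⟩
  · have : δ * G = G ζ • δ := by
      ext η; simp only [hδ, Pi.mul_apply, Pi.smul_apply, smul_eq_mul]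
      split_ifs with h <;> simp [h]
    rw [smul_mul_assoc, this, lin_smul, lin_smul]; field_simp
  · simp only [Pi.smul_apply, smul_eq_mul, hδ, if_true, mul_one]
    rw [← div_eq_mul_inv, div_le_one d2]; exact d1

/-! ### The basic coupling -/

/-- One update. -/
noncomputable def UT (x : ZMod m) (b : Bool) (η : ZMod m → Bool) : ZMod m → Bool :=
  if η (x - 1) = false ∨ η (x + 1) = false then update η x b else η

/-- The generator of the basic coupling. -/
noncomputable def L2 (q : ℝ) (m : ℕ) [NeZero m] :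
    ((ZMod m → Bool) × (ZMod m → Bool) → ℝ) →ₗ[ℝ] ((ZMod m → Bool) × (ZMod m → Bool) → ℝ) where
  toFun F p := ∑ x, (q * F (UT x false p.1, UT x false p.2) +
    (1 - q) * F (UT x true p.1, UT x true p.2) - F p)
  map_add' F G := by
    ext p; simp only [Pi.add_apply, ← sum_add_distrib]; refine sum_congr rfl fun x _ => ?_; ring
  map_smul' c F := by
    ext p; simp only [Pi.smul_apply, smul_eq_mul, RingHom.id_apply, mul_sum]
    refine sum_congr rfl fun x _ => ?_; ring

lemma L2_apply (F : (ZMod m → Bool) × (ZMod m → Bool) → ℝ) (p) : L2 q m F p =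
    ∑ x, (q * F (UT x false p.1, UT x false p.2) +
      (1 - q) * F (UT x true p.1, UT x true p.2) - F p) := rfl

lemma L2_pos (h0 : 0 < q) (h1 : q < 1) : PosGen (L2 q m) := by
  refine ⟨Fintype.card (ZMod m), fun f hf p => ?_⟩
  have : ∀ x ∈ (univ : Finset (ZMod m)), -f p ≤ q * f (UT x false p.1, UT x false p.2) +
      (1 - q) * f (UT x true p.1, UT x true p.2) - f p := fun x _ => by
    have a : 0 ≤ f (UT x false p.1, UT x false p.2) := hf _
    have b : 0 ≤ f (UT x true p.1, UT x true p.2) := hf _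
    nlinarith [mul_nonneg h0.le a, mul_nonneg (sub_nonneg.2 h1.le) b]
  have := card_nsmul_le_sum _ _ _ this
  simp only [card_univ, nsmul_eq_mul] at this
  simp only [Pi.add_apply, Pi.smul_apply, smul_eq_mul, Pi.zero_apply, L2_apply]
  linarith

/-- Difference of the values at the two coordinates. -/
def JD (S : Type*) : (S → ℝ) →ₗ[ℝ] (S × S → ℝ) where
  toFun f p := f p.1 - f p.2
  map_add' f g := by ext p; simp only [Pi.add_apply]; ring
  map_smul' c f := by ext p; simp only [Pi.smul_apply, smul_eq_mul, RingHom.id_apply]; ring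

omit [NeZero m] in
lemma UT_term (f : (ZMod m → Bool) → ℝ) (x : ZMod m) (η : ZMod m → Bool) :
    cT x η * (E q x f η - f η) = q * f (UT x false η) + (1 - q) * f (UT x true η) - f η := by
  unfold cT UT
  split_ifs
  · rw [E_apply]; ring
  · ring

lemma L2_JD (f : (ZMod m → Bool) → ℝ) : L2 q m (JD _ f) = JD _ (LT q m f) := by
  ext p
  show ∑ x, (q * (f (UT x false p.1) - f (UT x false p.2)) +
    (1 - q) * (f (UT x true p.1) - f (UT x true p.2)) - (f p.1 - f p.2)) =
    LT q m f p.1 - LT q m f p.2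
  rw [LT_apply, LT_apply, ← sum_sub_distrib]
  refine sum_congr rfl fun x _ => ?_
  rw [UT_term, UT_term]; ring

/-- Weighted number of discrepancies. -/
def WD (w : ZMod m → ℝ) (p : (ZMod m → Bool) × (ZMod m → Bool)) : ℝ :=
  ∑ y, w y * if p.1 y = p.2 y then 0 else 1

lemma L2_WD (h0 : 0 < q) (h1 : q < 1) {w : ZMod m → ℝ} (w0 : ∀ y, 0 ≤ w y)
    (w1 : ∀ y, w y ≤ 2 * w (y - 1)) (w2 : ∀ y, w y ≤ 2 * w (y + 1)) :
    L2 q m (WD w) ≤ (4 : ℝ) • WD w := by
  intro p
  set D : ZMod m → ℝ := fun y => if p.1 y = p.2 y then 0 else 1 with hD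
  have D0 : ∀ y, 0 ≤ D y := fun y => by simp only [hD]; split_ifs <;> norm_num
  have key : ∀ x b, WD w (UT x b p.1, UT x b p.2) - WD w p ≤
      2 * (w (x - 1) * D (x - 1)) + 2 * (w (x + 1) * D (x + 1)) := by
    intro x b
    unfold WD
    rw [← sum_sub_distrib, sum_eq_single x]
    · have a1 := mul_le_mul_of_nonneg_right (w1 x) (D0 (x - 1))
      have a2 := mul_le_mul_of_nonneg_right (w2 x) (D0 (x + 1))
      have : (if UT x b p.1 x = UT x b p.2 x then (0 : ℝ) else 1) - D x ≤
          D (x - 1) + D (x + 1) := by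
        have u1 : (if UT x b p.1 x = UT x b p.2 x then (0 : ℝ) else 1) ≤ 1 := by
          split_ifs <;> norm_num
        by_cases e1 : p.1 (x - 1) = p.2 (x - 1)
        · by_cases e2 : p.1 (x + 1) = p.2 (x + 1)
          · have : (if UT x b p.1 x = UT x b p.2 x then (0 : ℝ) else 1) ≤ D x := by
              by_cases c : p.2 (x - 1) = false ∨ p.2 (x + 1) = false
              · have : UT x b p.1 x = UT x b p.2 x := by
                  simp only [UT, e1, e2, c, if_true, update_self]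
                rw [if_pos this]; exact D0 x
              · have t1 : UT x b p.1 = p.1 := by simp only [UT, e1, e2, c, if_false]
                have t2 : UT x b p.2 = p.2 := by simp only [UT, c, if_false]
                rw [t1, t2]
            linarith [D0 (x - 1), D0 (x + 1)]
          · have : D (x + 1) = 1 := if_neg e2
            linarith [D0 (x - 1), D0 x]
        · have : D (x - 1) = 1 := if_neg e1
          linarith [D0 (x + 1), D0 x]
      have a3 := mul_le_mul_of_nonneg_left this (w0 x)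
      show w x * (if UT x b p.1 x = UT x b p.2 x then (0 : ℝ) else 1) - w x * D x ≤ _
      linarith
    · intro y _ hy
      have : ∀ η : ZMod m → Bool, UT x b η y = η y := fun η => by
        unfold UT; split_ifs
        · exact update_of_ne hy _ _
        · rfl
      simp only [this, sub_self]
    · simp
  have s1 : L2 q m (WD w) p ≤ ∑ x, (2 * (w (x - 1) * D (x - 1)) + 2 * (w (x + 1) * D (x + 1))) := by
    rw [L2_apply]
    refine sum_le_sum fun x _ => ?_
    nlinarith [mul_le_mul_of_nonneg_left (key x false) h0.le,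
      mul_le_mul_of_nonneg_left (key x true) (sub_nonneg.2 h1.le)]
  rw [sum_add_distrib, ← mul_sum, ← mul_sum,
    Fintype.sum_equiv (Equiv.subRight 1) (fun x => w (x - 1) * D (x - 1)) (fun y => w y * D y)
      (fun _ => rfl),
    Fintype.sum_equiv (Equiv.addRight 1) (fun x => w (x + 1) * D (x + 1)) (fun y => w y * D y)
      (fun _ => rfl)] at s1
  show _ ≤ 4 * ∑ y, w y * D y
  linarith

/-- Distance to the origin on the torus. -/
def dz (y : ZMod m) : ℕ := y.valMinAbs.natAbs

lemma dz_le {y : ZMod m} {i : ℤ} (h : (i : ZMod m) = y) : dz y ≤ i.natAbs :=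
  ZMod.natAbs_min_of_le_div_two m _ _ (by rw [ZMod.coe_valMinAbs, h]) (ZMod.natAbs_valMinAbs_le y)

lemma osc_sg (h0 : 0 < q) (h1 : q < 1) {F : (ZMod m → Bool) → ℝ} {B : ℝ} {ρ : ℕ}
    (hB : ∀ η, |F η| ≤ B) (hF : ∀ η η', (∀ y, dz y ≤ ρ → η y = η' y) → F η = F η')
    {t : ℝ} (ht : 0 ≤ t) (η : ZMod m → Bool) (x : ZMod m) (b : Bool) :
    |sg (LT q m) t F (update η x b) - sg (LT q m) t F η| ≤
      Real.exp (4 * t) * (2 * B * 2 ^ ρ / 2 ^ dz x) := by
  have B0 : 0 ≤ B := (abs_nonneg _).trans (hB η)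
  set w : ZMod m → ℝ := fun y => 2 * B * 2 ^ ρ / 2 ^ dz y with hw
  have w0 : ∀ y, 0 ≤ w y := fun y => by positivity
  have wl : ∀ y y' : ZMod m, dz y' ≤ dz y + 1 → w y ≤ 2 * w y' := fun y y' h => by
    have : (2 : ℝ) ^ dz y' ≤ 2 ^ (dz y + 1) := pow_le_pow_right₀ one_le_two h
    calc w y = 2 * (2 * B * 2 ^ ρ / 2 ^ (dz y + 1)) := by simp only [hw]; field_simp; ring
      _ ≤ 2 * w y' := by simp only [hw]; gcongr
  have w1 : ∀ y, w y ≤ 2 * w (y - 1) := fun y => wl _ _ ((dz_le (i := y.valMinAbs - 1)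
    (by simp)).trans (by unfold dz; omega))
  have w2 : ∀ y, w y ≤ 2 * w (y + 1) := fun y => wl _ _ ((dz_le (i := y.valMinAbs + 1)
    (by simp)).trans (by unfold dz; omega))
  have WD0 : ∀ (p : (ZMod m → Bool) × (ZMod m → Bool)) y,
      0 ≤ w y * if p.1 y = p.2 y then (0 : ℝ) else 1 := fun p y =>
    mul_nonneg (w0 y) (by split_ifs <;> norm_num)
  have hJ : ∀ p, |JD _ F p| ≤ WD w p := by
    intro p
    show |F p.1 - F p.2| ≤ _
    by_cases h : ∀ y, dz y ≤ ρ → p.1 y = p.2 y
    · rw [hF _ _ h, sub_self, abs_zero]; exact sum_nonneg fun y _ => WD0 p y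
    · push Not at h
      obtain ⟨y, hy, hne⟩ := h
      refine le_trans ?_ (single_le_sum (fun y _ => WD0 p y) (mem_univ y))
      simp only [hne, if_false, mul_one, hw]
      have : (2 : ℝ) ^ dz y ≤ 2 ^ ρ := pow_le_pow_right₀ one_le_two hy
      rw [le_div_iff₀ (by positivity)]
      have := (abs_sub _ _).trans (add_le_add (hB p.1) (hB p.2))
      calc |F p.1 - F p.2| * 2 ^ dz y ≤ (B + B) * 2 ^ ρ := by gcongr
        _ = _ := by ring
  have s1 := sg_abs_le_of_le (L2_pos h0 h1) hJ ht (update η x b, η)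
  rw [sg_intertwine _ _ _ L2_JD] at s1
  refine s1.trans ((sg_le_exp (L2_pos h0 h1) (L2_WD h0 h1 w0 w1 w2) ht _).trans ?_)
  refine mul_le_mul_of_nonneg_left ?_ (Real.exp_pos _).le
  unfold WD
  rw [sum_eq_single x]
  · exact mul_le_of_le_one_right (w0 x) (by split_ifs <;> norm_num)
  · intro y _ hy; simp [update_of_ne hy]
  · simp

end Torus

end Pool.Agent.FA1f
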