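import Pool.Agent.Lib.MP_be561b_pr.Torus

/-! Distance to the nearest infection on the torus. -/

namespace Pool.Agent.FA1f

open Function Finset

section Xi

variable {m : ℕ} {q : ℝ}

/-- There is an infection within distance `j` of `z`. -/
def Near (z : ZMod m) (j : ℕ) (η : ZMod m → Bool) : Prop :=
  ∃ i : ℤ, i.natAbs ≤ j ∧ η (z + i) = false

/-- Distance to the nearest infection, truncated at `m`. -/
noncomputable def xi (z : ZMod m) (η : ZMod m → Bool) : ℕ := sInf {j | Near z j η ∨ m ≤ j}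

lemma xi_le_iff {z : ZMod m} {η : ZMod m → Bool} {j : ℕ} : xi z η ≤ j ↔ Near z j η ∨ m ≤ j := by
  constructor
  · intro h
    have : Near z (xi z η) η ∨ m ≤ xi z η :=
      Nat.sInf_mem (s := {j | Near z j η ∨ m ≤ j}) ⟨m, Or.inr le_rfl⟩
    rcases this with ⟨i, hi, h2⟩ | h2
    · exact Or.inl ⟨i, hi.trans h, h2⟩
    · exact Or.inr (h2.trans h)
  · intro h; exact Nat.sInf_le h

lemma xi_le_m (z : ZMod m) (η : ZMod m → Bool) : xi z η ≤ m := xi_le_iff.2 (Or.inr le_rfl)

lemma xi_le_of {z : ZMod m} {η : ZMod m → Bool} {i : ℤ} (h : η (z + i) = false) :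
    xi z η ≤ i.natAbs := xi_le_iff.2 (Or.inl ⟨i, le_rfl, h⟩)

lemma xi_spec {z : ZMod m} {η : ZMod m → Bool} (h : xi z η < m) :
    ∃ i : ℤ, i.natAbs = xi z η ∧ η (z + i) = false := by
  rcases xi_le_iff.1 (le_refl (xi z η)) with ⟨i, hi, h2⟩ | h2
  · exact ⟨i, le_antisymm hi (xi_le_of h2), h2⟩
  · omega

lemma xi_triangle (z : ZMod m) (i : ℤ) (η : ZMod m → Bool) :
    xi z η ≤ i.natAbs + xi (z + (i : ZMod m)) η := by
  rcases (xi_le_m (z + (i : ZMod m)) η).lt_or_eq with h | h
  · obtain ⟨j, hj, h2⟩ := xi_spec h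
    have : xi z η ≤ (i + j).natAbs := xi_le_of (by rw [Int.cast_add, ← add_assoc]; exact h2)
    omega
  · have := xi_le_m z η; omega

lemma xi_lt_of_zero [NeZero m] (z : ZMod m) {η : ZMod m → Bool} {y : ZMod m} (h : η y = false) :
    xi z η < m := by
  have : xi z η ≤ ((y - z).val : ℤ).natAbs := xi_le_of (by simpa using h)
  have := ZMod.val_lt (y - z)
  omega

lemma xi_nbr {z y : ZMod m} {η : ZMod m → Bool} {i : ℤ} (hi : z + i = y)
    (hc : η (y - 1) = false ∨ η (y + 1) = false) : xi z η ≤ i.natAbs + 1 := by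
  rcases hc with h | h
  · have : xi z η ≤ (i - 1).natAbs := xi_le_of (by rw [← h, ← hi]; congr 1; push_cast; ring)
    omega
  · have : xi z η ≤ (i + 1).natAbs := xi_le_of (by rw [← h, ← hi]; congr 1; push_cast; ring)
    omega

lemma xi_update_cases (hm : 2 ≤ m) (z y : ZMod m) (b : Bool) {η : ZMod m → Bool}
    (hc : η (y - 1) = false ∨ η (y + 1) = false) :
    xi z (update η y b) ≤ xi z η ∨ (xi z (update η y b) ≤ xi z η + 1 ∧
      (y = z + (xi z η : ℤ) ∨ y = z + (-(xi z η : ℤ) : ℤ))) := by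
  rcases (xi_le_m z η).lt_or_eq with h | h
  · obtain ⟨i, hi, h2⟩ := xi_spec h
    by_cases hy : z + i = y
    · right
      have h1 := one_ne_zero_zmod hm
      have a : y - 1 ≠ y := by simpa [sub_eq_iff_eq_add] using h1
      have a' : y + 1 ≠ y := by simpa using h1
      refine ⟨hi ▸ xi_nbr hy (by rwa [update_of_ne a, update_of_ne a']), ?_⟩
      rcases Int.natAbs_eq i with e | e
      · left; rw [← hy, ← hi, ← e]
      · right; rw [← hy, ← hi, ← e]
    · left; rw [← hi]; exact xi_le_of (by rwa [update_of_ne hy])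
  · left; rw [h]; exact xi_le_m _ _

lemma xi_update_cases' (z y : ZMod m) (b : Bool) {η : ZMod m → Bool}
    (hc : η (y - 1) = false ∨ η (y + 1) = false) :
    xi z η ≤ xi z (update η y b) ∨ (xi z η ≤ xi z (update η y b) + 1 ∧
      (y = z + ((xi z η : ℤ) - 1 : ℤ) ∨ y = z + (-((xi z η : ℤ) - 1) : ℤ))) := by
  by_cases h0 : xi z η ≤ xi z (update η y b)
  · exact Or.inl h0
  right
  have h : xi z (update η y b) < m := by have := xi_le_m z η; omega
  obtain ⟨i, hi, h2⟩ := xi_spec h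
  by_cases hy : z + i = y
  · have := xi_nbr hy hc
    refine ⟨hi ▸ this, ?_⟩
    rcases Int.natAbs_eq i with e | e
    · left; rw [← hy]; congr 2; omega
    · right; rw [← hy]; congr 2; omega
  · rw [update_of_ne hy] at h2
    have := xi_le_of h2; omega

variable [NeZero m]

lemma LT_le_two (h0 : 0 < q) (h1 : q < 1) {F : (ZMod m → Bool) → ℝ} {η : ZMod m → Bool}
    (hF : 0 ≤ F η) (y1 y2 : ZMod m)
    (h : ∀ y b, (η (y - 1) = false ∨ η (y + 1) = false) → F (update η y b) ≤ F η ∨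
      (F (update η y b) ≤ 2 * F η ∧ (y = y1 ∨ y = y2))) : LT q m F η ≤ 2 * F η := by
  rw [LT_apply]
  have : ∀ y ∈ (univ : Finset (ZMod m)), cT y η * (E q y F η - F η) ≤
      (if y = y1 then F η else 0) + (if y = y2 then F η else 0) := by
    intro y _
    have n1 : 0 ≤ (if y = y1 then F η else 0) := by split_ifs <;> simp [hF]
    have n2 : 0 ≤ (if y = y2 then F η else 0) := by split_ifs <;> simp [hF]
    by_cases hc : η (y - 1) = false ∨ η (y + 1) = false
    · have key : ∀ b, F (update η y b) - F η ≤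
          (if y = y1 then F η else 0) + (if y = y2 then F η else 0) := fun b => by
        rcases h y b hc with h' | ⟨h', e | e⟩
        · linarith
        · rw [if_pos e]; linarith
        · rw [if_pos e (t := F η)]; linarith
      rw [cT, if_pos hc, E_apply]
      nlinarith [mul_le_mul_of_nonneg_left (key false) h0.le,
        mul_le_mul_of_nonneg_left (key true) (sub_nonneg.2 h1.le)]
    · rw [cT, if_neg hc, zero_mul]; linarith
  refine (sum_le_sum this).trans ?_
  rw [sum_add_distrib]; simp; linarith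

lemma LT_pow_xi (h0 : 0 < q) (h1 : q < 1) (hm : 2 ≤ m) {θ : ℝ} (t1 : 1 ≤ θ) (t2 : θ ≤ 2)
    (z : ZMod m) : LT q m (fun η => θ ^ xi z η) ≤ (2 : ℝ) • fun η => θ ^ xi z η := fun η =>
  LT_le_two h0 h1 (F := fun η => θ ^ xi z η) (by positivity) _ _ fun y b hc => by
    rcases xi_update_cases hm z y b hc with h | ⟨h, e⟩
    · exact Or.inl (pow_le_pow_right₀ t1 h)
    · refine Or.inr ⟨(pow_le_pow_right₀ t1 h).trans ?_, e⟩
      rw [pow_succ']; gcongr

lemma LT_half_xi (h0 : 0 < q) (h1 : q < 1) (z : ZMod m) :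
    LT q m (fun η => (1 / 2 : ℝ) ^ xi z η) ≤ (2 : ℝ) • fun η => (1 / 2 : ℝ) ^ xi z η := fun η =>
  LT_le_two h0 h1 (F := fun η => (1 / 2 : ℝ) ^ xi z η) (by positivity) _ _ fun y b hc => by
    rcases xi_update_cases' z y b hc with h | ⟨h, e⟩
    · exact Or.inl (pow_le_pow_of_le_one (by norm_num) (by norm_num) h)
    · refine Or.inr ⟨?_, e⟩
      have := pow_le_pow_of_le_one (show (0 : ℝ) ≤ 1 / 2 by norm_num) (by norm_num) h
      rw [pow_succ] at this
      linarith

/-- The Lyapunov function. -/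
noncomputable def WL (θ : ℝ) (z : ZMod m) (η : ZMod m → Bool) : ℝ :=
  if ∃ y, η y = false then θ ^ xi z η else 0

lemma WL_nonneg {θ : ℝ} (t0 : 0 ≤ θ) (z : ZMod m) (η : ZMod m → Bool) : 0 ≤ WL θ z η := by
  unfold WL; split_ifs <;> positivity

lemma WL_le {θ : ℝ} (t0 : 0 ≤ θ) (z : ZMod m) (η : ZMod m → Bool) : WL θ z η ≤ θ ^ xi z η := by
  unfold WL; split_ifs <;> simp [pow_nonneg t0]

lemma LT_WL (h0 : 0 < q) (h1 : q < 1) (hm : 2 ≤ m) {θ : ℝ} (t1 : 1 ≤ θ) (t2 : θ ≤ 2)
    (z : ZMod m) : LT q m (WL θ z) ≤ (2 : ℝ) • WL θ z := fun η => by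
  by_cases h : ∃ y, η y = false
  · have e : WL θ z η = θ ^ xi z η := if_pos h
    refine (LT_le_of_touch h0 h1 (WL_le (by linarith) z) e).trans
      ((LT_pow_xi h0 h1 hm t1 t2 z η).trans (le_of_eq ?_))
    simp [e]
  · have : η = fun _ => true := by
      ext y; by_contra hy; exact h ⟨y, by simpa using hy⟩
    rw [this, LT_healthy]
    exact mul_nonneg zero_le_two (WL_nonneg (by linarith) _ _)

end Xi

lemma skeleton {S : Type*} [Fintype S] {A : (S → ℝ) →ₗ[ℝ] (S → ℝ)} (hA : PosGen A)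
    (hA1 : A 1 = 0) {W : S → ℝ} (W0 : ∀ x, 0 ≤ W x) (hW : A W ≤ (2 : ℝ) • W) {T γ C : ℝ}
    (hT : 0 < T) (g0 : 0 < γ) (g1 : γ < 1) (C0 : 0 ≤ C) (h : ∀ x, sg A T W x ≤ γ * W x + C)
    {t : ℝ} (ht : 0 ≤ t) (x : S) :
    sg A t W x ≤ Real.exp (2 * T) * (γ⁻¹ * Real.exp (Real.log γ / T * t) * W x + C / (1 - γ)) := by
  have s1 : ∀ j : ℕ, ∀ x, sg A (j * T) W x ≤ γ ^ j * W x + C / (1 - γ) := by
    intro j
    induction j with
    | zero =>
      intro x
      have : 0 ≤ C / (1 - γ) := div_nonneg C0 (by linarith)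
      simpa [sg_zero] using this
    | succ j ih =>
      intro x
      rw [Nat.cast_succ, add_mul, one_mul, sg_add]
      have := sg_mono hA (show 0 ≤ j * T by positivity) (f := sg A T W) (g := γ • W + C • 1)
        (fun y => by simpa using h y) x
      rw [map_add, map_smul, map_smul, sg_fixed hA1] at this
      simp only [Pi.add_apply, Pi.smul_apply, smul_eq_mul, Pi.one_apply, mul_one] at this
      have e : γ * (C / (1 - γ)) + C = C / (1 - γ) := by
        have : 1 - γ ≠ 0 := by linarith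
        field_simp; ring
      have := mul_le_mul_of_nonneg_left (ih x) g0.le
      rw [pow_succ]
      linarith
  set j := ⌊t / T⌋₊ with hj
  have j1 : j * T ≤ t := by rw [← le_div_iff₀ hT]; exact Nat.floor_le (by positivity)
  have j2 : t < (j + 1) * T := by rw [← div_lt_iff₀ hT]; exact Nat.lt_floor_add_one _
  have s2 : sg A t W x ≤ Real.exp (2 * T) * sg A (j * T) W x := by
    have := sg_mono hA (show 0 ≤ j * T by positivity) (f := sg A (t - j * T) W)
      (g := Real.exp (2 * T) • W) (fun y => (sg_le_exp hA hW (by linarith) y).trans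
        (mul_le_mul_of_nonneg_right (Real.exp_le_exp.2 (by linarith)) (W0 y))) x
    rw [← sg_add, add_sub_cancel, map_smul] at this
    exact this
  have s3 : γ ^ j ≤ γ⁻¹ * Real.exp (Real.log γ / T * t) := by
    rw [le_inv_mul_iff₀ g0, ← pow_succ', ← Real.exp_log (pow_pos g0 (j + 1)), Real.exp_le_exp,
      Real.log_pow, div_mul_eq_mul_div, le_div_iff₀ hT]
    have := Real.log_neg g0 g1
    push_cast
    nlinarith
  refine s2.trans (mul_le_mul_of_nonneg_left ((s1 j x).trans ?_) (Real.exp_pos _).le)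
  have := mul_le_mul_of_nonneg_right s3 (W0 x)
  linarith

end Pool.Agent.FA1f
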